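import Mathlib

/-!
Abstract part of the argument: differential modules over a differential algebra, the
adjunction of `η_j` (`Y`) and of `η_j, e_j` with `e_j ^ K = 0` (`Z`), and the resulting
step lemma.
-/

namespace Pool.Agent.Work.MP_701abf_gt

universe u v

/-- The acting algebra with its differential, a family of derivations and a family of
elements, and a filtration. -/
structure Dat (T : Type v) [Ring T] [Algebra (ZMod 2) T] where
  d : T →ₗ[ZMod 2] T
  del : ℕ → T →ₗ[ZMod 2] T
  c : ℕ → T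
  W : ℕ → ℤ
  G : ℤ → Submodule (ZMod 2) T
  W_nonneg : ∀ j, 0 ≤ W j
  del_mul : ∀ j x y, del j (x * y) = del j x * y + x * del j y
  d_mul : ∀ x y, d (x * y) = d x * y + x * d y
  d_c : ∀ j, d (c j) = 0
  d_del : ∀ j x, d (del j x) + del j (d x) = c j * x + x * c j
  c_mem : ∀ j, c j ∈ G (W j)
  del_mem : ∀ j ν x, x ∈ G ν → del j x ∈ G (ν + W j)

/-- Differential modules over `T` with a doubly indexed filtration. -/
structure DMod (T : Type v) [Ring T] [Algebra (ZMod 2) T] (A : Dat T) where
  carrier : Type u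
  [acg : AddCommGroup carrier]
  [mod : Module (ZMod 2) carrier]
  D : carrier →ₗ[ZMod 2] carrier
  act : T →ₐ[ZMod 2] Module.End (ZMod 2) carrier
  F : ℕ → ℤ → Submodule (ZMod 2) carrier
  D_D : ∀ x, D (D x) = 0
  D_act : ∀ ω x, D (act ω x) = act ω (D x) + act (A.d ω) x
  F_anti : ∀ k t x, x ∈ F (k + 1) t → x ∈ F k t
  D_mem : ∀ k t x, x ∈ F k t → D x ∈ F k t
  act_mem : ∀ ν ω, ω ∈ A.G ν → ∀ k t x, x ∈ F k t → act ω x ∈ F k (t + ν)

attribute [instance] DMod.acg DMod.mod

section char2

variable {M : Type*} [AddCommGroup M] [Module (ZMod 2) M]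

lemma add_self' (x : M) : x + x = 0 := by
  have : (2 : ZMod 2) • x = x + x := two_smul _ x
  rw [← this, show (2 : ZMod 2) = 0 from rfl, zero_smul]

lemma neg_eq' (x : M) : -x = x := by
  rw [neg_eq_iff_add_eq_zero]; exact add_self' x

lemma sub_eq' (x y : M) : x - y = x + y := by
  rw [sub_eq_add_neg, neg_eq']

lemma add_eq_zero' {x y : M} : x + y = 0 ↔ x = y := by
  rw [← sub_eq', sub_eq_zero]

lemma add_add_self (x y : M) : x + y + y = x := by
  rw [add_assoc, add_self', add_zero]

end char2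

variable {T : Type v} [Ring T] [Algebra (ZMod 2) T] {A : Dat T}

lemma Dat.del_one (j : ℕ) : A.del j 1 = 0 := by
  have h := A.del_mul j 1 1
  simp only [mul_one, one_mul] at h
  rw [add_self'] at h
  exact h

lemma Dat.d_one : A.d 1 = 0 := by
  have h := A.d_mul 1 1
  simp only [mul_one, one_mul] at h
  rw [add_self'] at h
  exact h

lemma DMod.F_anti' (X : DMod.{u} T A) {k k' : ℕ} (h : k ≤ k') {t : ℤ} {x : X.carrier}
    (hx : x ∈ X.F k' t) : x ∈ X.F k t := by
  induction h with
  | refl => exact hx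
  | step _ ih => exact ih (X.F_anti _ _ _ hx)

/-! ### Adjoining `η_j` -/

/-- The operator of an element of `T` on `X × X`. -/
def yAct (X : DMod.{u} T A) (j : ℕ) (ω : T) :
    Module.End (ZMod 2) (X.carrier × X.carrier) where
  toFun w := (X.act ω w.1 + X.act (A.del j ω) w.2, X.act ω w.2)
  map_add' x y := by
    ext
    · simp only [Prod.fst_add, Prod.snd_add, map_add]; abel
    · simp
  map_smul' r x := by
    ext <;> simp

@[simp] lemma yAct_apply (X : DMod.{u} T A) (j : ℕ) (ω : T) (w : X.carrier × X.carrier) :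
    yAct X j ω w = (X.act ω w.1 + X.act (A.del j ω) w.2, X.act ω w.2) := rfl

/-- The action on `X × X` as an algebra homomorphism. -/
def yActHom (X : DMod.{u} T A) (j : ℕ) :
    T →ₐ[ZMod 2] Module.End (ZMod 2) (X.carrier × X.carrier) :=
  AlgHom.ofLinearMap
    { toFun := yAct X j
      map_add' := fun x y => by
        refine LinearMap.ext fun w => ?_
        ext
        · simp only [yAct_apply, map_add, LinearMap.add_apply, Prod.fst_add]; abel
        · simp
      map_smul' := fun r x => by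
        refine LinearMap.ext fun w => ?_
        ext <;> simp }
    (by
      refine LinearMap.ext fun w => ?_
      ext <;> simp [Dat.del_one])
    (fun x y => by
      refine LinearMap.ext fun w => ?_
      ext
      · simp only [LinearMap.coe_mk, AddHom.coe_mk, yAct_apply, map_mul, A.del_mul, map_add,
          LinearMap.add_apply, Module.End.mul_apply]
        abel
      · simp)

@[simp] lemma yActHom_apply (X : DMod.{u} T A) (j : ℕ) (ω : T) (w : X.carrier × X.carrier) :
    yActHom X j ω w = (X.act ω w.1 + X.act (A.del j ω) w.2, X.act ω w.2) := rfl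

/-- The differential after adjoining `η_j`. -/
def yD (X : DMod.{u} T A) (j : ℕ) :
    X.carrier × X.carrier →ₗ[ZMod 2] X.carrier × X.carrier where
  toFun w := (X.D w.1 + X.act (A.c j) w.2, X.D w.2)
  map_add' x y := by
    ext
    · simp only [Prod.fst_add, Prod.snd_add, map_add]; abel
    · simp
  map_smul' r x := by
    ext <;> simp

@[simp] lemma yD_apply (X : DMod.{u} T A) (j : ℕ) (w : X.carrier × X.carrier) :
    yD X j w = (X.D w.1 + X.act (A.c j) w.2, X.D w.2) := rfl

/-- Adjoining `η_j`. -/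
def Y (X : DMod.{u} T A) (j : ℕ) : DMod.{u} T A where
  carrier := X.carrier × X.carrier
  D := yD X j
  act := yActHom X j
  F := fun k t => (X.F k t).prod (X.F k (t - A.W j))
  D_D := by
    rintro ⟨x, y⟩
    simp [X.D_D, X.D_act, A.d_c, add_self']
  D_act := by
    rintro ω ⟨x, y⟩
    have h := A.d_del j ω
    have h2 : A.d (A.del j ω) = A.del j (A.d ω) + (A.c j * ω + ω * A.c j) := by
      rw [← h, add_comm (A.d _), ← add_assoc, add_self', zero_add]
    ext
    · simp only [yActHom_apply, yD_apply, map_add, X.D_act, h2,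
        map_mul, Module.End.mul_apply, Prod.fst_add, LinearMap.add_apply]
      have e := add_self' (X.act (A.c j) (X.act ω y))
      calc _ = X.act ω (X.D x) + (X.act ω (X.act (A.c j) y)) + X.act (A.del j ω) (X.D y)
            + (X.act (A.d ω) x + X.act (A.del j (A.d ω)) y)
            + (X.act (A.c j) (X.act ω y) + X.act (A.c j) (X.act ω y)) := by abel
        _ = _ := by rw [e, add_zero]
    · simp [X.D_act]
  F_anti := by
    rintro k t ⟨x, y⟩ ⟨h1, h2⟩
    exact ⟨X.F_anti _ _ _ h1, X.F_anti _ _ _ h2⟩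
  D_mem := by
    rintro k t ⟨x, y⟩ ⟨h1, h2⟩
    refine ⟨(X.F k t).add_mem (X.D_mem _ _ _ h1) ?_, X.D_mem _ _ _ h2⟩
    have h := X.act_mem _ _ (A.c_mem j) k _ _ h2
    simpa using h
  act_mem := by
    rintro ν ω hω k t ⟨x, y⟩ ⟨h1, h2⟩
    refine ⟨(X.F k _).add_mem (X.act_mem _ _ hω _ _ _ h1) ?_, ?_⟩
    · have h := X.act_mem _ _ (A.del_mem j _ _ hω) k _ _ h2
      have e : t - A.W j + (ν + A.W j) = t + ν := by ring
      rw [e] at h
      exact h
    · have h := X.act_mem _ _ hω k _ _ h2
      have e : t - A.W j + ν = t + ν - A.W j := by ring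
      rw [e] at h
      exact h

/-! ### Adjoining `η_j` and `e_j`, with `e_j ^ (κ+1) = 0` -/

/-- previous component, zero for the first one -/
def prevC {M : Type*} [Zero M] {κ : ℕ} (w : Fin (κ + 1) → M) (b : Fin (κ + 1)) : M :=
  if b = 0 then 0 else w ⟨b.val - 1, by omega⟩

/-- The differential of `Z`. -/
def zD (X : DMod.{u} T A) (j κ : ℕ) :
    (Fin (κ + 1) → X.carrier × X.carrier) →ₗ[ZMod 2] (Fin (κ + 1) → X.carrier × X.carrier) where
  toFun w b := yD X j (w b) + ((prevC w b).2, 0)
  map_add' x y := by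
    funext b
    by_cases h : b = 0
    · subst h
      ext
      · simp [prevC]; abel
      · simp [prevC]
    · ext
      · simp [prevC, h]; abel
      · simp [prevC, h]
  map_smul' r x := by
    funext b
    by_cases h : b = 0
    · subst h
      ext <;> simp [prevC]
    · ext <;> simp [prevC, h]

@[simp] lemma zD_apply (X : DMod.{u} T A) (j κ : ℕ)
    (w : Fin (κ + 1) → X.carrier × X.carrier) (b : Fin (κ + 1)) :
    zD X j κ w b = yD X j (w b) + ((prevC w b).2, 0) := rfl

/-- The action on `Z`. -/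
def zActHom (X : DMod.{u} T A) (j κ : ℕ) :
    T →ₐ[ZMod 2] Module.End (ZMod 2) (Fin (κ + 1) → X.carrier × X.carrier) :=
  AlgHom.ofLinearMap
    { toFun := fun ω =>
        { toFun := fun w b => yActHom X j ω (w b)
          map_add' := fun x y => by funext b; simp only [Pi.add_apply, map_add]
          map_smul' := fun r x => by
            funext b; simp only [Pi.smul_apply, map_smul, RingHom.id_apply] }
      map_add' := fun x y => by
        refine LinearMap.ext fun w => ?_
        funext b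
        simp only [map_add, LinearMap.coe_mk, AddHom.coe_mk, LinearMap.add_apply, Pi.add_apply]
      map_smul' := fun r x => by
        refine LinearMap.ext fun w => ?_
        funext b
        simp only [map_smul, LinearMap.coe_mk, AddHom.coe_mk, LinearMap.smul_apply,
          Pi.smul_apply, RingHom.id_apply] }
    (by
      refine LinearMap.ext fun w => ?_
      funext b
      simp only [map_one, LinearMap.coe_mk, AddHom.coe_mk, Module.End.one_apply])
    (fun x y => by
      refine LinearMap.ext fun w => ?_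
      funext b
      simp only [map_mul, LinearMap.coe_mk, AddHom.coe_mk, Module.End.mul_apply])

lemma zActHom_apply (X : DMod.{u} T A) (j κ : ℕ) (ω : T)
    (w : Fin (κ + 1) → X.carrier × X.carrier) (b : Fin (κ + 1)) :
    zActHom X j κ ω w b = yActHom X j ω (w b) := rfl

lemma prevC_map {M N : Type*} [Zero M] [Zero N] {κ : ℕ} (f : M → N) (hf : f 0 = 0)
    (w : Fin (κ + 1) → M) (b : Fin (κ + 1)) :
    prevC (fun b => f (w b)) b = f (prevC w b) := by
  unfold prevC
  split_ifs <;> simp [hf]

/-- Adjoining `η_j` and `e_j`. -/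
def Z (X : DMod.{u} T A) (j κ : ℕ) : DMod.{u} T A where
  carrier := Fin (κ + 1) → X.carrier × X.carrier
  D := zD X j κ
  act := zActHom X j κ
  F := fun k t => Submodule.pi Set.univ (fun b => (Y X j).F k (t - b.val * A.W j))
  D_D := by
    intro w
    funext b
    have h1 : yD X j (yD X j (w b)) = 0 := (Y X j).D_D (w b)
    rw [zD_apply, zD_apply, map_add, h1, zero_add]
    have h3 : (prevC (zD X j κ w) b).2 = X.D (prevC w b).2 := by
      unfold prevC
      split_ifs
      · simp
      · simp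
    rw [h3]
    ext
    · simp [add_self']
    · simp
  D_act := by
    intro ω w
    funext b
    have h1 := (Y X j).D_act ω (w b)
    change yD X j (yActHom X j ω (w b)) = yActHom X j ω (yD X j (w b))
      + yActHom X j (A.d ω) (w b) at h1
    rw [zD_apply, Pi.add_apply, zActHom_apply, zActHom_apply, zActHom_apply, zD_apply, h1]
    have h3 : (prevC (zActHom X j κ ω w) b).2 = X.act ω (prevC w b).2 := by
      unfold prevC
      split_ifs
      · simp
      · simp [zActHom_apply]
    rw [h3, map_add]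
    ext
    · simp; abel
    · simp
  F_anti := by
    intro k t w hw
    rw [Submodule.mem_pi] at hw ⊢
    intro b hb
    exact (Y X j).F_anti _ _ _ (hw b hb)
  D_mem := by
    intro k t w hw
    rw [Submodule.mem_pi] at hw ⊢
    intro b hb
    refine ((Y X j).F k _).add_mem ((Y X j).D_mem _ _ _ (hw b hb)) ?_
    refine ⟨?_, (X.F k _).zero_mem⟩
    unfold prevC
    split_ifs with h
    · exact (X.F k _).zero_mem
    · have h4 := (hw ⟨b.val - 1, by omega⟩ trivial).2
      have e : t - ((⟨b.val - 1, by omega⟩ : Fin (κ + 1)).val : ℤ) * A.W j - A.W j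
          = t - (b.val : ℤ) * A.W j := by
        have hb0 : b.val ≠ 0 := fun h' => h (Fin.ext h')
        have : ((b.val - 1 : ℕ) : ℤ) = (b.val : ℤ) - 1 := by omega
        simp only [this]; ring
      rw [e] at h4
      exact h4
  act_mem := by
    intro ν ω hω k t w hw
    rw [Submodule.mem_pi] at hw ⊢
    intro b hb
    have h := (Y X j).act_mem _ _ hω k _ _ (hw b hb)
    have e : t - (b.val : ℤ) * A.W j + ν = t + ν - b.val * A.W j := by ring
    rw [e] at h
    exact h

/-! ### Retractions -/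

/-- `X` is a filtered retract of `Z`. -/
def Ret (X Z : DMod.{u} T A) : Prop :=
  ∃ (i : X.carrier →ₗ[ZMod 2] Z.carrier) (ρ : Z.carrier →ₗ[ZMod 2] X.carrier),
    (∀ x, Z.D (i x) = i (X.D x)) ∧ (∀ w, X.D (ρ w) = ρ (Z.D w)) ∧ (∀ x, ρ (i x) = x) ∧
    (∀ k t x, x ∈ X.F k t → i x ∈ Z.F k t) ∧ (∀ k t w, w ∈ Z.F k t → ρ w ∈ X.F k t)

lemma Ret.refl (X : DMod.{u} T A) : Ret X X :=
  ⟨LinearMap.id, LinearMap.id, by simp, by simp, by simp, by simp, by simp⟩

lemma Ret.trans {X Y Z : DMod.{u} T A} (h1 : Ret X Y) (h2 : Ret Y Z) : Ret X Z := by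
  obtain ⟨i, ρ, a1, a2, a3, a4, a5⟩ := h1
  obtain ⟨i', ρ', b1, b2, b3, b4, b5⟩ := h2
  refine ⟨i'.comp i, ρ.comp ρ', ?_, ?_, ?_, ?_, ?_⟩
  · intro x; simp [a1, b1]
  · intro x; simp [a2, b2]
  · intro x; simp [a3, b3]
  · intro k t x hx; exact b4 _ _ _ (a4 _ _ _ hx)
  · intro k t x hx; exact a5 _ _ _ (b5 _ _ _ hx)

lemma act_pow_mem (X : DMod.{u} T A) (j n k : ℕ) (t : ℤ) (x : X.carrier) (hx : x ∈ X.F k t) :
    X.act (A.c j ^ n) x ∈ X.F k (t + n * A.W j) := by
  induction n with
  | zero => simpa using hx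
  | succ n ih =>
    have h := X.act_mem _ _ (A.c_mem j) k _ _ ih
    rw [pow_succ', map_mul, Module.End.mul_apply]
    have e : t + (n : ℤ) * A.W j + A.W j = t + ((n + 1 : ℕ) : ℤ) * A.W j := by
      push_cast; ring
    rw [e] at h
    exact h

lemma d_pow (j n : ℕ) : A.d (A.c j ^ n) = 0 := by
  induction n with
  | zero => simpa using A.d_one
  | succ n ih => rw [pow_succ, A.d_mul, ih, A.d_c]; simp

lemma D_act_pow (X : DMod.{u} T A) (j n : ℕ) (x : X.carrier) :
    X.D (X.act (A.c j ^ n) x) = X.act (A.c j ^ n) (X.D x) := by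
  rw [X.D_act, d_pow]; simp

/-- The retraction of `Z` onto `X`. -/
def zRet (X : DMod.{u} T A) (j κ : ℕ) (Θ : T) :
    (Fin (κ + 1) → X.carrier × X.carrier) →ₗ[ZMod 2] X.carrier where
  toFun w := ∑ b : Fin (κ + 1), X.act (A.c j ^ b.val) (w b).1 + X.act Θ (w (Fin.last κ)).2
  map_add' x y := by
    simp only [Pi.add_apply, Prod.fst_add, Prod.snd_add, map_add, Finset.sum_add_distrib]
    abel
  map_smul' r x := by
    simp only [Pi.smul_apply, Prod.smul_fst, Prod.smul_snd, map_smul, RingHom.id_apply,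
      smul_add, Finset.smul_sum]

lemma zRet_apply (X : DMod.{u} T A) (j κ : ℕ) (Θ : T)
    (w : Fin (κ + 1) → X.carrier × X.carrier) :
    zRet X j κ Θ w =
      ∑ b : Fin (κ + 1), X.act (A.c j ^ b.val) (w b).1 + X.act Θ (w (Fin.last κ)).2 := rfl

/-- The inclusion of `X` in `Z`. -/
def zInc (X : DMod.{u} T A) (κ : ℕ) :
    X.carrier →ₗ[ZMod 2] (Fin (κ + 1) → X.carrier × X.carrier) where
  toFun x b := if b = 0 then (x, 0) else 0
  map_add' x y := by
    funext b
    by_cases h : b = 0 <;> simp [h]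
  map_smul' r x := by
    funext b
    by_cases h : b = 0 <;> simp [h]

lemma zInc_apply (X : DMod.{u} T A) (κ : ℕ) (x : X.carrier) (b : Fin (κ + 1)) :
    zInc X κ x b = if b = 0 then (x, 0) else 0 := rfl

lemma zRet_comm (X : DMod.{u} T A) (j κ : ℕ) (Θ : T) (hΘ : A.d Θ = A.c j ^ (κ + 1))
    (w : Fin (κ + 1) → X.carrier × X.carrier) :
    X.D (zRet X j κ Θ w) = zRet X j κ Θ (zD X j κ w) := by
  have e1 : X.D (zRet X j κ Θ w) = ∑ b : Fin (κ + 1), X.act (A.c j ^ b.val) (X.D (w b).1)
      + (X.act Θ (X.D (w (Fin.last κ)).2) + X.act (A.c j ^ (κ + 1)) (w (Fin.last κ)).2) := by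
    rw [zRet_apply, map_add, map_sum, X.D_act, hΘ]
    congr 1
    exact Finset.sum_congr rfl fun b _ => D_act_pow X j _ _
  have e2 : ∑ b : Fin (κ + 1), X.act (A.c j ^ b.val) (prevC w b).2
      = ∑ b : Fin κ, X.act (A.c j ^ (b.val + 1)) (w b.castSucc).2 := by
    rw [Fin.sum_univ_succ]
    have h0 : X.act (A.c j ^ (0 : Fin (κ + 1)).val) (prevC w 0).2 = 0 := by
      simp [prevC]
    rw [h0, zero_add]
    refine Finset.sum_congr rfl fun b _ => ?_
    have : prevC w b.succ = w b.castSucc := by
      unfold prevC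
      rw [if_neg (Fin.succ_ne_zero b)]
      congr 1
    rw [this, Fin.val_succ]
  have e3 : ∑ b : Fin (κ + 1), X.act (A.c j ^ b.val) (X.act (A.c j) (w b).2)
      = ∑ b : Fin κ, X.act (A.c j ^ (b.val + 1)) (w b.castSucc).2
        + X.act (A.c j ^ (κ + 1)) (w (Fin.last κ)).2 := by
    rw [Fin.sum_univ_castSucc]
    simp only [Fin.val_castSucc, Fin.val_last, pow_succ, map_mul, Module.End.mul_apply]
  rw [e1, zRet_apply]
  have e4 : ∀ b : Fin (κ + 1), X.act (A.c j ^ b.val) (zD X j κ w b).1
      = X.act (A.c j ^ b.val) (X.D (w b).1) + (X.act (A.c j ^ b.val) (X.act (A.c j) (w b).2)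
        + X.act (A.c j ^ b.val) (prevC w b).2) := by
    intro b
    simp only [zD_apply, yD_apply, Prod.fst_add, map_add]
    abel
  have e5 : (zD X j κ w (Fin.last κ)).2 = X.D (w (Fin.last κ)).2 := by
    simp
  rw [e5, Finset.sum_congr rfl fun b _ => e4 b, Finset.sum_add_distrib, Finset.sum_add_distrib,
    e2, e3]
  have e6 := add_self' (∑ b : Fin κ, X.act (A.c j ^ (b.val + 1)) (w b.castSucc).2)
  calc _ = ∑ b : Fin (κ + 1), X.act (A.c j ^ b.val) (X.D (w b).1)
      + X.act (A.c j ^ (κ + 1)) (w (Fin.last κ)).2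
      + X.act Θ (X.D (w (Fin.last κ)).2) + 0 := by rw [add_zero]; abel
    _ = _ := by rw [← e6]; abel

lemma ret_Z (X : DMod.{u} T A) (j κ : ℕ) (Θ : T) (hΘ : A.d Θ = A.c j ^ (κ + 1))
    (hm : Θ ∈ A.G ((κ + 1 : ℕ) * A.W j)) : Ret X (Z X j κ) := by
  refine ⟨zInc X κ, zRet X j κ Θ, ?_, ?_, ?_, ?_, ?_⟩
  · intro x
    funext b
    change zD X j κ (zInc X κ x) b = zInc X κ (X.D x) b
    rw [zD_apply]
    have : (prevC (zInc X κ x) b).2 = 0 := by
      unfold prevC
      split_ifs with h
      · rfl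
      · rw [zInc_apply]
        split_ifs <;> rfl
    rw [this, zInc_apply, zInc_apply]
    split_ifs with h
    · ext <;> simp
    · ext <;> simp
  · intro w
    exact zRet_comm X j κ Θ hΘ w
  · intro x
    change zRet X j κ Θ (zInc X κ x) = x
    rw [zRet_apply, Finset.sum_eq_single (0 : Fin (κ + 1))]
    · have : (zInc X κ x (Fin.last κ)).2 = 0 := by
        rw [zInc_apply]; split_ifs <;> rfl
      rw [this, map_zero, add_zero]
      simp [zInc_apply]
    · intro b _ hb
      simp [zInc_apply, hb]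
    · simp
  · intro k t x hx
    change zInc X κ x ∈ Submodule.pi Set.univ _
    rw [Submodule.mem_pi]
    intro b _
    rw [zInc_apply]
    split_ifs with h
    · subst h
      simp only [Fin.val_zero, Nat.cast_zero, zero_mul, sub_zero]
      exact ⟨hx, (X.F _ _).zero_mem⟩
    · exact Submodule.zero_mem _
  · intro k t w hw
    change zRet X j κ Θ w ∈ X.F k t
    rw [zRet_apply]
    refine (X.F k t).add_mem ((X.F k t).sum_mem fun b _ => ?_) ?_
    · have h := act_pow_mem X j b.val k _ _ (hw b trivial).1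
      have e : t - (b.val : ℤ) * A.W j + b.val * A.W j = t := by ring
      rw [e] at h
      exact h
    · have h := X.act_mem _ _ hm k _ _ (hw (Fin.last κ) trivial).2
      have e : t - ((Fin.last κ).val : ℤ) * A.W j - A.W j + ((κ + 1 : ℕ) : ℤ) * A.W j = t := by
        simp only [Fin.val_last]; push_cast; ring
      rw [e] at h
      exact h

/-! ### The filtration by total degree in the `e_j` -/

/-- `Z` is built out of finitely many copies of `Y`, of degrees `< M`. -/
def Rel (M : ℕ) (Z Y : DMod.{u} T A) : Prop :=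
  ∃ (B : Type) (deg : B → ℕ) (wt : B → ℤ) (e : Z.carrier ≃ₗ[ZMod 2] (B → Y.carrier)),
    (∀ b, deg b < M) ∧ (∀ b, 0 ≤ wt b) ∧
    (∀ k t w, w ∈ Z.F k t ↔ ∀ b, e w b ∈ Y.F k (t - wt b)) ∧
    (∀ ω w b, e (Z.act ω w) b = Y.act ω (e w b)) ∧
    (∀ w b, (∀ b', deg b' < deg b → e w b' = 0) → e (Z.D w) b = Y.D (e w b))

/-- Vanishing of cohomology at the cost of `r` steps of the filtration. -/
def Null (X : DMod.{u} T A) (r : ℕ) (T0 : ℤ) : Prop :=
  ∀ k t x, t ≤ T0 → x ∈ X.F (k + r) t → X.D x = 0 → ∃ u ∈ X.F k t, X.D u = x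

lemma Rel.refl (X : DMod.{u} T A) : Rel 1 X X := by
  refine ⟨Unit, fun _ => 0, fun _ => 0, (LinearEquiv.funUnique Unit (ZMod 2) X.carrier).symm,
    ?_, ?_, ?_, ?_, ?_⟩
  · simp
  · simp
  · intro k t w
    simp
  · intro ω w b
    simp
  · intro w b _
    simp

lemma Rel.null {M : ℕ} {Z Y : DMod.{u} T A} (h : Rel M Z Y) {r : ℕ} {T0 : ℤ}
    (hY : Null Y r T0) : Null Z (r * M) T0 := by
  obtain ⟨B, deg, wt, e, hdeg, hwt, hF, hact, hD⟩ := h
  have key : ∀ p, ∀ k t x, t ≤ T0 → (∀ b, deg b + p < M → e x b = 0) →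
      x ∈ Z.F (k + r * p) t → Z.D x = 0 → ∃ u ∈ Z.F k t, Z.D u = x := by
    intro p
    induction p with
    | zero =>
      intro k t x ht hx hm hd
      refine ⟨0, Submodule.zero_mem _, ?_⟩
      rw [map_zero]
      symm
      have : e x = 0 := by
        funext b
        exact hx b (by simpa using hdeg b)
      simpa using this
    | succ p ih =>
      intro k t x ht hx hm hd
      have hsol : ∀ b, ∃ u, deg b + (p + 1) = M → u ∈ Y.F (k + r * p) (t - wt b) ∧
          Y.D u = e x b := by
        intro b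
        by_cases hb : deg b + (p + 1) = M
        · have h1 : Y.D (e x b) = 0 := by
            rw [← hD x b (fun b' hb' => hx b' (by omega)), hd]
            simp
          have h2 : e x b ∈ Y.F (k + r * p + r) (t - wt b) := by
            have := (hF _ _ _).1 hm b
            rw [show k + r * (p + 1) = k + r * p + r by ring] at this
            exact this
          obtain ⟨u, hu, hu2⟩ := hY _ _ _ (by have := hwt b; omega) h2 h1
          exact ⟨u, fun _ => ⟨hu, hu2⟩⟩
        · exact ⟨0, fun h => absurd h hb⟩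
      choose u hu using hsol
      set v : B → Y.carrier := fun b => by
        classical exact if deg b + (p + 1) = M then u b else 0 with hv
      have hv1 : ∀ b, deg b + (p + 1) = M → v b = u b := by
        intro b hb
        simp [hv, hb]
      have hv2 : ∀ b, deg b + (p + 1) ≠ M → v b = 0 := by
        intro b hb
        simp [hv, hb]
      have hvF : e.symm v ∈ Z.F (k + r * p) t := by
        rw [hF]
        intro b
        rw [LinearEquiv.apply_symm_apply]
        by_cases hb : deg b + (p + 1) = M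
        · rw [hv1 b hb]; exact (hu b hb).1
        · rw [hv2 b hb]; exact Submodule.zero_mem _
      have g1 : ∀ b, deg b + p < M → e (x + Z.D (e.symm v)) b = 0 := by
        intro b hb
        have h3 : e (Z.D (e.symm v)) b = Y.D (v b) := by
          have := hD (e.symm v) b (fun b' hb' => by
            rw [LinearEquiv.apply_symm_apply]
            exact hv2 b' (by omega))
          rw [this, LinearEquiv.apply_symm_apply]
        rw [map_add, Pi.add_apply, h3]
        by_cases hb2 : deg b + (p + 1) = M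
        · rw [hv1 b hb2, (hu b hb2).2, add_self']
        · rw [hv2 b hb2, hx b (by omega)]
          simp
      have g2 : x + Z.D (e.symm v) ∈ Z.F (k + r * p) t :=
        (Z.F _ t).add_mem (Z.F_anti' (by rw [mul_add]; omega) hm) (Z.D_mem _ _ _ hvF)
      have g3 : Z.D (x + Z.D (e.symm v)) = 0 := by rw [map_add, hd, Z.D_D, add_zero]
      obtain ⟨u', hu', hu2'⟩ := ih k t (x + Z.D (e.symm v)) ht g1 g2 g3
      refine ⟨u' + e.symm v, (Z.F k t).add_mem hu' (Z.F_anti' (by omega) hvF), ?_⟩
      rw [map_add, hu2', add_add_self]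
  intro k t x ht hx hd
  exact key M k t x ht (fun b hb => by omega) hx hd

/-- The equivalence used in `Rel.step`. -/
def stepEquiv {Z Y : DMod.{u} T A} {B : Type} (κ : ℕ) (e : Z.carrier ≃ₗ[ZMod 2] (B → Y.carrier)) :
    (Fin (κ + 1) → Z.carrier × Z.carrier) ≃ₗ[ZMod 2]
      (Fin (κ + 1) × B → Y.carrier × Y.carrier) where
  toFun w p := (e (w p.1).1 p.2, e (w p.1).2 p.2)
  invFun v i := (e.symm fun b => (v (i, b)).1, e.symm fun b => (v (i, b)).2)
  map_add' x y := by
    funext p
    ext <;> simp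
  map_smul' r x := by
    funext p
    ext <;> simp
  left_inv w := by
    funext i
    ext <;> simp
  right_inv v := by
    funext p
    ext <;> simp

lemma stepEquiv_apply {Z Y : DMod.{u} T A} {B : Type} (κ : ℕ)
    (e : Z.carrier ≃ₗ[ZMod 2] (B → Y.carrier)) (w : Fin (κ + 1) → Z.carrier × Z.carrier)
    (p : Fin (κ + 1) × B) : stepEquiv κ e w p = (e (w p.1).1 p.2, e (w p.1).2 p.2) := rfl

lemma Rel.step {M : ℕ} {Z' Y' : DMod.{u} T A} (h : Rel M Z' Y') (j κ : ℕ) :
    Rel (M + κ) (Z Z' j κ) (Y Y' j) := by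
  obtain ⟨B, deg, wt, e, hdeg, hwt, hF, hact, hD⟩ := h
  refine ⟨Fin (κ + 1) × B, fun p => p.1.val + deg p.2, fun p => p.1.val * A.W j + wt p.2,
    stepEquiv κ e, ?_, ?_, ?_, ?_, ?_⟩
  · rintro ⟨i, b⟩
    have := hdeg b
    have := i.isLt
    simp only
    omega
  · rintro ⟨i, b⟩
    have h1 := hwt b
    have h2 := A.W_nonneg j
    simp only
    positivity
  · intro k t w
    constructor
    · rintro hw ⟨i, b⟩
      have h1 := (hF _ _ _).1 (hw i trivial).1 b
      have h2 := (hF _ _ _).1 (hw i trivial).2 b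
      refine ⟨?_, ?_⟩
      · have e1 : t - (i.val : ℤ) * A.W j - wt b = t - ((i.val : ℤ) * A.W j + wt b) := by ring
        rw [e1] at h1
        exact h1
      · have e1 : t - (i.val : ℤ) * A.W j - A.W j - wt b
          = t - ((i.val : ℤ) * A.W j + wt b) - A.W j := by ring
        rw [e1] at h2
        exact h2
    · intro hw i _
      refine ⟨(hF _ _ _).2 fun b => ?_, (hF _ _ _).2 fun b => ?_⟩
      · have h1 := (hw (i, b)).1
        have e1 : t - (i.val : ℤ) * A.W j - wt b = t - ((i.val : ℤ) * A.W j + wt b) := by ring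
        rw [e1]
        exact h1
      · have h2 := (hw (i, b)).2
        have e1 : t - (i.val : ℤ) * A.W j - A.W j - wt b
          = t - ((i.val : ℤ) * A.W j + wt b) - A.W j := by ring
        rw [e1]
        exact h2
  · rintro ω w ⟨i, b⟩
    change stepEquiv κ e (zActHom Z' j κ ω w) (i, b)
      = yActHom Y' j ω (stepEquiv κ e w (i, b))
    rw [stepEquiv_apply, stepEquiv_apply, yActHom_apply, zActHom_apply, yActHom_apply]
    simp [hact]
  · rintro w ⟨i, b⟩ hv
    change ∀ p : Fin (κ + 1) × B, _ → stepEquiv κ e w p = 0 at hv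
    change stepEquiv κ e (zD Z' j κ w) (i, b) = yD Y' j (stepEquiv κ e w (i, b))
    rw [stepEquiv_apply, stepEquiv_apply, yD_apply, zD_apply, yD_apply]
    simp only [Prod.fst_add, Prod.snd_add, map_add, Pi.add_apply, hact, add_zero]
    have h0 : e (prevC w i).2 b = 0 := by
      unfold prevC
      split_ifs with h
      · simp
      · have hi : i.val ≠ 0 := fun h' => h (Fin.ext h')
        have := hv (⟨i.val - 1, by omega⟩, b) (by simp only; omega)
        rw [stepEquiv_apply] at this
        exact congrArg Prod.snd this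
    have h1 : e (Z'.D (w i).1) b = Y'.D (e (w i).1 b) := by
      refine hD _ _ fun b' hb' => ?_
      have := hv (i, b') (by simp only; omega)
      rw [stepEquiv_apply] at this
      exact congrArg Prod.fst this
    have h2 : e (Z'.D (w i).2) b = Y'.D (e (w i).2 b) := by
      refine hD _ _ fun b' hb' => ?_
      have := hv (i, b') (by simp only; omega)
      rw [stepEquiv_apply] at this
      exact congrArg Prod.snd this
    rw [h0, h1, h2, add_zero]

/-- Iterated adjunction of `η_0, …, η_{l-1}`. -/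
def Yt (X : DMod.{u} T A) : ℕ → DMod.{u} T A
  | 0 => X
  | l + 1 => Y (Yt X l) l

lemma Ret.null {X Z : DMod.{u} T A} (h : Ret X Z) {r : ℕ} {T0 : ℤ}
    (hZ : Null Z r T0) : Null X r T0 := by
  obtain ⟨i, ρ, h1, h2, h3, h4, h5⟩ := h
  intro k t x ht hx hd
  obtain ⟨u, hu, hu2⟩ := hZ k t (i x) ht (h4 _ _ _ hx) (by rw [h1, hd, map_zero])
  exact ⟨ρ u, h5 _ _ _ hu, by rw [h2, hu2, h3]⟩

/-- The step lemma. -/
theorem step (X : DMod.{u} T A) (l κ r : ℕ) (T0 : ℤ)
    (hΘ : ∀ j, ∃ Θ : T, A.d Θ = A.c j ^ (κ + 1) ∧ Θ ∈ A.G ((κ + 1 : ℕ) * A.W j))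
    (hY : Null (Yt X l) r T0) : Null X (r * (l * κ + 1)) T0 := by
  have key : ∀ l, ∃ Z', Ret X Z' ∧ Rel (l * κ + 1) Z' (Yt X l) := by
    intro l
    induction l with
    | zero =>
      refine ⟨X, Ret.refl X, ?_⟩
      rw [zero_mul, zero_add]
      exact Rel.refl X
    | succ l ih =>
      obtain ⟨Z', h1, h2⟩ := ih
      obtain ⟨Θ, a1, a2⟩ := hΘ l
      refine ⟨Z Z' l κ, h1.trans (ret_Z Z' l κ Θ a1 a2), ?_⟩
      have h3 := h2.step l κ
      have e : l * κ + 1 + κ = (l + 1) * κ + 1 := by ring
      rw [e] at h3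
      exact h3
  obtain ⟨Z', h1, h2⟩ := key l
  exact h1.null (h2.null hY)

end Pool.Agent.Work.MP_701abf_gt
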