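import Pool.Agent.Work.MP_701abf_gt.Low

/-!
Below the line, a cocycle is cohomologous to one with many slots in few coordinates.
-/

namespace Pool.Agent.Work.MP_701abf_gt

variable {S : Type*} [CommRing S] [Algebra (ZMod 2) S]

/-- Concatenation of the first `m` points of `z`, the point `b`, and `y`. -/
def cat {P : Type*} (m : ℕ) (z : ℕ → P) (b : P) (y : ℕ → P) : ℕ → P :=
  fun r => if r < m then z r else if r = m then b else y (r - m - 1)

lemma cat_lt {P : Type*} {m r : ℕ} (h : r < m) (z : ℕ → P) (b : P) (y : ℕ → P) :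
    cat m z b y r = z r := if_pos h

lemma cat_eq {P : Type*} (m : ℕ) (z : ℕ → P) (b : P) (y : ℕ → P) :
    cat m z b y m = b := by simp [cat]

lemma cat_gt {P : Type*} {m r : ℕ} (h : m < r) (z : ℕ → P) (b : P) (y : ℕ → P) :
    cat m z b y r = y (r - m - 1) := by
  unfold cat
  rw [if_neg (by omega), if_neg (by omega)]

lemma cat_sk {P : Type*} {m j : ℕ} (h : j ≤ m) (z : ℕ → P) (b : P) (y : ℕ → P) :
    sk j (cat (m + 1) z b y) = cat m (sk j z) b y := by
  funext r
  unfold sk
  by_cases h1 : r < j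
  · rw [skp_lt h1, cat_lt (by omega), cat_lt (by omega), skp_lt h1]
  · rw [skp_ge (show j ≤ r by omega)]
    by_cases h2 : r < m
    · rw [cat_lt (by omega), cat_lt (by omega), skp_ge (by omega)]
    · by_cases h3 : r = m
      · subst h3
        rw [cat_eq, cat_eq]
      · rw [cat_gt (by omega), cat_gt (by omega)]
        congr 1
        omega

/-- Parameters: the first `k` points in few coordinates. -/
def GY (S : Type*) [CommRing S] (n k : ℕ) : Set (((ℕ → Pt S) → S) × ℤ) :=
  {p | ∃ r a : ℕ, r < k ∧ a < n ∧ p = ((fun y => (y r).co a), (2 : ℤ) ^ a - 1)}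

omit [Algebra (ZMod 2) S] in
lemma GY_nonneg (n k : ℕ) : ∀ g w, (g, w) ∈ GY S n k → 0 ≤ w := by
  rintro g w ⟨r, a, _, _, h⟩
  obtain ⟨rfl, rfl⟩ := Prod.mk.inj h
  exact two_pow_sub_one_nonneg a

variable {n k j m : ℕ}

lemma gd_par {r : ℕ} (h : r < k) :
    Gd (GQ (GY S n k) j m) 0 (Set.Iio n) (fun x => x.2 r) := by
  intro a ha
  have h1 : (fun x : (ℕ → Pt S) × (ℕ → Pt S) => (x.2 r).co a) ∈
      fil (GQ (GY S n k) j m) (2 ^ a - 1) :=
    GQ_par (g := fun y : ℕ → Pt S => (y r).co a) ⟨r, a, h, ha, rfl⟩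
  simpa using h1

lemma Gd.zero_idx {X : Type*} {G : Set ((X → S) × ℤ)} {c : ℕ} (Z : X → Pt S) :
    Gd G c (Set.Iic 0) Z := by
  intro m hm
  have : m = 0 := Nat.le_zero.1 hm
  subst this
  simp only [Pt.co_zero, one_pow, pow_zero, sub_self, mul_zero]
  exact fil_one G

/-- Consecutive products of slots. -/
lemma inv_mul_slots {P : Type*} [Group P] (z : ℕ → P) (a r : ℕ) :
    (z a)⁻¹ * z (a + (r + 1)) = ((z a)⁻¹ * z (a + r)) * slot (a + r) z := by
  unfold slot
  rw [← add_assoc]
  group

lemma gd_diff {X : Type*} {G : Set ((X → S) × ℤ)} {c : ℕ} {M : Set ℕ} (hM : IsLowerSet M)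
    (Z : X → ℕ → Pt S) (a b : ℕ) (h : ∀ r, a ≤ r → r < b → Gd G c M (fun x => slot r (Z x)))
    (r : ℕ) (hr : a + r ≤ b) : Gd G c M (fun x => (Z x a)⁻¹ * Z x (a + r)) := by
  induction r with
  | zero =>
    simp only [add_zero, inv_mul_cancel]
    exact Gd.one
  | succ r ih =>
    simp only [inv_mul_slots]
    exact Gd.mul hM (ih (by omega)) (h _ (by omega) (by omega))

/-- The step increasing the depth by one. -/
theorem depth_step [IsDomain S] [Infinite S] (n' m' k : ℕ) {t : ℤ} {p : (ℕ → Pt S) → S}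
    (hp : p ∈ fil (GS 0 (n' + 1) 1 k (m' + 1 + k)) t)
    (ht : t < (2 ^ (n' + 1) - 1) * (m' + 1))
    (hd : ∀ z, dd (m' + 1 + k) p z = 0) :
    ∃ w ∈ fil (GS (S := S) 0 (n' + 1) 1 k (m' + k)) t,
      (fun z => p z + dd (m' + k) w z) ∈
        fil (GS (S := S) 0 (n' + 1) 1 (k + 1) (m' + 1 + k)) t := by
  set n := n' + 1 with hn
  obtain ⟨J, hJn, hJ⟩ : ∃ J : ℕ, n ≤ J ∧ t < 2 ^ J - 1 := by
    refine ⟨n + (t.toNat + 1), by omega, ?_⟩
    have h1 : t.toNat + 1 < 2 ^ (t.toNat + 1) := Nat.lt_two_pow_self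
    have h2 : (2 : ℤ) ^ (t.toNat + 1) ≤ 2 ^ (n + (t.toNat + 1)) :=
      pow_le_pow_right₀ (by norm_num) (by omega)
    have h3 : ((t.toNat + 1 : ℕ) : ℤ) < 2 ^ (t.toNat + 1) := by exact_mod_cast h1
    have h4 := Int.self_le_toNat t
    push_cast at h3
    linarith
  -- left invariance of `p`
  have hinv : ∀ (h : Pt S) (z : ℕ → Pt S), p (lt h z) = p z := by
    intro h z
    refine fil_pc_congr (lt h) (fun z => z) ?_ hp z
    intro g w hg x
    have : Gn 0 n 1 k (m' + 1 + k) g w := hg
    cases this with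
    | coef m hm =>
      have : m = 0 := by omega
      subst this
      simp
    | free r m h => simp only [slot_lt]
    | fro r m h hm => simp only [slot_lt]
  -- `p` only depends on the first points
  have htr : ∀ z, p (tr (m' + 1 + k) z) = p z := fil_tr hp
  -- the function with parameters
  set φ : (ℕ → Pt S) × (ℕ → Pt S) → S := fun x => p (cat (m' + 1) x.1 1 x.2) with hφ
  have hφJ : φ ∈ fil (GQ (GY S n k) J m') t := by
    refine fil_pc_le (fun x : (ℕ → Pt S) × (ℕ → Pt S) => cat (m' + 1) x.1 1 x.2) GS_nonneg ?_ hp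
    have hsl : ∀ r, r + 1 + k ≤ m' + 1 + k →
        Gd (GQ (GY S n k) J m') 0 (Set.Iio J)
          (fun x : (ℕ → Pt S) × (ℕ → Pt S) => slot r (cat (m' + 1) x.1 1 x.2)) := by
      intro r h
      by_cases hr : r + 1 ≤ m'
      · have e : ∀ x : (ℕ → Pt S) × (ℕ → Pt S),
            slot r (cat (m' + 1) x.1 1 x.2) = slot r x.1 := by
          intro x
          unfold slot
          rw [cat_lt (by omega), cat_lt (by omega)]
        simp only [e]
        exact (gq_free hr).mono_set (Set.subset_univ _)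
      · have hrm : r = m' := by omega
        subst hrm
        have e : ∀ x : (ℕ → Pt S) × (ℕ → Pt S),
            slot r (cat (r + 1) x.1 1 x.2) = (x.1 r)⁻¹ := by
          intro x
          unfold slot
          rw [cat_lt (by omega), cat_eq, mul_one]
        simp only [e]
        exact gq_last
    intro g w hg hw
    have : Gn 0 n 1 k (m' + 1 + k) g w := hg
    cases this with
    | coef m hm =>
      have : m = 0 := by omega
      subst this
      simp only [Pt.co_zero, one_pow, pow_zero, sub_self, mul_zero]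
      exact fil_one _
    | free r a h =>
      refine (hsl r h).co0 (show a < J from ?_)
      by_contra hcon
      have h1 : (2 : ℤ) ^ J ≤ 2 ^ a := pow_le_pow_right₀ (by norm_num) (by omega)
      omega
    | fro r a h hm =>
      by_cases hr : r + 1 + k ≤ m' + 1 + k
      · exact (hsl r hr) a (show a < J by omega)
      · have hpt : ∀ r, m' + 1 ≤ r → r ≤ m' + 1 + k → Gd (GQ (GY S n k) J m') 0 (Set.Iio n)
            (fun x : (ℕ → Pt S) × (ℕ → Pt S) => cat (m' + 1) x.1 1 x.2 r) := by
          intro r h1 h2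
          by_cases h3 : r = m' + 1
          · subst h3
            simp only [cat_eq]
            exact Gd.one
          · have e : ∀ x : (ℕ → Pt S) × (ℕ → Pt S),
                cat (m' + 1) x.1 1 x.2 r = x.2 (r - (m' + 1) - 1) := by
              intro x
              rw [cat_gt (by omega)]
            simp only [e]
            exact gd_par (by omega)
        exact (Gd.mul (isLowerSet_Iio n) (Gd.inv (isLowerSet_Iio n) (hpt r (by omega) (by omega)))
          (hpt (r + 1) (by omega) (by omega))) a hm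
  -- its coboundary only involves few coordinates of the last point
  have hdφ : dq m' φ ∈ fil (GQ (GY S n k) n (m' + 1)) t := by
    have e : dq m' φ = ∑ j ∈ Finset.range (k + 1), fun x : (ℕ → Pt S) × (ℕ → Pt S) =>
        p (sk (m' + 2 + j) (cat (m' + 2) x.1 1 x.2)) := by
      funext x
      have h1 : dd (m' + 1 + k) p (cat (m' + 2) x.1 1 x.2) = 0 := hd _
      unfold dd at h1
      rw [show m' + 1 + k + 2 = (m' + 2) + (k + 1) by ring, Finset.sum_range_add] at h1
      rw [Finset.sum_apply, dq, dd]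
      have h2 : ∑ j ∈ Finset.range (m' + 2), p (sk j (cat (m' + 2) x.1 1 x.2)) =
          ∑ j ∈ Finset.range (m' + 2), φ (sk j x.1, x.2) := by
        refine Finset.sum_congr rfl fun j hj => ?_
        rw [hφ, cat_sk (by have := Finset.mem_range.1 hj; omega)]
      rw [h2] at h1
      exact add_eq_zero'.1 h1
    rw [e]
    refine Submodule.sum_mem _ fun j hj => ?_
    have hj' := Finset.mem_range.1 hj
    have hpt : ∀ r, m' + 1 ≤ r → r ≤ m' + 2 + k → Gd (GQ (GY S n k) n (m' + 1)) 0 (Set.Iio n)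
        (fun x : (ℕ → Pt S) × (ℕ → Pt S) => cat (m' + 2) x.1 1 x.2 r) := by
      intro r h1 h2
      by_cases h3 : r = m' + 1
      · subst h3
        have e : ∀ x : (ℕ → Pt S) × (ℕ → Pt S), cat (m' + 2) x.1 1 x.2 (m' + 1)
            = ((x.1 (m' + 1))⁻¹)⁻¹ := by
          intro x
          rw [cat_lt (by omega), inv_inv]
        simp only [e]
        exact Gd.inv (isLowerSet_Iio n) gq_last
      · by_cases h4 : r = m' + 2
        · subst h4
          simp only [cat_eq]
          exact Gd.one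
        · have e : ∀ x : (ℕ → Pt S) × (ℕ → Pt S),
              cat (m' + 2) x.1 1 x.2 r = x.2 (r - (m' + 2) - 1) := by
            intro x
            rw [cat_gt (by omega)]
          simp only [e]
          exact gd_par (by omega)
    have hsl : ∀ r, r + 1 ≤ m' + 1 →
        Gd (GQ (GY S n k) n (m' + 1)) 0 Set.univ (fun x : (ℕ → Pt S) × (ℕ → Pt S) =>
          slot r (sk (m' + 2 + j) (cat (m' + 2) x.1 1 x.2))) := by
      intro r hr
      have e : ∀ x : (ℕ → Pt S) × (ℕ → Pt S),
          slot r (sk (m' + 2 + j) (cat (m' + 2) x.1 1 x.2)) = slot r x.1 := by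
        intro x
        rw [slot_sk_lt (by omega)]
        unfold slot
        rw [cat_lt (by omega), cat_lt (by omega)]
      simp only [e]
      exact gq_free (by omega)
    refine GS_subst (fun x : (ℕ → Pt S) × (ℕ → Pt S) =>
      sk (m' + 2 + j) (cat (m' + 2) x.1 1 x.2)) ?_ ?_ ?_ hp
    · intro m hm
      have : m = 0 := by omega
      subst this
      exact Gd.zero_idx _
    · intro r hr
      exact hsl r (by omega)
    · intro r hr
      by_cases hr2 : r + 1 ≤ m' + 1
      · exact (hsl r hr2).mono_set (Set.subset_univ _)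
      · have h1 : skp (m' + 2 + j) r ≤ r + 1 := by unfold skp; split_ifs <;> omega
        have h2 : skp (m' + 2 + j) (r + 1) ≤ r + 2 := by unfold skp; split_ifs <;> omega
        have h3 : r ≤ skp (m' + 2 + j) r := by unfold skp; split_ifs <;> omega
        have h4 : r + 1 ≤ skp (m' + 2 + j) (r + 1) := by unfold skp; split_ifs <;> omega
        exact Gd.mul (isLowerSet_Iio n)
          (Gd.inv (isLowerSet_Iio n) (hpt (skp (m' + 2 + j) r) (by omega) (by omega)))
          (hpt (skp (m' + 2 + j) (r + 1)) (by omega) (by omega))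
  -- the vanishing result
  obtain ⟨θ, hθ, hθ2⟩ := RR_all (GY_nonneg (S := S) n k) t n' m' t (dq m' φ) le_rfl ht hdφ
    (fun x => dq_dq m' φ x)
  have hθJ : θ ∈ fil (GQ (GY S n k) J m') t := by
    refine fil_mono ?_ hθ
    intro g w hg
    have : Gq (GY S n k) n m' g w := hg
    cases this with
    | free r a h => exact fil_gen (Gq.free r a h)
    | last a h => exact fil_gen (Gq.last a (by omega))
    | par g w h => exact fil_gen (Gq.par g w h)
  have hχ : (fun x => φ x + θ x) ∈ fil (GQ (GY S n k) J m') t := Submodule.add_mem _ hφJ hθJ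
  have hχd : ∀ x, dq m' (fun x => φ x + θ x) x = 0 := by
    intro x
    rw [dq_add, hθ2, add_self']
  -- the splitting of a sequence
  have hσφ : ∀ z : ℕ → Pt S,
      φ (lt (z (m' + 1))⁻¹ z, fun r => (z (m' + 1))⁻¹ * z (m' + 2 + r)) = p z := by
    intro z
    rw [← hinv (z (m' + 1))⁻¹ z]
    change p (cat (m' + 1) (lt (z (m' + 1))⁻¹ z) 1 fun r => (z (m' + 1))⁻¹ * z (m' + 2 + r)) =
      p (lt (z (m' + 1))⁻¹ z)
    congr 1
    funext r
    rcases lt_trichotomy r (m' + 1) with h | h | h
    · rw [cat_lt h]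
    · subst h
      rw [cat_eq]
      simp [lt]
    · rw [cat_gt h]
      unfold lt
      congr 2
      omega
  have hθσ : (fun z : ℕ → Pt S =>
      θ (lt (z (m' + 1))⁻¹ z, fun r => (z (m' + 1))⁻¹ * z (m' + 2 + r))) ∈
      fil (GS (S := S) 0 n 1 (k + 1) (m' + 1 + k)) t := by
    refine GQ_subst (fun z : ℕ → Pt S =>
      (lt (z (m' + 1))⁻¹ z, fun r => (z (m' + 1))⁻¹ * z (m' + 2 + r))) ?_ ?_ ?_ hθ
    · intro r hr
      simp only [slot_lt]
      exact gd_free (by omega)
    · have e : ∀ z : ℕ → Pt S, (lt (z (m' + 1))⁻¹ z m')⁻¹ = slot m' z := by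
        intro z
        simp [lt, slot]
      simp only [e]
      exact gd_fro (by omega)
    · rintro g w ⟨r, a, hr, ha, h⟩
      obtain ⟨rfl, rfl⟩ := Prod.mk.inj h
      have h1 := gd_diff (G := GS (S := S) 0 n 1 (k + 1) (m' + 1 + k)) (c := 0)
        (isLowerSet_Iio n) (fun z : ℕ → Pt S => z) (m' + 1) (m' + 1 + k)
        (fun r _ hr => gd_fro (by omega)) (r + 1) (by omega)
      have h2 := h1.co0 ha
      have e : ∀ z : ℕ → Pt S, z (m' + 1 + (r + 1)) = z (m' + 2 + r) := by
        intro z; congr 1; omega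
      simp only [e] at h2
      exact h2
  rcases Nat.eq_zero_or_pos m' with hm | hm
  · -- degree zero in the first variable
    subst hm
    refine ⟨0, Submodule.zero_mem _, ?_⟩
    have h1 : ∀ x : (ℕ → Pt S) × (ℕ → Pt S), φ x + θ x =
        φ (fun _ => 1, x.2) + θ (fun _ => 1, x.2) := by
      intro x
      have h2 := kap_id_zero (fun z => φ (z, x.2) + θ (z, x.2))
        (fun z => fil_trq hχ (z, x.2)) x.1
      have h3 : kap 0 (dd 0 (fun z => φ (z, x.2) + θ (z, x.2))) x.1 = 0 := hχd (tr 0 x.1, x.2)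
      rw [h3] at h2
      exact (add_eq_zero'.1 h2.symm).symm
    have h2 : (fun z => p z + dd (0 + k) 0 z) = fun z : ℕ → Pt S =>
        θ (lt (z (0 + 1))⁻¹ z, fun r => (z (0 + 1))⁻¹ * z (0 + 2 + r)) +
        (φ (fun _ => 1, fun r => (z (0 + 1))⁻¹ * z (0 + 2 + r)) +
          θ (fun _ => 1, fun r => (z (0 + 1))⁻¹ * z (0 + 2 + r))) := by
      funext z
      have h3 := h1 (lt (z (0 + 1))⁻¹ z, fun r => (z (0 + 1))⁻¹ * z (0 + 2 + r))
      rw [← h3, hσφ z]
      have h4 : dd (0 + k) (0 : (ℕ → Pt S) → S) z = 0 := by simp [dd]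
      rw [h4]
      have h5 := add_self' (θ (lt (z (0 + 1))⁻¹ z, fun r => (z (0 + 1))⁻¹ * z (0 + 2 + r)))
      linear_combination -h5
    rw [h2]
    refine Submodule.add_mem _ hθσ ?_
    refine GQ_subst (fun z : ℕ → Pt S =>
      ((fun _ => 1), fun r => (z (0 + 1))⁻¹ * z (0 + 2 + r))) ?_ ?_ ?_ hχ
    · intro r hr
      omega
    · simp only [inv_one]
      exact Gd.one
    · rintro g w ⟨r, a, hr, ha, h⟩
      obtain ⟨rfl, rfl⟩ := Prod.mk.inj h
      have h1 := gd_diff (G := GS (S := S) 0 n 1 (k + 1) (0 + 1 + k)) (c := 0)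
        (isLowerSet_Iio n) (fun z : ℕ → Pt S => z) (0 + 1) (0 + 1 + k)
        (fun r _ hr => gd_fro (by omega)) (r + 1) (by omega)
      have h2 := h1.co0 ha
      have e : ∀ z : ℕ → Pt S, z (0 + 1 + (r + 1)) = z (0 + 2 + r) := by
        intro z; congr 1; omega
      simp only [e] at h2
      exact h2
  · -- positive degree
    obtain ⟨q, rfl⟩ : ∃ q, m' = q + 1 := ⟨m' - 1, by omega⟩
    set w : (ℕ → Pt S) → S := fun z =>
      φ (tr q (lt (z (q + 1))⁻¹ z), fun r => (z (q + 1))⁻¹ * z (q + 2 + r)) +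
      θ (tr q (lt (z (q + 1))⁻¹ z), fun r => (z (q + 1))⁻¹ * z (q + 2 + r)) with hw
    have hslot : ∀ (z y : ℕ → Pt S) (b : Pt S) (r : ℕ), r + 1 ≤ q + 1 → (∀ i ≤ q, y i = z i) →
        b = z (q + 1) → slot r (tr q (lt b⁻¹ y)) = slot r z := by
      intro z y b r hr hy hb
      unfold slot tr lt
      by_cases h : r + 1 ≤ q
      · rw [if_pos (by omega), if_pos h, hy r (by omega), hy (r + 1) h]
        group
      · have : r = q := by omega
        subst this
        rw [if_pos le_rfl, if_neg (by omega), hy r le_rfl, hb]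
        group
    refine ⟨w, ?_, ?_⟩
    · refine GQ_subst (fun z : ℕ → Pt S =>
        (tr q (lt (z (q + 1))⁻¹ z), fun r => (z (q + 1))⁻¹ * z (q + 2 + r))) ?_ ?_ ?_ hχ
      · intro r hr
        have e : ∀ z : ℕ → Pt S, slot r (tr q (lt (z (q + 1))⁻¹ z)) = slot r z := by
          intro z
          exact hslot z z (z (q + 1)) r hr (fun _ _ => rfl) rfl
        simp only [e]
        exact gd_free (by omega)
      · have e : ∀ z : ℕ → Pt S, (tr q (lt (z (q + 1))⁻¹ z) (q + 1))⁻¹ = 1 := by
          intro z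
          unfold tr
          rw [if_neg (by omega), inv_one]
        simp only [e]
        exact Gd.one
      · rintro g w ⟨r, a, hr, ha, h⟩
        obtain ⟨rfl, rfl⟩ := Prod.mk.inj h
        have h1 := gd_diff (G := GS (S := S) 0 n 1 k (q + 1 + k)) (c := 0)
          (isLowerSet_Iio n) (fun z : ℕ → Pt S => z) (q + 1) (q + 1 + k)
          (fun r _ hr => gd_fro (by omega)) (r + 1) (by omega)
        have h2 := h1.co0 ha
        have e : ∀ z : ℕ → Pt S, z (q + 1 + (r + 1)) = z (q + 2 + r) := by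
          intro z; congr 1; omega
        simp only [e] at h2
        exact h2
    · have hsum : (fun z => p z + dd (q + 1 + k) w z) = (fun z : ℕ → Pt S =>
          θ (lt (z (q + 1 + 1))⁻¹ z, fun r => (z (q + 1 + 1))⁻¹ * z (q + 1 + 2 + r))) +
          ∑ j ∈ Finset.range (k + 1), fun z : ℕ → Pt S => w (sk (q + 2 + j) z) := by
        funext z
        rw [Pi.add_apply, Finset.sum_apply]
        have h1 : dd (q + 1 + k) w z = ∑ j ∈ Finset.range (q + 2), w (sk j z) +
            ∑ j ∈ Finset.range (k + 1), w (sk (q + 2 + j) z) := by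
          unfold dd
          rw [show q + 1 + k + 2 = (q + 2) + (k + 1) by ring, Finset.sum_range_add]
        have h2 : ∑ j ∈ Finset.range (q + 2), w (sk j z) =
            dd q (kap q (fun y => φ (y, fun r => (z (q + 1 + 1))⁻¹ * z (q + 1 + 2 + r)) +
              θ (y, fun r => (z (q + 1 + 1))⁻¹ * z (q + 1 + 2 + r))))
              (lt (z (q + 1 + 1))⁻¹ z) := by
          unfold dd kap
          refine Finset.sum_congr rfl fun j hj => ?_
          have hj' := Finset.mem_range.1 hj
          have e1 : sk j z (q + 1) = z (q + 1 + 1) := by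
            unfold sk; rw [skp_ge (by omega)]
          have e2 : ∀ r, sk j z (q + 2 + r) = z (q + 1 + 2 + r) := by
            intro r
            unfold sk; rw [skp_ge (by omega)]
            congr 1; omega
          simp only [hw, e1, e2]
          rfl
        have h3 := kap_id q (fun y => φ (y, fun r => (z (q + 1 + 1))⁻¹ * z (q + 1 + 2 + r)) +
              θ (y, fun r => (z (q + 1 + 1))⁻¹ * z (q + 1 + 2 + r)))
              (fun y => fil_trq hχ (y, _)) (lt (z (q + 1 + 1))⁻¹ z)
        have h4 : kap (q + 1) (dd (q + 1) (fun y => φ (y, fun r => (z (q + 1 + 1))⁻¹ *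
            z (q + 1 + 2 + r)) + θ (y, fun r => (z (q + 1 + 1))⁻¹ * z (q + 1 + 2 + r))))
            (lt (z (q + 1 + 1))⁻¹ z) = 0 :=
          hχd (tr (q + 1) (lt (z (q + 1 + 1))⁻¹ z), _)
        rw [h4, add_zero] at h3
        rw [h1, h2, h3]
        have h5 := hσφ z
        rw [h5]
        have h6 := add_self' (p z)
        linear_combination h6
      rw [hsum]
      refine Submodule.add_mem _ hθσ (Submodule.sum_mem _ fun j hj => ?_)
      have hj' := Finset.mem_range.1 hj
      have e1 : ∀ z : ℕ → Pt S, sk (q + 2 + j) z (q + 1) = z (q + 1) := by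
        intro z
        unfold sk; rw [skp_lt (by omega)]
      refine GQ_subst (fun z : ℕ → Pt S =>
        (tr q (lt (sk (q + 2 + j) z (q + 1))⁻¹ (sk (q + 2 + j) z)),
          fun r => (sk (q + 2 + j) z (q + 1))⁻¹ * sk (q + 2 + j) z (q + 2 + r))) ?_ ?_ ?_ hχ
      · intro r hr
        have e : ∀ z : ℕ → Pt S, slot r (tr q (lt (sk (q + 2 + j) z (q + 1))⁻¹
            (sk (q + 2 + j) z))) = slot r z := by
          intro z
          refine hslot z _ _ r hr (fun i hi => ?_) (e1 z)
          unfold sk; rw [skp_lt (by omega)]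
        simp only [e]
        exact gd_free (by omega)
      · have e : ∀ z : ℕ → Pt S, (tr q (lt (sk (q + 2 + j) z (q + 1))⁻¹
            (sk (q + 2 + j) z)) (q + 1))⁻¹ = 1 := by
          intro z
          unfold tr
          rw [if_neg (by omega), inv_one]
        simp only [e]
        exact Gd.one
      · rintro g w ⟨r, a, hr, ha, h⟩
        obtain ⟨rfl, rfl⟩ := Prod.mk.inj h
        have e2 : ∀ z : ℕ → Pt S, sk (q + 2 + j) z (q + 2 + r) =
            z (q + 1 + (skp (q + 2 + j) (q + 2 + r) - (q + 1))) := by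
          intro z
          unfold sk
          congr 1
          have : q + 2 + r ≤ skp (q + 2 + j) (q + 2 + r) := by unfold skp; split_ifs <;> omega
          omega
        have h5 : skp (q + 2 + j) (q + 2 + r) ≤ q + 2 + r + 1 := by
          unfold skp; split_ifs <;> omega
        have h1 := gd_diff (G := GS (S := S) 0 n 1 (k + 1) (q + 1 + 1 + k)) (c := 0)
          (isLowerSet_Iio n) (fun z : ℕ → Pt S => z) (q + 1) (q + 1 + 1 + k)
          (fun r _ hr => gd_fro (by omega)) (skp (q + 2 + j) (q + 2 + r) - (q + 1)) (by omega)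
        have h2 := h1.co0 ha
        simp only [e1, e2]
        exact h2

lemma fil_GS_zero {N n i k s : ℕ} {t : ℤ} {f : (ℕ → Pt S) → S}
    (hf : f ∈ fil (GS N n i k s) t) : f ∈ fil (GS (S := S) N n i 0 s) t := by
  refine fil_mono ?_ hf
  intro g w hg
  have : Gn N n i k s g w := hg
  cases this with
  | coef m hm => exact fil_gen (Gn.coef m hm)
  | free r m h => exact fil_gen (Gn.free r m (by omega))
  | fro r m h hm => exact fil_gen (Gn.fro r m h hm)

/-- Reaching a given depth. -/
theorem depth_iter [IsDomain S] [Infinite S] (n' s' k0 : ℕ) {t : ℤ} {p : (ℕ → Pt S) → S}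
    (hp : p ∈ fil (GS 0 (n' + 1) 1 0 (s' + 1)) t)
    (hd : ∀ z, dd (s' + 1) p z = 0) (hk : k0 ≤ s' + 1)
    (ht : ∀ k < k0, t < (2 ^ (n' + 1) - 1) * ((s' : ℤ) + 1 - k)) :
    ∃ W ∈ fil (GS (S := S) 0 (n' + 1) 1 0 s') t,
      (fun z => p z + dd s' W z) ∈ fil (GS (S := S) 0 (n' + 1) 1 k0 (s' + 1)) t := by
  induction k0 with
  | zero =>
    refine ⟨0, Submodule.zero_mem _, ?_⟩
    have : (fun z => p z + dd s' 0 z) = p := by
      funext z
      simp [dd]
    rw [this]
    exact hp
  | succ k ih =>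
    obtain ⟨W, hW, hW2⟩ := ih (by omega) (fun k' hk' => ht k' (by omega))
    obtain ⟨m', rfl⟩ : ∃ m', s' = m' + k := ⟨s' - k, by omega⟩
    have e : m' + k + 1 = m' + 1 + k := by ring
    rw [e] at hW2 ⊢
    have hd2 : ∀ z, dd (m' + 1 + k) (fun z => p z + dd (m' + k) W z) z = 0 := by
      intro z
      rw [dd_add, ← e, hd, zero_add]
      exact dd_dd (m' + k) W z
    have ht2 : t < (2 ^ (n' + 1) - 1) * ((m' : ℤ) + 1) := by
      have := ht k (by omega)
      have e2 : ((m' + k : ℕ) : ℤ) + 1 - k = (m' : ℤ) + 1 := by push_cast; ring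
      rw [e2] at this
      exact this
    obtain ⟨w, hw, hw2⟩ := depth_step n' m' k hW2 ht2 hd2
    refine ⟨W + w, Submodule.add_mem _ hW (fil_GS_zero hw), ?_⟩
    have e3 : (fun z => p z + dd (m' + k) (W + w) z) =
        fun z => p z + dd (m' + k) W z + dd (m' + k) w z := by
      funext z
      rw [add_assoc, ← dd_add]
      rfl
    rw [e3]
    exact hw2

end Pool.Agent.Work.MP_701abf_gt
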