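import Pool.Agent.Work.MP_701abf_gt.Bial
import Pool.Agent.Work.MP_701abf_gt.Depth

/-!
The action of the tensor algebra on cochains.
-/

namespace Pool.Agent.Work.MP_701abf_gt

open TensorProduct

noncomputable section

variable {S : Type*} [CommRing S] [Algebra (ZMod 2) S]

/-! ### Points with vanishing low coordinates -/

namespace Pt

/-- Coordinates `0 < m < i` vanish. -/
def LG (i : ℕ) (a : Pt S) : Prop := ∀ m, 0 < m → m < i → a.co m = 0

omit [Algebra (ZMod 2) S] in
lemma co_mul_LG {i : ℕ} {a b : Pt S} (ha : LG i a) {m : ℕ} (h0 : 0 < m) (h : m ≤ i) :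
    (a * b).co m = b.co m + a.co m := by
  rw [co_mul_left, Finset.sum_eq_single (m - 1)]
  · rw [show m - 1 + 1 = m by omega, Nat.sub_self, pow_zero, pow_one, co_zero, mul_one]
  · intro k hk hne
    have := Finset.mem_range.1 hk
    rw [ha (k + 1) (by omega) (by omega), zero_pow (pow_ne_zero _ two_ne_zero), zero_mul]
  · intro hk
    exact absurd (Finset.mem_range.2 (by omega)) hk

lemma LG_of_mul {i : ℕ} {a b c : Pt S} (h : a * b = c)
    (hbc : ∀ m, 0 < m → m < i → b.co m = c.co m) : LG i a := by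
  intro m
  induction m using Nat.strong_induction_on with
  | _ m ih =>
    intro h0 hm
    have h1 : LG m a := fun m' h0' hm' => ih m' hm' h0' (by omega)
    have h2 := co_mul_LG (b := b) h1 h0 le_rfl
    rw [h, ← hbc m h0 hm] at h2
    have := add_self' (b.co m)
    linear_combination -h2

lemma LG_inv {i : ℕ} {a : Pt S} (ha : LG i a) : LG i a⁻¹ := by
  refine LG_of_mul (inv_mul_cancel a) fun m h0 hm => ?_
  rw [ha m h0 hm, co_one_ne (by omega)]

omit [Algebra (ZMod 2) S] in
lemma LG_mul {i : ℕ} {a b : Pt S} (ha : LG i a) (hb : LG i b) : LG i (a * b) := by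
  intro m h0 hm
  rw [co_mul_LG ha h0 (by omega), ha m h0 hm, hb m h0 hm, add_zero]

omit [Algebra (ZMod 2) S] in
lemma co_mul_LG_two {i : ℕ} (hi : 0 < i) {a b : Pt S} (ha : LG i a) (hb : LG i b) :
    (a * b).co (2 * i) = b.co (2 * i) + a.co (2 * i) + a.co i ^ 2 ^ i * b.co i := by
  rw [co_mul_left, Finset.sum_eq_add (i - 1) (2 * i - 1) (by omega)]
  · rw [show i - 1 + 1 = i by omega, show 2 * i - 1 + 1 = 2 * i by omega, Nat.sub_self, pow_zero,
      pow_one, co_zero, mul_one, show 2 * i - i = i by omega]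
    ring
  · rintro k hk ⟨h1, h2⟩
    have := Finset.mem_range.1 hk
    by_cases h3 : k + 1 < i
    · rw [ha (k + 1) (by omega) h3, zero_pow (pow_ne_zero _ two_ne_zero), zero_mul]
    · rw [hb (2 * i - (k + 1)) (by omega) (by omega), mul_zero]
  · intro hk
    exact absurd (Finset.mem_range.2 (by omega)) hk
  · intro hk
    exact absurd (Finset.mem_range.2 (by omega)) hk

/-- Truncation to the coordinates `< i`. -/
def trc (i : ℕ) (a : Pt S) : Pt S where
  co m := if m = 0 then 1 else if m < i then a.co m else 0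
  co_zero := rfl

/-- The defect of the truncation. -/
def uu (i : ℕ) (a : Pt S) : Pt S := trc i a * a⁻¹

lemma uu_mul (i : ℕ) (a : Pt S) : uu i a * a = trc i a := by
  unfold uu
  group

lemma uu_LG (i : ℕ) (a : Pt S) : LG i (uu i a) := by
  refine LG_of_mul (uu_mul i a) fun m h0 hm => ?_
  simp [trc, h0.ne', hm]

lemma uu_co {i : ℕ} (hi : 0 < i) (a : Pt S) : (uu i a).co i = a.co i := by
  have h := co_mul_LG (b := a) (uu_LG i a) hi le_rfl
  rw [uu_mul] at h
  have h2 : (trc i a).co i = 0 := by simp [trc, hi.ne']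
  rw [h2] at h
  exact (add_eq_zero'.1 h.symm).symm

/-- The difference point. -/
def hh (i : ℕ) (a b : Pt S) : Pt S := uu i a * (uu i b)⁻¹

lemma hh_LG (i : ℕ) (a b : Pt S) : LG i (hh i a b) := LG_mul (uu_LG i a) (LG_inv (uu_LG i b))

lemma hh_mul (i : ℕ) (a b c : Pt S) : hh i a b * hh i b c = hh i a c := by
  unfold hh
  group

lemma hh_co {i : ℕ} (hi : 0 < i) (a b : Pt S) : (hh i a b).co i = a.co i + b.co i := by
  have h := co_mul_LG (b := uu i b) (hh_LG i a b) hi le_rfl
  have h2 : hh i a b * uu i b = uu i a := by unfold hh; group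
  rw [h2, uu_co hi, uu_co hi] at h
  have := add_self' (b.co i)
  linear_combination -h - this

lemma hh_eq (i : ℕ) (a b : Pt S) : hh i a b = trc i a * (a⁻¹ * b) * (trc i b)⁻¹ := by
  unfold hh uu
  group

end Pt

/-! ### Values of letters -/

/-- The value of a letter on an edge. -/
def JJ (S : Type*) [CommRing S] [Algebra (ZMod 2) S] (i : ℕ) :
    BB i →ₐ[ZMod 2] ((ℕ → Pt S) → S) :=
  hB i (fun z => (Pt.hh (i + 1) (z 0) (z 1)).co (i + 1) ^ 2 ^ aa i)
    (fun z => (Pt.hh (i + 1) (z 0) (z 1)).co (2 * (i + 1)) ^ 2 ^ aa i)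

lemma JJ_a (i : ℕ) (z : ℕ → Pt S) : JJ S i (ga i) z =
    (Pt.hh (i + 1) (z 0) (z 1)).co (i + 1) ^ 2 ^ aa i := by
  unfold JJ
  rw [hB_a]

lemma JJ_b (i : ℕ) (z : ℕ → Pt S) : JJ S i (gb i) z =
    (Pt.hh (i + 1) (z 0) (z 1)).co (2 * (i + 1)) ^ 2 ^ aa i := by
  unfold JJ
  rw [hB_b]

/-- Precomposition as an algebra homomorphism. -/
def pcA {X X' : Type*} (σ : X' → X) : (X → S) →ₐ[ZMod 2] (X' → S) where
  toFun f := fun x => f (σ x)
  map_one' := rfl
  map_mul' _ _ := rfl
  map_zero' := rfl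
  map_add' _ _ := rfl
  commutes' _ := rfl

/-- The value only depends on the first two points. -/
lemma JJ_congr (i : ℕ) (f : BB i) {z z' : ℕ → Pt S} (h0 : z 0 = z' 0) (h1 : z 1 = z' 1) :
    JJ S i f z = JJ S i f z' := by
  have h : (pcA (X' := Unit) (fun _ => z)).comp (JJ S i) =
      (pcA (X' := Unit) (fun _ => z')).comp (JJ S i) := by
    refine hB_ext ?_ ?_
    · funext _
      change JJ S i (ga i) z = JJ S i (ga i) z'
      rw [JJ_a, JJ_a, h0, h1]
    · funext _
      change JJ S i (gb i) z = JJ S i (gb i) z'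
      rw [JJ_b, JJ_b, h0, h1]
  exact congrFun (congrArg (fun F => F f) h) ()

/-- The multiplicative extension to the tensor square. -/
def J2 (S : Type*) [CommRing S] [Algebra (ZMod 2) S] (i : ℕ) :
    BB i ⊗[ZMod 2] BB i →ₐ[ZMod 2] ((ℕ → Pt S) → S) :=
  Algebra.TensorProduct.lift (JJ S i) ((pcA (sk 0)).comp (JJ S i)) fun _ _ => mul_comm _ _

lemma J2_tmul (i : ℕ) (x y : BB i) (z : ℕ → Pt S) :
    J2 S i (x ⊗ₜ y) z = JJ S i x z * JJ S i y (sk 0 z) := by
  unfold J2
  rw [Algebra.TensorProduct.lift_tmul]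
  rfl

lemma sk_val {P : Type*} (z : ℕ → P) : sk 0 z 0 = z 1 ∧ sk 0 z 1 = z 2 ∧ sk 1 z 0 = z 0 ∧
    sk 1 z 1 = z 2 := ⟨rfl, rfl, rfl, rfl⟩

lemma J2_comul (i : ℕ) (f : BB i) (z : ℕ → Pt S) :
    J2 S i (Coalgebra.comul (R := ZMod 2) f) z = JJ S i f (sk 1 z) := by
  have h : (J2 S i).comp (Bialgebra.comulAlgHom (ZMod 2) (BB i)) =
      (pcA (sk 1)).comp (JJ S i) := by
    have hi : 0 < i + 1 := Nat.succ_pos i
    refine hB_ext ?_ ?_
    · funext z
      change J2 S i (Coalgebra.comul (R := ZMod 2) (ga i)) z = JJ S i (ga i) (sk 1 z)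
      rw [show Coalgebra.comul (R := ZMod 2) (ga i) = _ from prim_a i, map_add, Pi.add_apply,
        J2_tmul, J2_tmul, map_one, Pi.one_apply, Pi.one_apply, JJ_a, JJ_a, JJ_a]
      obtain ⟨e1, e2, e3, e4⟩ := sk_val z
      rw [e1, e2, e3, e4, Pt.hh_co hi, Pt.hh_co hi, Pt.hh_co hi, add_pow', add_pow', add_pow']
      have := add_self' ((z 1).co (i + 1) ^ 2 ^ aa i)
      linear_combination this
    · funext z
      change J2 S i (Coalgebra.comul (R := ZMod 2) (gb i)) z = JJ S i (gb i) (sk 1 z)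
      rw [comul_b, map_add, map_add, Pi.add_apply, Pi.add_apply, J2_tmul, J2_tmul, J2_tmul,
        map_one, Pi.one_apply, Pi.one_apply, map_pow, Pi.pow_apply, JJ_a, JJ_a, JJ_b, JJ_b, JJ_b]
      obtain ⟨e1, e2, e3, e4⟩ := sk_val z
      rw [e1, e2, e3, e4, ← Pt.hh_mul (i + 1) (z 0) (z 1) (z 2),
        Pt.co_mul_LG_two hi (Pt.hh_LG _ _ _) (Pt.hh_LG _ _ _), add_pow', add_pow',
        mul_pow]
      ring
  exact congrFun (congrArg (fun F => F f) h) z

/-! ### The action -/

/-- The action of a letter. -/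
def lam (S : Type*) [CommRing S] [Algebra (ZMod 2) S] (i : ℕ) :
    BB i →ₗ[ZMod 2] Module.End (ZMod 2) (Co S) where
  toFun f :=
    { toFun := fun φ s => match s with
        | 0 => 0
        | s + 1 => fun z => JJ S i f z * φ s (sk 0 z)
      map_add' := fun x y => by
        funext s z
        cases s with
        | zero => simp
        | succ s => simp [mul_add]
      map_smul' := fun r x => by
        funext s z
        cases s with
        | zero => simp
        | succ s => simp }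
  map_add' f g := by
    refine LinearMap.ext fun φ => ?_
    funext s z
    cases s with
    | zero => simp
    | succ s => simp [add_mul]
  map_smul' r f := by
    refine LinearMap.ext fun φ => ?_
    funext s z
    cases s with
    | zero => simp
    | succ s => simp

lemma lam_zero (i : ℕ) (f : BB i) (φ : Co S) : lam S i f φ 0 = 0 := rfl

lemma lam_succ (i : ℕ) (f : BB i) (φ : Co S) (s : ℕ) (z : ℕ → Pt S) :
    lam S i f φ (s + 1) z = JJ S i f z * φ s (sk 0 z) := rfl

/-- The action of the tensor algebra. -/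
def acT (S : Type*) [CommRing S] [Algebra (ZMod 2) S] (i : ℕ) :
    TT (BB i) →ₐ[ZMod 2] Module.End (ZMod 2) (Co S) :=
  TensorAlgebra.lift (ZMod 2) (lam S i)

lemma acT_io (i : ℕ) (f : BB i) : acT S i (io f) = lam S i f := by
  unfold acT
  exact TensorAlgebra.lift_ι_apply _ _

lemma acT_mul (i : ℕ) (x y : TT (BB i)) (φ : Co S) :
    acT S i (x * y) φ = acT S i x (acT S i y φ) := by
  rw [map_mul]
  rfl

lemma acT_add (i : ℕ) (x y : TT (BB i)) (φ : Co S) :
    acT S i (x + y) φ = acT S i x φ + acT S i y φ := by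
  rw [map_add]
  rfl

lemma acT_m2 (i : ℕ) (τ : BB i ⊗[ZMod 2] BB i) (φ : Co S) :
    acT S i (LinearMap.mul' (ZMod 2) (TT (BB i)) (TensorProduct.map io io τ)) φ 0 = 0 ∧
    acT S i (LinearMap.mul' (ZMod 2) (TT (BB i)) (TensorProduct.map io io τ)) φ 1 = 0 ∧
    ∀ s z, acT S i (LinearMap.mul' (ZMod 2) (TT (BB i)) (TensorProduct.map io io τ)) φ (s + 2) z
      = J2 S i τ z * φ s (sk 0 (sk 0 z)) := by
  induction τ using TensorProduct.induction_on with
  | zero => simp
  | tmul x y =>
    rw [TensorProduct.map_tmul, LinearMap.mul'_apply, acT_mul, acT_io, acT_io]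
    refine ⟨rfl, ?_, ?_⟩
    · funext z
      rw [lam_succ, lam_zero]
      simp
    · intro s z
      rw [lam_succ, lam_succ, J2_tmul]
      ring
  | add x y hx hy =>
    obtain ⟨a1, a2, a3⟩ := hx
    obtain ⟨b1, b2, b3⟩ := hy
    rw [map_add, map_add, acT_add]
    refine ⟨?_, ?_, ?_⟩
    · rw [Pi.add_apply, a1, b1, add_zero]
    · rw [Pi.add_apply, a2, b2, add_zero]
    · intro s z
      rw [Pi.add_apply, Pi.add_apply, a3, b3, map_add, Pi.add_apply, add_mul]

lemma sk_sk_zero {P : Type*} (z : ℕ → P) : sk 0 (sk 1 z) = sk 0 (sk 0 z) := by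
  funext r
  rfl

lemma sk_sk_succ {P : Type*} (j : ℕ) (z : ℕ → P) : sk 0 (sk (j + 1) z) = sk j (sk 0 z) := by
  funext r
  unfold sk
  congr 1
  unfold skp
  split_ifs <;> omega

lemma DD_lam (i : ℕ) (f : BB i) (φ : Co S) :
    DD (lam S i f φ) = lam S i f (DD φ) + acT S i (dT (io f)) φ := by
  rw [dT_io, acT_add, acT_add, acT_mul, acT_mul, LinearMap.convMul_apply]
  have h2 := acT_m2 (S := S) i (Coalgebra.comul (R := ZMod 2) f) φ
  change _ = _ + (_ + _ + acT S i (LinearMap.mul' (ZMod 2) (TT (BB i))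
    (TensorProduct.map io io (Coalgebra.comul (R := ZMod 2) f))) φ)
  obtain ⟨a0, a1, a2⟩ := h2
  rw [ee, acT_io, acT_io]
  funext s
  rcases s with _ | _ | s
  · simp only [Pi.add_apply, a0, lam_zero, DD_zero, add_zero]
  · simp only [Pi.add_apply]
    rw [a1]
    funext z
    simp only [Pi.add_apply, Pi.zero_apply]
    rw [lam_succ, lam_succ, lam_succ, DD_zero, lam_zero, lam_zero, DD_succ, lam_zero]
    simp [dd]
  · funext z
    simp only [Pi.add_apply]
    rw [a2, J2_comul, DD_succ, lam_succ, lam_succ, lam_succ, lam_succ, lam_succ, DD_succ, map_one,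
      Pi.one_apply, Pi.one_apply]
    have e1 : dd (s + 1) (lam S i f φ (s + 1)) z = JJ S i f (sk 0 z) * φ s (sk 0 (sk 0 z)) +
        (JJ S i f (sk 1 z) * φ s (sk 0 (sk 0 z)) +
          ∑ j ∈ Finset.range (s + 1), JJ S i f z * φ s (sk (j + 1) (sk 0 z))) := by
      unfold dd
      rw [Finset.sum_range_succ', Finset.sum_range_succ']
      simp only [lam_succ]
      have e2 : ∑ j ∈ Finset.range (s + 1), JJ S i f (sk (j + 1 + 1) z) *
          φ s (sk 0 (sk (j + 1 + 1) z)) =
          ∑ j ∈ Finset.range (s + 1), JJ S i f z * φ s (sk (j + 1) (sk 0 z)) := by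
        refine Finset.sum_congr rfl fun j _ => ?_
        rw [sk_sk_succ, JJ_congr i f (z := sk (j + 1 + 1) z) (z' := z)]
        · unfold sk; rw [skp_lt (by omega)]
        · unfold sk; rw [skp_lt (by omega)]
      rw [e2, zero_add, sk_sk_zero]
      ring
    have e3 : dd s (φ s) (sk 0 z) = φ s (sk 0 (sk 0 z)) +
        ∑ j ∈ Finset.range (s + 1), φ s (sk (j + 1) (sk 0 z)) := by
      unfold dd
      rw [Finset.sum_range_succ', add_comm]
    rw [e1, e3, mul_add, Finset.mul_sum]
    have h := add_self' (JJ S i f z * φ s (sk 0 (sk 0 z)))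
    linear_combination -h

lemma DD_acT (i : ℕ) (ω : TT (BB i)) (φ : Co S) :
    DD (acT S i ω φ) = acT S i ω (DD φ) + acT S i (dT ω) φ := by
  induction ω using TensorAlgebra.induction generalizing φ with
  | algebraMap r =>
    rw [Algebra.algebraMap_eq_smul_one, map_smul, map_smul, dT_one, smul_zero, map_zero, map_one]
    change DD (r • φ) = r • DD φ + 0
    rw [map_smul, add_zero]
  | ι f =>
    change DD (acT S i (io f) φ) = acT S i (io f) (DD φ) + acT S i (dT (io f)) φ
    rw [acT_io]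
    exact DD_lam i f φ
  | mul a b ha hb =>
    rw [dT_mul, acT_add, acT_mul, acT_mul, acT_mul, acT_mul, ha, hb, map_add]
    abel
  | add a b ha hb =>
    rw [acT_add, acT_add, map_add, map_add, acT_add, ha, hb]
    abel

/-! ### Weights -/

/-- The unit of weight. -/
def uw (i : ℕ) : ℤ := 2 ^ aa i * (2 ^ (i + 1) - 1)

lemma uw_nonneg (i : ℕ) : 0 ≤ uw i :=
  mul_nonneg (by positivity) (two_pow_sub_one_nonneg (i + 1))

variable {N n k s : ℕ}

lemma Gd.trc {X : Type*} {G : Set ((X → S) × ℤ)} {c i : ℕ} {Z : X → Pt S}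
    (h : Gd G c (Set.Iic i) Z) : Gd G c Set.univ (fun x => Pt.trc (i + 1) (Z x)) := by
  intro m _
  by_cases hm : m ≤ i
  · have e : (fun x => (Pt.trc (i + 1) (Z x)).co m ^ 2 ^ c) = fun x => (Z x).co m ^ 2 ^ c := by
      funext x
      by_cases h0 : m = 0
      · subst h0; simp
      · have hm' : m < i + 1 := by omega
        simp only [Pt.trc, h0, if_false, hm', if_true]
    rw [e]
    exact h m hm
  · have e : (fun x => (Pt.trc (i + 1) (Z x)).co m ^ 2 ^ c) = 0 := by
      funext x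
      simp only [Pt.trc, show m ≠ 0 by omega, show ¬ m < i + 1 by omega, if_false]
      rw [zero_pow (pow_ne_zero _ two_ne_zero)]
      rfl
    rw [e]
    exact Submodule.zero_mem _

lemma gd_hh (i : ℕ) (hks : k ≤ s) : Gd (GS (S := S) N n (i + 1) k (s + 1)) (aa i) Set.univ
    (fun z => Pt.hh (i + 1) (z 0) (z 1)) := by
  have h0 := gd_coef (S := S) (N := N) (n := n) (i := i + 1) (k := k) (s := s + 1) (m := i)
    (by omega)
  have hs : Gd (GS (S := S) N n (i + 1) k (s + 1)) (aa i) Set.univ (slot 0) :=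
    (gd_free (by omega)).frob (Nat.zero_le _)
  have h1 : Gd (GS (S := S) N n (i + 1) k (s + 1)) (aa i) (Set.Iic i) (fun z => z 1) := by
    have e : ∀ z : ℕ → Pt S, z 1 = z 0 * slot 0 z := by
      intro z
      simp [slot]
    simp only [e]
    exact Gd.mul (isLowerSet_Iic i) h0 (hs.mono_set (Set.subset_univ _))
  simp only [Pt.hh_eq]
  exact Gd.mul isLowerSet_univ (Gd.mul isLowerSet_univ h0.trc hs)
    (Gd.inv isLowerSet_univ h1.trc)

lemma JJ_mem (i x y : ℕ) (hks : k ≤ s) :
    JJ S i (mono i x y) ∈ fil (GS (S := S) N n (i + 1) k (s + 1)) (uw i * wtm i x y) := by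
  have h := gd_hh (S := S) (N := N) (n := n) i hks
  unfold mono
  rw [map_mul, map_pow, map_pow]
  have ha : JJ S i (ga i) ∈ fil (GS (S := S) N n (i + 1) k (s + 1)) (uw i) := by
    have e : JJ S i (ga i) = fun z => (Pt.hh (i + 1) (z 0) (z 1)).co (i + 1) ^ 2 ^ aa i :=
      funext fun z => JJ_a i z
    rw [e]
    exact h.co (Set.mem_univ _)
  have hb : JJ S i (gb i) ∈
      fil (GS (S := S) N n (i + 1) k (s + 1)) (uw i * (2 ^ (i + 1) + 1)) := by
    have e : JJ S i (gb i) = fun z => (Pt.hh (i + 1) (z 0) (z 1)).co (2 * (i + 1)) ^ 2 ^ aa i :=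
      funext fun z => JJ_b i z
    rw [e]
    have h1 := h.co (m := 2 * (i + 1)) (Set.mem_univ _)
    have e2 : uw i * (2 ^ (i + 1) + 1) = 2 ^ aa i * (2 ^ (2 * (i + 1)) - 1) := by
      unfold uw
      rw [mul_comm 2 (i + 1), pow_mul]
      ring
    rw [e2]
    exact h1
  refine fil_mul' (fil_pow ha x) (fil_pow hb y) ?_
  simp only [wtm]; push_cast; ring

lemma acT_mem (i : ℕ) {ν : ℤ} {ω : TT (BB i)} (hω : ω ∈ fil (GT i (uw i)) ν) {t : ℤ}
    {φ : Co S} (hφ : φ ∈ PF N n (i + 1) k t) : acT S i ω φ ∈ PF N n (i + 1) k (t + ν) := by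
  have key : ∀ (ν : ℤ) (ω : TT (BB i)), Mon (GT i (uw i)) ν ω → ∀ (t : ℤ) (φ : Co S),
      φ ∈ PF N n (i + 1) k t → acT S i ω φ ∈ PF N n (i + 1) k (t + ν) := by
    intro ν ω hω
    induction hω with
    | one =>
      intro t φ hφ
      rw [map_one, add_zero]
      exact hφ
    | @mul ν w x g hx hg ih =>
      intro t φ hφ
      obtain ⟨a, b, h⟩ := hg
      obtain ⟨rfl, rfl⟩ := Prod.mk.inj h
      rw [acT_mul, acT_io]
      have h1 : lam S i (mono i a b) φ ∈ PF N n (i + 1) k (t + uw i * wtm i a b) := by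
        intro s
        cases s with
        | zero => exact ⟨fun _ => rfl, fun _ => Submodule.zero_mem _⟩
        | succ s =>
          by_cases hks : k ≤ s
          · refine ⟨fun h => by omega, fun _ => ?_⟩
            exact fil_mul' (JJ_mem i a b hks) (fil_sk (j := 0) hks ((hφ s).2 hks)) (by ring)
          · have h0 : lam S i (mono i a b) φ (s + 1) = 0 := by
              funext z
              rw [lam_succ, (hφ s).1 (by omega)]
              simp
            rw [h0]
            exact ⟨fun _ => rfl, fun _ => Submodule.zero_mem _⟩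
      have h2 := ih _ _ h1
      have e : t + uw i * (wtm i a b : ℤ) + ν = t + (ν + uw i * wtm i a b) := by ring
      rw [e] at h2
      exact h2
  induction hω using Submodule.span_induction with
  | mem x hx => exact key ν x hx t φ hφ
  | zero => rw [map_zero]; exact Submodule.zero_mem _
  | add a b _ _ ha hb => rw [acT_add]; exact Submodule.add_mem _ ha hb
  | smul r a _ ha => rw [map_smul]; exact Submodule.smul_mem _ _ ha

end

end Pool.Agent.Work.MP_701abf_gt
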