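import Pool.Agent.Work.MP_701abf_gt.Cob.Density

/-!
# MP_701abf_gt: the dichotomy for `d_2` on Sq^0-families, and almost all families

For every `s ≥ 1` there are `J` and subspaces `K^{s,t} ⊆ Ext^{s,t}` such that for every class
`x` on the `s`-line, with Sq^0-family `x_0, x_1, …`:

* if `x ∈ K`, then `Sq^1 x_j = 0` for all `j ≥ J`;
* if `x ∉ K`, then `h_0 Sq^1 x_j ≠ 0` for all `j ≥ J`.

The second case is almost always the case: in the degrees `t < 2 ^ n` the total dimension of the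
groups `Ext^{s,t}` is at least `n ^ s / D`, the total dimension of the `K^{s,t}` is at most
`C n ^ (s - 1)`.

By Bruner's formula `d_2 (Sq^0 x) = h_0 Sq^1 x` for `x` of even internal degree, `d_2 x_{j+1}` is
zero for all large `j` in the first case and nonzero for all large `j` in the second one.

Definitions (cobar complex of the dual Steenrod algebra) are in
`Pool.Agent.Work.MP_701abf_gt.Cob.Defs`, `Pool.Agent.Work.MP_701abf_gt.Cob.OpsDefs` and
`Pool.Agent.Work.MP_701abf_gt.Cob.DimDefs`. The subspace `K^{s,t}` is given by its space `K t` of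
representing cocycles.
-/

namespace Pool.Agent.Results.MP_701abf_gt.AlmostAllFamilies

open Pool.Agent.Work.MP_701abf_gt.Cob

/-- For every `s ≥ 1` there are `J`, `C`, `D` and subspaces `K t` of the spaces of cocycles of
degree `(s, t)` such that for all `t`, all cocycles `p` of degree `(s, t)` and all `j ≥ J`: if
`p ∈ K t` then `Sq^1 ((Sq^0)^j [p]) = 0`, and if `p ∉ K t` then
`Sq^1 ((Sq^0)^j [p]) · h_0 ≠ 0`; the sum of the dimensions of the `K t` modulo coboundaries with
`t < 2 ^ n` is at most `C n ^ (s - 1)` for `n ≥ 1`, and the sum of the dimensions of the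
`Ext^{s,t}` with `t < 2 ^ n` is at least `n ^ s / D` for `n ≥ D`. -/
theorem result (s : ℕ) (hs : 1 ≤ s) :
    ∃ (J C D : ℕ) (K : ℕ → Submodule (ZMod 2) (Cobar s)),
      (∀ t, K t ≤ Zc s t) ∧
      (∀ t, ∀ p ∈ K t, ∀ j, J ≤ j →
        sqOne s (p ^ 2 ^ j) ∈ Bc (s + 1) (2 * (2 ^ j * t))) ∧
      (∀ t, ∀ p ∈ Zc s t, p ∉ K t → ∀ j, J ≤ j →
        jux (s + 1) 1 (sqOne s (p ^ 2 ^ j)) (xi 0 1) ∉ Bc (s + 1 + 1) (2 * (2 ^ j * t) + 1)) ∧
      (∀ n, 1 ≤ n →
        ∑ t ∈ Finset.range (2 ^ n), dimMod (K t) (Bc s t) ≤ C * n ^ (s - 1)) ∧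
      ∀ n, D ≤ n →
        n ^ s ≤ D * ∑ t ∈ Finset.range (2 ^ n), dimMod (Zc s t) (Bc s t) :=
  density' s hs

end Pool.Agent.Results.MP_701abf_gt.AlmostAllFamilies
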