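import Pool.Agent.Work.MP_701abf_gt.Fil

/-!
Points of the dual Steenrod algebra with values in a commutative ring of characteristic two.
-/

namespace Pool.Agent.Work.MP_701abf_gt

open Finset.HasAntidiagonal (antidiagonal mem_antidiagonal)

section frob

variable {R : Type*} [CommRing R] [Algebra (ZMod 2) R]

lemma two_eq_zero' : (2 : R) = 0 := by
  have : algebraMap (ZMod 2) R 2 = 2 := map_ofNat _ 2
  rw [← this, show (2 : ZMod 2) = 0 from rfl, map_zero]

lemma add_sq' (x y : R) : (x + y) ^ 2 = x ^ 2 + y ^ 2 := by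
  have := two_eq_zero' (R := R)
  linear_combination x * y * this

/-- The iterated Frobenius. -/
def fr (n : ℕ) : R →+* R where
  toFun x := x ^ 2 ^ n
  map_one' := one_pow _
  map_mul' x y := mul_pow _ _ _
  map_zero' := zero_pow (pow_ne_zero _ two_ne_zero)
  map_add' x y := by
    induction n with
    | zero => simp
    | succ n ih => rw [pow_succ, pow_mul, pow_mul, pow_mul, ih, add_sq']

@[simp] lemma fr_apply (n : ℕ) (x : R) : fr n x = x ^ 2 ^ n := rfl

lemma add_pow' (n : ℕ) (x y : R) : (x + y) ^ 2 ^ n = x ^ 2 ^ n + y ^ 2 ^ n :=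
  (fr n).map_add x y

lemma sum_pow' {ι : Type*} (n : ℕ) (s : Finset ι) (f : ι → R) :
    (∑ i ∈ s, f i) ^ 2 ^ n = ∑ i ∈ s, f i ^ 2 ^ n :=
  map_sum (fr n) f s

end frob

/-- Points of the dual Steenrod algebra. -/
@[ext] structure Pt (S : Type*) [CommRing S] where
  co : ℕ → S
  co_zero : co 0 = 1

namespace Pt

variable {S : Type*} [CommRing S] [Algebra (ZMod 2) S]

attribute [simp] co_zero

/-- Milnor's product. -/
instance : Mul (Pt S) where
  mul a b := ⟨fun n => ∑ p ∈ antidiagonal n, a.co p.1 ^ 2 ^ p.2 * b.co p.2, by simp⟩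

instance : One (Pt S) where
  one := ⟨fun n => if n = 0 then 1 else 0, by simp⟩

omit [Algebra (ZMod 2) S] in
lemma co_mul (a b : Pt S) (n : ℕ) :
    (a * b).co n = ∑ p ∈ antidiagonal n, a.co p.1 ^ 2 ^ p.2 * b.co p.2 := rfl

omit [Algebra (ZMod 2) S] in
lemma co_one (n : ℕ) : (1 : Pt S).co n = if n = 0 then 1 else 0 := rfl

omit [Algebra (ZMod 2) S] in
lemma co_one_ne {n : ℕ} (h : n ≠ 0) : (1 : Pt S).co n = 0 := by rw [co_one, if_neg h]

/-- Coordinates of the left inverse. -/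
def invCo (z : Pt S) (n : ℕ) : S :=
  if n = 0 then 1 else ∑ m : Fin n, invCo z m.val ^ 2 ^ (n - m.val) * z.co (n - m.val)
termination_by n
decreasing_by exact m.isLt

omit [Algebra (ZMod 2) S] in
lemma invCo_zero (z : Pt S) : invCo z 0 = 1 := by
  unfold invCo; simp

omit [Algebra (ZMod 2) S] in
lemma invCo_pos (z : Pt S) {n : ℕ} (h : n ≠ 0) :
    invCo z n = ∑ m ∈ Finset.range n, invCo z m ^ 2 ^ (n - m) * z.co (n - m) := by
  rw [Finset.sum_range]
  conv_lhs => unfold invCo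
  simp [h]

instance : Inv (Pt S) where
  inv z := ⟨invCo z, invCo_zero z⟩

omit [Algebra (ZMod 2) S] in
lemma co_inv (z : Pt S) {n : ℕ} (h : n ≠ 0) :
    (z⁻¹).co n = ∑ m ∈ Finset.range n, (z⁻¹).co m ^ 2 ^ (n - m) * z.co (n - m) :=
  invCo_pos z h

lemma mul_assoc' (a b c : Pt S) : a * b * c = a * (b * c) := by
  ext n
  simp only [co_mul]
  have e1 : ∀ p ∈ antidiagonal n,
      (∑ q ∈ antidiagonal p.1, a.co q.1 ^ 2 ^ q.2 * b.co q.2) ^ 2 ^ p.2 * c.co p.2
      = ∑ q ∈ antidiagonal p.1,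
        a.co q.1 ^ 2 ^ (q.2 + p.2) * (b.co q.2 ^ 2 ^ p.2 * c.co p.2) := by
    intro p _
    rw [sum_pow', Finset.sum_mul]
    refine Finset.sum_congr rfl fun q _ => ?_
    rw [mul_pow, ← pow_mul, pow_add, mul_assoc]
  have e2 : ∀ p ∈ antidiagonal n,
      a.co p.1 ^ 2 ^ p.2 * ∑ q ∈ antidiagonal p.2, b.co q.1 ^ 2 ^ q.2 * c.co q.2
      = ∑ q ∈ antidiagonal p.2,
        a.co p.1 ^ 2 ^ (q.1 + q.2) * (b.co q.1 ^ 2 ^ q.2 * c.co q.2) := by
    intro p _
    rw [Finset.mul_sum]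
    refine Finset.sum_congr rfl fun q hq => ?_
    rw [mem_antidiagonal.1 hq]
  rw [Finset.sum_congr rfl e1, Finset.sum_congr rfl e2, Finset.sum_sigma', Finset.sum_sigma']
  refine Finset.sum_nbij' (fun x => ⟨(x.2.1, x.2.2 + x.1.2), (x.2.2, x.1.2)⟩)
    (fun x => ⟨(x.1.1 + x.2.1, x.2.2), (x.1.1, x.2.1)⟩) ?_ ?_ ?_ ?_ ?_
  · rintro ⟨⟨i, j⟩, ⟨k, l⟩⟩ h
    simp only [Finset.mem_sigma, mem_antidiagonal] at h ⊢
    obtain ⟨h1, h2⟩ := h
    constructor
    · omega
    · trivial
  · rintro ⟨⟨i, j⟩, ⟨k, l⟩⟩ h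
    simp only [Finset.mem_sigma, mem_antidiagonal] at h ⊢
    obtain ⟨h1, h2⟩ := h
    constructor
    · omega
    · trivial
  · rintro ⟨⟨i, j⟩, ⟨k, l⟩⟩ h
    simp only [Finset.mem_sigma, mem_antidiagonal] at h
    obtain ⟨h1, h2⟩ := h
    subst h2
    rfl
  · rintro ⟨⟨i, j⟩, ⟨k, l⟩⟩ h
    simp only [Finset.mem_sigma, mem_antidiagonal] at h
    obtain ⟨h1, h2⟩ := h
    subst h2
    rfl
  · rintro ⟨⟨i, j⟩, ⟨k, l⟩⟩ h
    rfl

omit [Algebra (ZMod 2) S] in
lemma one_mul' (a : Pt S) : 1 * a = a := by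
  ext n
  rw [co_mul, Finset.sum_eq_single (0, n)]
  · simp
  · rintro ⟨i, j⟩ hb hne
    have : i ≠ 0 := by
      rintro rfl
      apply hne
      have := mem_antidiagonal.1 hb
      simp only [zero_add] at this
      rw [this]
    simp only [co_one_ne this]
    rw [zero_pow (pow_ne_zero _ two_ne_zero), zero_mul]
  · intro h
    exact absurd (mem_antidiagonal.2 (by simp)) h

lemma inv_mul' (a : Pt S) : a⁻¹ * a = 1 := by
  ext n
  rcases Nat.eq_zero_or_pos n with rfl | hn
  · simp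
  · rw [co_one_ne hn.ne', co_mul, Finset.Nat.sum_antidiagonal_eq_sum_range_succ_mk,
      Finset.sum_range_succ, ← co_inv a hn.ne']
    simp only [Nat.sub_self, pow_zero, pow_one, co_zero, mul_one]
    have := two_eq_zero' (R := S)
    linear_combination (a⁻¹).co n * this

instance : Group (Pt S) :=
  Group.ofLeftAxioms mul_assoc' one_mul' inv_mul'

omit [Algebra (ZMod 2) S] in
lemma co_mul_left (a b : Pt S) (n : ℕ) : (a * b).co n =
    b.co n + ∑ k ∈ Finset.range n, a.co (k + 1) ^ 2 ^ (n - (k + 1)) * b.co (n - (k + 1)) := by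
  rw [co_mul, Finset.Nat.sum_antidiagonal_eq_sum_range_succ_mk, Finset.sum_range_succ']
  simp only [co_zero, one_pow, one_mul, Nat.sub_zero]
  rw [add_comm]

omit [Algebra (ZMod 2) S] in
lemma co_mul_right (a b : Pt S) (n : ℕ) : (a * b).co n =
    a.co n + ∑ k ∈ Finset.range n, a.co k ^ 2 ^ (n - k) * b.co (n - k) := by
  rw [co_mul, Finset.Nat.sum_antidiagonal_eq_sum_range_succ_mk, Finset.sum_range_succ]
  simp only [co_zero, mul_one, Nat.sub_self, pow_zero, pow_one]
  rw [add_comm]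

/-- The point with `c` as its only non-trivial coordinate, in position `j + 1`. -/
def el (j : ℕ) (c : S) : Pt S where
  co m := if m = 0 then 1 else if m = j + 1 then c else 0
  co_zero := rfl

omit [Algebra (ZMod 2) S] in
lemma el_self (j : ℕ) (c : S) : (el j c).co (j + 1) = c := by
  simp [el]

omit [Algebra (ZMod 2) S] in
lemma el_ne (j : ℕ) (c : S) {m : ℕ} (h0 : m ≠ 0) (h : m ≠ j + 1) : (el j c).co m = 0 := by
  simp [el, h0, h]

omit [Algebra (ZMod 2) S] in
lemma co_mul_el_lt (a : Pt S) (j : ℕ) (c : S) {m : ℕ} (h : m < j + 1) :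
    (a * el j c).co m = a.co m := by
  rw [co_mul_right, Finset.sum_eq_zero, add_zero]
  intro k hk
  have := Finset.mem_range.1 hk
  rw [el_ne j c (by omega) (by omega), mul_zero]

omit [Algebra (ZMod 2) S] in
lemma co_mul_el_eq (a : Pt S) (j : ℕ) (c : S) :
    (a * el j c).co (j + 1) = a.co (j + 1) + c := by
  rw [co_mul_right, Finset.sum_eq_single 0]
  · simp [el_self]
  · intro k hk hk0
    have := Finset.mem_range.1 hk
    rw [el_ne j c (by omega) (by omega), mul_zero]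
  · intro h
    exact absurd (Finset.mem_range.2 (by omega)) h

omit [Algebra (ZMod 2) S] in
lemma co_el_mul_lt (a : Pt S) (j : ℕ) (c : S) {m : ℕ} (h : m < j + 1) :
    (el j c * a).co m = a.co m := by
  rw [co_mul_left, Finset.sum_eq_zero, add_zero]
  intro k hk
  have := Finset.mem_range.1 hk
  rw [el_ne j c (by omega) (by omega), zero_pow (pow_ne_zero _ two_ne_zero), zero_mul]

omit [Algebra (ZMod 2) S] in
lemma co_el_mul_eq (a : Pt S) (j : ℕ) (c : S) :
    (el j c * a).co (j + 1) = a.co (j + 1) + c := by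
  rw [co_mul_left, Finset.sum_eq_single j]
  · simp [el_self]
  · intro k hk hk0
    have := Finset.mem_range.1 hk
    rw [el_ne j c (by omega) (by omega), zero_pow (pow_ne_zero _ two_ne_zero), zero_mul]
  · intro h
    exact absurd (Finset.mem_range.2 (by omega)) h

end Pt

end Pool.Agent.Work.MP_701abf_gt
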