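import Pool.Agent.Work.MP_701abf_gt.Quot
import Pool.Agent.Work.MP_701abf_gt.Pt

/-!
The bialgebra on two generators `a`, `b` with `a` primitive and `b` with reduced coproduct
`a ^ q ⊗ a`.
-/

namespace Pool.Agent.Work.MP_701abf_gt

open TensorProduct

noncomputable section

/-- The underlying algebra. -/
def BB (_ : ℕ) : Type := MvPolynomial (Fin 2) (ZMod 2)

instance (i : ℕ) : CommRing (BB i) := inferInstanceAs (CommRing (MvPolynomial (Fin 2) (ZMod 2)))

instance instAlgBB (i : ℕ) : Algebra (ZMod 2) (BB i) :=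
  inferInstanceAs (Algebra (ZMod 2) (MvPolynomial (Fin 2) (ZMod 2)))

/-- The generator `a`. -/
def ga (i : ℕ) : BB i := (MvPolynomial.X 0 : MvPolynomial (Fin 2) (ZMod 2))

/-- The generator `b`. -/
def gb (i : ℕ) : BB i := (MvPolynomial.X 1 : MvPolynomial (Fin 2) (ZMod 2))

/-- Homomorphisms out of the algebra. -/
def hB {A : Type*} [CommRing A] [Algebra (ZMod 2) A] (i : ℕ) (x y : A) : BB i →ₐ[ZMod 2] A :=
  (MvPolynomial.aeval ![x, y] : MvPolynomial (Fin 2) (ZMod 2) →ₐ[ZMod 2] A)

@[simp] lemma hB_a {A : Type*} [CommRing A] [Algebra (ZMod 2) A] (i : ℕ) (x y : A) :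
    hB i x y (ga i) = x := by
  change MvPolynomial.aeval ![x, y] (MvPolynomial.X 0) = x
  simp

@[simp] lemma hB_b {A : Type*} [CommRing A] [Algebra (ZMod 2) A] (i : ℕ) (x y : A) :
    hB i x y (gb i) = y := by
  change MvPolynomial.aeval ![x, y] (MvPolynomial.X 1) = y
  simp

lemma hB_ext {A : Type*} [Semiring A] [Algebra (ZMod 2) A] {i : ℕ} {f g : BB i →ₐ[ZMod 2] A}
    (ha : f (ga i) = g (ga i)) (hb : f (gb i) = g (gb i)) : f = g := by
  refine MvPolynomial.algHom_ext (R := ZMod 2) (σ := Fin 2) fun j => ?_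
  fin_cases j
  · exact ha
  · exact hb

/-- The comultiplication. -/
def coB (i : ℕ) : BB i →ₐ[ZMod 2] BB i ⊗[ZMod 2] BB i :=
  hB i (ga i ⊗ₜ 1 + 1 ⊗ₜ ga i) (gb i ⊗ₜ 1 + 1 ⊗ₜ gb i + (ga i ^ 2 ^ (i + 1)) ⊗ₜ ga i)

instance instBialBB (i : ℕ) : Bialgebra (ZMod 2) (BB i) :=
  Bialgebra.ofAlgHom (coB i) (hB i 0 0)
    (by
      have hpow : ∀ x y : BB i ⊗[ZMod 2] BB i, (x + y) ^ 2 ^ (i + 1) =
          x ^ 2 ^ (i + 1) + y ^ 2 ^ (i + 1) := add_pow' _
      refine hB_ext ?_ ?_
      · simp [coB, TensorProduct.add_tmul, TensorProduct.tmul_add, Algebra.TensorProduct.one_def]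
        abel
      · simp [coB, TensorProduct.add_tmul, TensorProduct.tmul_add, Algebra.TensorProduct.one_def,
          hpow, Algebra.TensorProduct.tmul_pow]
        abel)
    (by
      refine hB_ext ?_ ?_
      · simp [coB]
      · simp [coB])
    (by
      refine hB_ext ?_ ?_
      · simp [coB]
      · simp [coB])

lemma prim_a (i : ℕ) : Prim (ga i) := hB_a i _ _

lemma comul_b (i : ℕ) : Coalgebra.comul (R := ZMod 2) (gb i) =
    gb i ⊗ₜ[ZMod 2] 1 + 1 ⊗ₜ[ZMod 2] gb i + (ga i ^ 2 ^ (i + 1)) ⊗ₜ[ZMod 2] ga i := hB_b i _ _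

/-- Monomials. -/
def mono (i x y : ℕ) : BB i := ga i ^ x * gb i ^ y

/-- Weight of a monomial. -/
def wtm (i x y : ℕ) : ℕ := x + (2 ^ (i + 1) + 1) * y

/-- Identification with polynomials. -/
def toBB (i : ℕ) (f : MvPolynomial (Fin 2) (ZMod 2)) : BB i := f

lemma mono_span (i : ℕ) (f : BB i) : f ∈ Submodule.span (ZMod 2)
    {g : BB i | ∃ x y, g = mono i x y} := by
  have h : ∀ f : MvPolynomial (Fin 2) (ZMod 2), toBB i f ∈ Submodule.span (ZMod 2)
    {g : BB i | ∃ x y, g = mono i x y} := by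
    intro f
    induction f using MvPolynomial.induction_on' with
    | monomial u r =>
      have e : (MvPolynomial.monomial u r : MvPolynomial (Fin 2) (ZMod 2)) =
          r • (MvPolynomial.X 0 ^ u 0 * MvPolynomial.X 1 ^ u 1) := by
        rw [MvPolynomial.monomial_eq, MvPolynomial.C_mul', Finsupp.prod_fintype _ _ (by simp)]
        simp [Fin.prod_univ_two]
      rw [e]
      exact Submodule.smul_mem _ _ (Submodule.subset_span ⟨u 0, u 1, rfl⟩)
    | add p q hp hq => exact Submodule.add_mem _ hp hq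
  exact h f

lemma mono_mul (i x y x' y' : ℕ) : mono i x y * mono i x' y' = mono i (x + x') (y + y') := by
  unfold mono; ring

lemma mono_zero (i : ℕ) : mono i 0 0 = 1 := by simp [mono]

/-! ### Weights -/

/-- Letters with their weights, in units `u`. -/
def GT (i : ℕ) (u : ℤ) : Set (TT (BB i) × ℤ) :=
  {p | ∃ x y : ℕ, p = (io (mono i x y), u * wtm i x y)}

/-- Generators of the tensor square with their weights. -/
def G2 (i : ℕ) : Set (BB i ⊗[ZMod 2] BB i × ℤ) :=
  {p | ∃ x y x' y' : ℕ, p = (mono i x y ⊗ₜ mono i x' y', (wtm i x y + wtm i x' y' : ℤ))}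

lemma G2_mon {i : ℕ} {w : ℤ} {x : BB i ⊗[ZMod 2] BB i} (h : Mon (G2 i) w x) :
    ∃ a b a' b' : ℕ, x = mono i a b ⊗ₜ mono i a' b' ∧ w = wtm i a b + wtm i a' b' := by
  induction h with
  | one => exact ⟨0, 0, 0, 0, by rw [mono_zero, Algebra.TensorProduct.one_def], by simp [wtm]⟩
  | mul hx hg ih =>
    obtain ⟨a, b, a', b', rfl, rfl⟩ := ih
    obtain ⟨c, d, c', d', h⟩ := hg
    obtain ⟨rfl, rfl⟩ := Prod.mk.inj h
    refine ⟨a + c, b + d, a' + c', b' + d', ?_, ?_⟩
    · rw [Algebra.TensorProduct.tmul_mul_tmul, mono_mul, mono_mul]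
    · simp only [wtm]; push_cast; ring

lemma ga_mono (i : ℕ) : ga i = mono i 1 0 := by simp [mono]

lemma gb_mono (i : ℕ) : gb i = mono i 0 1 := by simp [mono]

lemma comul_a_mem (i : ℕ) : Coalgebra.comul (R := ZMod 2) (ga i) ∈ fil (G2 i) 1 := by
  rw [show Coalgebra.comul (R := ZMod 2) (ga i) = _ from prim_a i]
  refine Submodule.add_mem _ (fil_gen ⟨1, 0, 0, 0, ?_⟩) (fil_gen ⟨0, 0, 1, 0, ?_⟩)
  · rw [← ga_mono, mono_zero]; simp [wtm]
  · rw [← ga_mono, mono_zero]; simp [wtm]

lemma comul_b_mem (i : ℕ) :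
    Coalgebra.comul (R := ZMod 2) (gb i) ∈ fil (G2 i) (2 ^ (i + 1) + 1) := by
  rw [comul_b]
  refine Submodule.add_mem _ (Submodule.add_mem _ (fil_gen ⟨0, 1, 0, 0, ?_⟩)
    (fil_gen ⟨0, 0, 0, 1, ?_⟩)) (fil_gen ⟨2 ^ (i + 1), 0, 1, 0, ?_⟩)
  · rw [← gb_mono, mono_zero]; simp [wtm]
  · rw [← gb_mono, mono_zero]; simp [wtm]
  · rw [← ga_mono]; simp [wtm, mono]

lemma comul_mono_mem (i x y : ℕ) :
    Coalgebra.comul (R := ZMod 2) (mono i x y) ∈ fil (G2 i) (wtm i x y) := by
  unfold mono
  rw [Bialgebra.comul_mul, Bialgebra.comul_pow, Bialgebra.comul_pow]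
  refine fil_mul' (fil_pow (comul_a_mem i) x) (fil_pow (comul_b_mem i) y) ?_
  simp only [wtm]; push_cast; ring

lemma II_mono_mem (i x y : ℕ) :
    (II * II : WW (BB i)) (mono i x y) ∈ fil (GT i 1) (wtm i x y) := by
  rw [LinearMap.convMul_apply]
  have h := comul_mono_mem i x y
  revert h
  generalize (Coalgebra.comul (R := ZMod 2) (mono i x y) : BB i ⊗[ZMod 2] BB i) = τ
  intro h
  induction h using Submodule.span_induction with
  | mem t ht =>
    obtain ⟨a, b, a', b', rfl, h2⟩ := G2_mon ht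
    rw [h2, TensorProduct.map_tmul, LinearMap.mul'_apply]
    exact fil_mul' (fil_gen (w := wtm i a b) ⟨a, b, by rw [one_mul]; rfl⟩)
      (fil_gen (w := wtm i a' b') ⟨a', b', by rw [one_mul]; rfl⟩) rfl
  | zero => rw [map_zero, map_zero]; exact Submodule.zero_mem _
  | add p q _ _ hp hq => rw [map_add, map_add]; exact Submodule.add_mem _ hp hq
  | smul r p _ hp => rw [map_smul, map_smul]; exact Submodule.smul_mem _ _ hp

lemma io_mono_mem (i x y : ℕ) : io (mono i x y) ∈ fil (GT i 1) (wtm i x y) :=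
  fil_gen ⟨x, y, by rw [one_mul]⟩

lemma ee_mem (i : ℕ) : (ee : TT (BB i)) ∈ fil (GT i 1) 0 := by
  have := io_mono_mem i 0 0
  rw [mono_zero] at this
  change io 1 ∈ _
  simpa [wtm] using this

lemma dT_io_mono_mem (i x y : ℕ) : dT (io (mono i x y)) ∈ fil (GT i 1) (wtm i x y) := by
  rw [dT_io]
  exact Submodule.add_mem _ (Submodule.add_mem _
    (fil_mul' (ee_mem i) (io_mono_mem i x y) (by ring))
    (fil_mul' (io_mono_mem i x y) (ee_mem i) (by ring))) (II_mono_mem i x y)

/-- The weight decomposition of letters. -/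
def Pw (i : ℕ) : BB i →ₐ[ZMod 2] Polynomial (BB i) :=
  hB i (Polynomial.C (ga i) * Polynomial.X) (Polynomial.C (gb i) * Polynomial.X ^ (2 ^ (i + 1) + 1))

lemma Pw_mono (i x y : ℕ) :
    Pw i (mono i x y) = Polynomial.C (mono i x y) * Polynomial.X ^ wtm i x y := by
  unfold mono wtm
  rw [map_mul, map_pow, map_pow]
  simp only [Pw, hB_a, hB_b, map_mul, map_pow]
  ring

/-- The weight decomposition of the tensor algebra. -/
def sc (i : ℕ) : TT (BB i) →ₐ[ZMod 2] PowerSeries (TT (BB i)) :=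
  TensorAlgebra.lift (ZMod 2)
    { toFun := fun f => PowerSeries.mk fun n => io ((Pw i f).coeff n)
      map_add' := fun f g => by
        ext n
        simp only [map_add, PowerSeries.coeff_mk, Polynomial.coeff_add]
      map_smul' := fun r f => by
        ext n
        change _ = r • PowerSeries.coeff n (PowerSeries.mk fun n => io ((Pw i f).coeff n))
        simp only [map_smul, PowerSeries.coeff_mk, Polynomial.coeff_smul] }

lemma sc_io (i n : ℕ) (f : BB i) :
    PowerSeries.coeff n (sc i (io f)) = io ((Pw i f).coeff n) := by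
  unfold sc
  change PowerSeries.coeff n (TensorAlgebra.lift (ZMod 2) _ (TensorAlgebra.ι (ZMod 2) f)) = _
  rw [TensorAlgebra.lift_ι_apply]
  simp only [LinearMap.coe_mk, AddHom.coe_mk, PowerSeries.coeff_mk]

lemma sc_mono (i n x y : ℕ) : PowerSeries.coeff n (sc i (io (mono i x y))) =
    if n = wtm i x y then io (mono i x y) else 0 := by
  rw [sc_io, Pw_mono, Polynomial.coeff_C_mul, Polynomial.coeff_X_pow]
  split_ifs <;> simp

lemma sc_smul (i n : ℕ) (r : ZMod 2) (x : TT (BB i)) :
    PowerSeries.coeff n (sc i (r • x)) = r • PowerSeries.coeff n (sc i x) := by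
  rw [map_smul]
  rfl

lemma sc_add (i n : ℕ) (x y : TT (BB i)) : PowerSeries.coeff n (sc i (x + y)) =
    PowerSeries.coeff n (sc i x) + PowerSeries.coeff n (sc i y) := by
  rw [map_add, map_add]

/-- Elements of a given weight. -/
lemma sc_fil (i : ℕ) (ν : ℕ) (x : TT (BB i)) (hx : x ∈ fil (GT i 1) ν) (n : ℕ) :
    PowerSeries.coeff n (sc i x) = if n = ν then x else 0 := by
  have key : ∀ (w : ℤ) (x : TT (BB i)), Mon (GT i 1) w x → ∃ ν : ℕ, w = ν ∧ ∀ n,
      PowerSeries.coeff n (sc i x) = if n = ν then x else 0 := by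
    intro w x hx
    induction hx with
    | one =>
      refine ⟨0, rfl, fun n => ?_⟩
      rw [map_one, PowerSeries.coeff_one]
    | @mul t w x g hx hg ih =>
      obtain ⟨ν, rfl, ih⟩ := ih
      obtain ⟨a, b, h⟩ := hg
      obtain ⟨rfl, rfl⟩ := Prod.mk.inj h
      refine ⟨ν + wtm i a b, by push_cast; ring, fun n => ?_⟩
      rw [map_mul, PowerSeries.coeff_mul]
      simp only [ih, sc_mono]
      by_cases hn : n = ν + wtm i a b
      · rw [if_pos hn, Finset.sum_eq_single (ν, wtm i a b)]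
        · simp
        · rintro ⟨p, q⟩ _ hne
          by_cases h1 : p = ν
          · have h2 : q ≠ wtm i a b := fun h2 => hne (by rw [h1, h2])
            simp [h2]
          · simp [h1]
        · intro hmem
          exact absurd (Finset.HasAntidiagonal.mem_antidiagonal.2 hn.symm) hmem
      · rw [if_neg hn, Finset.sum_eq_zero]
        rintro ⟨p, q⟩ hpq
        have hpq' := Finset.HasAntidiagonal.mem_antidiagonal.1 hpq
        simp only at hpq'
        by_cases h1 : p = ν
        · have h2 : q ≠ wtm i a b := fun h2 => hn (by rw [← hpq', h1, h2])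
          simp [h2]
        · simp [h1]
  induction hx using Submodule.span_induction with
  | mem x hx =>
    obtain ⟨ν', h1, h2⟩ := key _ x hx
    have : ν = ν' := by exact_mod_cast h1
    subst this
    exact h2 n
  | zero => rw [map_zero, map_zero]; simp
  | add a b _ _ ha hb => rw [sc_add, ha, hb]; split_ifs <;> simp
  | smul r a _ ha => rw [sc_smul, ha]; split_ifs <;> simp

lemma sc_mem (i n : ℕ) (x : TT (BB i)) : PowerSeries.coeff n (sc i x) ∈ fil (GT i 1) n := by
  induction x using TensorAlgebra.induction generalizing n with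
  | algebraMap r =>
    rw [Algebra.algebraMap_eq_smul_one, sc_smul, map_one, PowerSeries.coeff_one]
    refine Submodule.smul_mem _ _ ?_
    split_ifs with h
    · subst h; exact fil_one _
    · exact Submodule.zero_mem _
  | ι f =>
    change PowerSeries.coeff n (sc i (io f)) ∈ _
    have h := mono_span i f
    induction h using Submodule.span_induction with
    | mem f hf =>
      obtain ⟨x, y, rfl⟩ := hf
      rw [sc_mono]
      split_ifs with h
      · subst h; exact io_mono_mem i x y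
      · exact Submodule.zero_mem _
    | zero => rw [map_zero, map_zero, map_zero]; exact Submodule.zero_mem _
    | add a b _ _ ha hb => rw [map_add, sc_add]; exact Submodule.add_mem _ ha hb
    | smul r a _ ha => rw [map_smul, sc_smul]; exact Submodule.smul_mem _ _ ha
  | mul a b ha hb =>
    rw [map_mul, PowerSeries.coeff_mul]
    refine Submodule.sum_mem _ fun p hp => fil_mul' (ha p.1) (hb p.2) ?_
    have := Finset.HasAntidiagonal.mem_antidiagonal.1 hp
    exact_mod_cast this
  | add a b ha hb => rw [sc_add]; exact Submodule.add_mem _ (ha n) (hb n)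

lemma sc_dT (i n : ℕ) (x : TT (BB i)) :
    PowerSeries.coeff n (sc i (dT x)) = dT (PowerSeries.coeff n (sc i x)) := by
  induction x using TensorAlgebra.induction generalizing n with
  | algebraMap r =>
    rw [Algebra.algebraMap_eq_smul_one, sc_smul, map_one, PowerSeries.coeff_one, map_smul,
      dT_one, smul_zero, map_zero, map_zero]
    split_ifs
    · rw [map_smul, dT_one, smul_zero]
    · simp
  | ι f =>
    change PowerSeries.coeff n (sc i (dT (io f))) = dT (PowerSeries.coeff n (sc i (io f)))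
    have h := mono_span i f
    induction h using Submodule.span_induction with
    | mem f hf =>
      obtain ⟨x, y, rfl⟩ := hf
      rw [sc_mono, sc_fil i (wtm i x y) _ (dT_io_mono_mem i x y)]
      split_ifs
      · rfl
      · rw [map_zero]
    | zero => simp only [map_zero]
    | add a b _ _ ha hb =>
      rw [map_add, map_add, sc_add, sc_add, map_add, ha, hb]
    | smul r a _ ha => rw [map_smul, map_smul, sc_smul, sc_smul, map_smul, ha]
  | mul a b ha hb =>
    rw [dT_mul, sc_add, map_mul (sc i), map_mul (sc i), map_mul (sc i), PowerSeries.coeff_mul,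
      PowerSeries.coeff_mul, PowerSeries.coeff_mul, map_sum, ← Finset.sum_add_distrib]
    refine Finset.sum_congr rfl fun p _ => ?_
    rw [ha, hb, dT_mul]
  | add a b ha hb => rw [map_add, sc_add, sc_add, map_add, ha, hb]

/-! ### Frobenius twists -/

/-- The Frobenius twist of the tensor algebra. -/
def tw (i j : ℕ) : TT (BB i) →ₐ[ZMod 2] TT (BB i) :=
  TensorAlgebra.lift (ZMod 2)
    { toFun := fun f => io (fr j f)
      map_add' := fun f g => by rw [map_add, map_add]
      map_smul' := fun r f => by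
        have : fr j (r • f) = r • fr j f := ZMod.map_smul (fr (R := BB i) j).toAddMonoidHom r f
        rw [this, map_smul, RingHom.id_apply] }

lemma tw_io (i j : ℕ) (f : BB i) : tw i j (io f) = io (fr j f) := by
  unfold tw
  change TensorAlgebra.lift (ZMod 2) _ (TensorAlgebra.ι (ZMod 2) f) = _
  rw [TensorAlgebra.lift_ι_apply]
  rfl

lemma II_fr (i j : ℕ) (f : BB i) :
    (II * II : WW (BB i)) (fr j f) = tw i j ((II * II : WW (BB i)) f) := by
  have h1 : Coalgebra.comul (R := ZMod 2) (fr j f) =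
      fr j (Coalgebra.comul (R := ZMod 2) f) := Bialgebra.comul_pow f _
  rw [LinearMap.convMul_apply, LinearMap.convMul_apply, h1]
  generalize (Coalgebra.comul (R := ZMod 2) f : BB i ⊗[ZMod 2] BB i) = τ
  induction τ using TensorProduct.induction_on with
  | zero => simp only [map_zero]
  | tmul x y =>
    rw [fr_apply, Algebra.TensorProduct.tmul_pow, TensorProduct.map_tmul, TensorProduct.map_tmul,
      LinearMap.mul'_apply, LinearMap.mul'_apply]
    change io (fr j x) * io (fr j y) = tw i j (io x * io y)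
    rw [map_mul, tw_io, tw_io]
  | add x y hx hy => rw [map_add, map_add, map_add, hx, hy, map_add, map_add, map_add]

lemma tw_dT (i j : ℕ) (x : TT (BB i)) : tw i j (dT x) = dT (tw i j x) := by
  refine der_ext (tw i j) (tw i j) ((tw i j).toLinearMap ∘ₗ dT) (dT ∘ₗ (tw i j).toLinearMap)
    ?_ ?_ ?_ x
  · intro x y
    simp only [LinearMap.comp_apply, AlgHom.toLinearMap_apply, dT_mul, map_add, map_mul]
  · intro x y
    simp only [LinearMap.comp_apply, AlgHom.toLinearMap_apply, dT_mul, map_mul]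
  · intro f
    simp only [LinearMap.comp_apply, AlgHom.toLinearMap_apply]
    rw [tw_io, dT_io, dT_io, map_add, map_add, map_mul, map_mul, tw_io, II_fr]
    have : tw i j (ee : TT (BB i)) = ee := by
      unfold ee
      rw [tw_io, map_one]
    rw [this]

lemma tw_mem (i j : ℕ) {ν : ℤ} {x : TT (BB i)} (hx : x ∈ fil (GT i 1) ν) :
    tw i j x ∈ fil (GT i 1) (2 ^ j * ν) := by
  refine fil_map_scale (tw i j : TT (BB i) →+* TT (BB i)) (2 ^ j) ?_ hx
  rintro g w ⟨a, b, h⟩
  obtain ⟨rfl, rfl⟩ := Prod.mk.inj h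
  have e : tw i j (io (mono i a b)) = io (mono i (2 ^ j * a) (2 ^ j * b)) := by
    rw [tw_io]
    congr 1
    simp only [fr_apply, mono]
    ring
  change tw i j (io (mono i a b)) ∈ _
  rw [e]
  have := io_mono_mem i (2 ^ j * a) (2 ^ j * b)
  have e2 : (2 : ℤ) ^ j * (1 * (wtm i a b : ℤ)) = (wtm i (2 ^ j * a) (2 ^ j * b) : ℕ) := by
    simp only [wtm]; push_cast; ring
  rw [e2]
  exact this

lemma GT_scale (i : ℕ) (u ν : ℤ) {x : TT (BB i)} (hx : x ∈ fil (GT i 1) ν) :
    x ∈ fil (GT i u) (u * ν) := by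
  refine fil_map_scale (RingHom.id (TT (BB i))) u ?_ hx
  rintro g w ⟨a, b, h⟩
  obtain ⟨rfl, rfl⟩ := Prod.mk.inj h
  exact fil_gen ⟨a, b, by rw [one_mul]; rfl⟩

/-- Nilpotence with control of weights, and its Frobenius twists. -/
theorem nilp_tw (i j : ℕ) (u : ℤ) : ∃ Θ : TT (BB i),
    dT Θ = io (ga i ^ (2 ^ (i + 1) * 2 ^ j)) ^ (2 ^ (i + 1) + 1 + 1) ∧
    Θ ∈ fil (GT i u) ((2 ^ (i + 1) + 1 + 1 : ℕ) * (u * (2 ^ (i + 1) * 2 ^ j))) := by
  obtain ⟨β, hβ⟩ := nilp (B := BB i) i (prim_a i) (comul_b i)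
  set q := 2 ^ (i + 1) with hq
  set β' := PowerSeries.coeff (q * (q + 1 + 1)) (sc i β) with hβ'
  have h1 : β' ∈ fil (GT i 1) ((q * (q + 1 + 1) : ℕ) : ℤ) := sc_mem _ _ _
  have h2 : dT β' = io (ga i ^ q) ^ (q + 1 + 1) := by
    rw [hβ', ← sc_dT, hβ, sc_fil i (q * (q + 1 + 1)), if_pos rfl]
    have h3 : io (ga i ^ q) ∈ fil (GT i 1) (q : ℕ) := by
      have := io_mono_mem i q 0
      simpa [mono, wtm] using this
    have := fil_pow h3 (q + 1 + 1)
    have e : ((q + 1 + 1 : ℕ) : ℤ) * ((q : ℕ) : ℤ) = ((q * (q + 1 + 1) : ℕ) : ℤ) := by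
      push_cast; ring
    rw [e] at this
    exact this
  refine ⟨tw i j β', ?_, ?_⟩
  · rw [← tw_dT, h2, map_pow, tw_io]
    congr 2
    rw [fr_apply, ← pow_mul]
  · have h3 := GT_scale i u _ (tw_mem i j h1)
    have e : u * (2 ^ j * ((q * (q + 1 + 1) : ℕ) : ℤ)) =
        ((q + 1 + 1 : ℕ) : ℤ) * (u * (2 ^ (i + 1) * 2 ^ j)) := by
      rw [hq]; push_cast; ring
    rw [e] at h3
    exact h3

end

end Pool.Agent.Work.MP_701abf_gt
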