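import Pool.Agent.Work.MP_701abf_gt.Pt

/-!
Families of points whose coordinates lie in a weighted span.
-/

namespace Pool.Agent.Work.MP_701abf_gt

open Finset.HasAntidiagonal (antidiagonal mem_antidiagonal)

variable {S : Type*} [CommRing S] [Algebra (ZMod 2) S] {X X' : Type*}

/-- Precomposition as a ring homomorphism. -/
def pc (σ : X' → X) : (X → S) →+* (X' → S) where
  toFun f := fun x => f (σ x)
  map_one' := rfl
  map_mul' _ _ := rfl
  map_zero' := rfl
  map_add' _ _ := rfl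

omit [Algebra (ZMod 2) S] in
@[simp] lemma pc_apply (σ : X' → X) (f : X → S) (x : X') : pc σ f x = f (σ x) := rfl

lemma fil_pc {G : Set ((X → S) × ℤ)} {G' : Set ((X' → S) × ℤ)} (σ : X' → X)
    (h : ∀ g w, (g, w) ∈ G → (fun x => g (σ x)) ∈ fil G' w) {t : ℤ} {f : X → S}
    (hf : f ∈ fil G t) : (fun x => f (σ x)) ∈ fil G' t :=
  fil_map (pc σ) h hf

lemma fil_pc_le {G : Set ((X → S) × ℤ)} {G' : Set ((X' → S) × ℤ)} (σ : X' → X)
    (hG : ∀ g w, (g, w) ∈ G → 0 ≤ w) {t : ℤ}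
    (h : ∀ g w, (g, w) ∈ G → w ≤ t → (fun x => g (σ x)) ∈ fil G' w) {f : X → S}
    (hf : f ∈ fil G t) : (fun x => f (σ x)) ∈ fil G' t :=
  fil_map_le (pc σ) hG h hf

/-- Two substitutions that agree on the generators agree on the weighted span. -/
lemma fil_pc_congr {G : Set ((X → S) × ℤ)} (σ τ : X' → X)
    (h : ∀ g w, (g, w) ∈ G → ∀ x, g (σ x) = g (τ x)) {t : ℤ} {f : X → S}
    (hf : f ∈ fil G t) (x : X') : f (σ x) = f (τ x) := by
  have := fil_congr (f := pc σ) (g := pc τ) (fun g w hg => funext fun x => h g w hg x) hf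
  exact congrFun this x

lemma fil_frob {G : Set ((X → S) × ℤ)} {t : ℤ} {f : X → S} (hf : f ∈ fil G t) (n : ℕ) :
    (fun x => f x ^ 2 ^ n) ∈ fil G (2 ^ n * t) := by
  have := fil_pow hf (2 ^ n)
  push_cast at this
  exact this

/-- The `2^c`-th powers of the coordinates indexed by `M` lie in the weighted span. -/
def Gd (G : Set ((X → S) × ℤ)) (c : ℕ) (M : Set ℕ) (Z : X → Pt S) : Prop :=
  ∀ m ∈ M, (fun x => (Z x).co m ^ 2 ^ c) ∈ fil G (2 ^ c * (2 ^ m - 1))

variable {G : Set ((X → S) × ℤ)} {G' : Set ((X' → S) × ℤ)} {c c' : ℕ} {M M' : Set ℕ}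
  {Z Z' : X → Pt S}

lemma Gd.one : Gd G c M (fun _ => (1 : Pt S)) := by
  intro m _
  rcases Nat.eq_zero_or_pos m with rfl | hm
  · simp only [Pt.co_zero, one_pow, pow_zero, sub_self, mul_zero]
    exact fil_one G
  · have : (fun _ : X => (1 : Pt S).co m ^ 2 ^ c) = 0 := by
      funext x
      rw [Pt.co_one_ne hm.ne', zero_pow (pow_ne_zero _ two_ne_zero)]
      rfl
    rw [this]
    exact Submodule.zero_mem _

lemma Gd.mono_set (h : Gd G c M Z) (hM : M' ⊆ M) : Gd G c M' Z :=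
  fun m hm => h m (hM hm)

lemma Gd.frob (h : Gd G c M Z) (hc : c ≤ c') : Gd G c' M Z := by
  intro m hm
  have h1 := fil_frob (h m hm) (c' - c)
  have e1 : (fun x => ((Z x).co m ^ 2 ^ c) ^ 2 ^ (c' - c)) = fun x => (Z x).co m ^ 2 ^ c' := by
    funext x
    rw [← pow_mul, ← pow_add, Nat.add_sub_cancel' hc]
  have e2 : (2 : ℤ) ^ (c' - c) * (2 ^ c * (2 ^ m - 1)) = 2 ^ c' * (2 ^ m - 1) := by
    rw [← mul_assoc, ← pow_add, Nat.sub_add_cancel hc]
  rw [e1, e2] at h1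
  exact h1

lemma Gd.mul (hM : IsLowerSet M) (h : Gd G c M Z) (h' : Gd G c M Z') :
    Gd G c M (fun x => Z x * Z' x) := by
  intro m hm
  have e1 : (fun x => (Z x * Z' x).co m ^ 2 ^ c) = ∑ p ∈ antidiagonal m,
      (fun x => ((Z x).co p.1 ^ 2 ^ c) ^ 2 ^ p.2) * (fun x => (Z' x).co p.2 ^ 2 ^ c) := by
    funext x
    rw [Pt.co_mul, sum_pow', Finset.sum_apply]
    refine Finset.sum_congr rfl fun p _ => ?_
    rw [Pi.mul_apply, mul_pow, ← pow_mul, ← pow_mul, mul_comm (2 ^ p.2)]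
  rw [e1]
  refine Submodule.sum_mem _ fun p hp => ?_
  have hp' := mem_antidiagonal.1 hp
  have h1 : p.1 ∈ M := hM (by omega) hm
  have h2 : p.2 ∈ M := hM (by omega) hm
  refine fil_mul' (fil_frob (h _ h1) p.2) (h' _ h2) ?_
  rw [← hp', pow_add]
  ring

lemma Gd.inv (hM : IsLowerSet M) (h : Gd G c M Z) : Gd G c M (fun x => (Z x)⁻¹) := by
  intro m
  induction m using Nat.strong_induction_on with
  | _ m ih =>
    intro hm
    rcases Nat.eq_zero_or_pos m with rfl | hm0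
    · simp only [Pt.co_zero, one_pow, pow_zero, sub_self, mul_zero]
      exact fil_one G
    · have e1 : (fun x => (Z x)⁻¹.co m ^ 2 ^ c) = ∑ a ∈ Finset.range m,
          (fun x => ((Z x)⁻¹.co a ^ 2 ^ c) ^ 2 ^ (m - a)) *
            (fun x => (Z x).co (m - a) ^ 2 ^ c) := by
        funext x
        rw [Pt.co_inv _ hm0.ne', sum_pow', Finset.sum_apply]
        refine Finset.sum_congr rfl fun p _ => ?_
        rw [Pi.mul_apply, mul_pow, ← pow_mul, ← pow_mul, mul_comm (2 ^ (m - p))]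
      rw [e1]
      refine Submodule.sum_mem _ fun a ha => ?_
      have ha' := Finset.mem_range.1 ha
      have h1 : a ∈ M := hM (by omega) hm
      have h2 : m - a ∈ M := hM (by omega) hm
      refine fil_mul' (fil_frob (ih a ha' h1) (m - a)) (h _ h2) ?_
      have e2 : (2 : ℤ) ^ m = 2 ^ a * 2 ^ (m - a) := by
        rw [← pow_add]; congr 1; omega
      rw [e2]
      ring

lemma Gd.pc (σ : X' → X) (h : Gd G c M Z)
    (hσ : ∀ g w, (g, w) ∈ G → (fun x => g (σ x)) ∈ fil G' w) :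
    Gd G' c M (fun x => Z (σ x)) :=
  fun m hm => fil_pc σ hσ (h m hm)

lemma Gd.gen {G'' : Set ((X → S) × ℤ)} (h : Gd G c M Z)
    (hσ : ∀ g w, (g, w) ∈ G → g ∈ fil G'' w) : Gd G'' c M Z :=
  fun m hm => fil_mono hσ (h m hm)

lemma Gd.co (h : Gd G c M Z) {m : ℕ} (hm : m ∈ M) :
    (fun x => (Z x).co m ^ 2 ^ c) ∈ fil G (2 ^ c * (2 ^ m - 1)) := h m hm

lemma Gd.co0 (h : Gd G 0 M Z) {m : ℕ} (hm : m ∈ M) :
    (fun x => (Z x).co m) ∈ fil G (2 ^ m - 1) := by
  have := h m hm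
  simpa using this

end Pool.Agent.Work.MP_701abf_gt
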