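import Pool.Agent.Work.MP_701abf_gt.Abs
import Pool.Agent.Work.MP_701abf_gt.Gd

/-!
Homogeneous cochains: functions of sequences of points, the differential, contraction.
-/

namespace Pool.Agent.Work.MP_701abf_gt

section

variable {P M : Type*} [One P] [AddCommGroup M] [Module (ZMod 2) M]

/-- Index shift omitting `j`. -/
def skp (j r : ℕ) : ℕ := if r < j then r else r + 1

lemma skp_lt {j r : ℕ} (h : r < j) : skp j r = r := if_pos h

lemma skp_ge {j r : ℕ} (h : j ≤ r) : skp j r = r + 1 := if_neg (by omega)

/-- Omit the `j`-th point. -/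
def sk {P : Type*} (j : ℕ) (z : ℕ → P) : ℕ → P := fun r => z (skp j r)

/-- Truncate a sequence: entries beyond `n` become `1`. -/
def tr (n : ℕ) (z : ℕ → P) : ℕ → P := fun r => if r ≤ n then z r else 1

/-- The differential from degree `n` to degree `n + 1`. -/
def dd {P M : Type*} [AddCommGroup M] (n : ℕ) (f : (ℕ → P) → M) (z : ℕ → P) : M :=
  ∑ j ∈ Finset.range (n + 2), f (sk j z)

omit [One P] in
lemma dd_dd (n : ℕ) (f : (ℕ → P) → M) (z : ℕ → P) : dd (n + 1) (dd n f) z = 0 := by
  unfold dd
  rw [Finset.sum_sigma']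
  have hsk : ∀ i j, i < j → sk i (sk j z) = sk (j - 1) (sk i z) := by
    intro i j h
    funext r
    simp only [sk]
    congr 1
    unfold skp
    split_ifs <;> omega
  refine Finset.sum_involution
    (fun x _ => if x.2 < x.1 then ⟨x.2, x.1 - 1⟩ else ⟨x.2 + 1, x.1⟩) ?_ ?_ ?_ ?_
  · rintro ⟨j, i⟩ h
    simp only [Finset.mem_sigma, Finset.mem_range] at h
    by_cases hij : i < j
    · simp only [hij, if_true]
      rw [hsk i j hij, add_self']
    · simp only [hij, if_false]
      rw [hsk j (i + 1) (by omega), Nat.add_sub_cancel, add_self']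
  · rintro ⟨j, i⟩ h _
    by_cases hij : i < j
    · simp only [hij, if_true]
      intro h
      have := congrArg Sigma.fst h
      simp only at this
      omega
    · simp only [hij, if_false]
      intro h
      have := congrArg Sigma.fst h
      simp only at this
      omega
  · rintro ⟨j, i⟩ h
    simp only [Finset.mem_sigma, Finset.mem_range] at h ⊢
    by_cases hij : i < j
    · simp only [hij, if_true]
      omega
    · simp only [hij, if_false]
      omega
  · rintro ⟨j, i⟩ h
    by_cases hij : i < j
    · simp only [hij, if_true]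
      have : ¬ (j - 1 < i) := by omega
      simp only [this, if_false]
      have : j - 1 + 1 = j := by omega
      rw [this]
    · simp only [hij, if_false]
      have : j < i + 1 := by omega
      simp only [this, if_true, Nat.add_sub_cancel]

/-- The contraction. -/
def kap (n : ℕ) (f : (ℕ → P) → M) (z : ℕ → P) : M := f (tr n z)

omit [AddCommGroup M] [Module (ZMod 2) M] in
lemma sk_tr {n j : ℕ} (h : j ≤ n + 1) (z : ℕ → P) : sk j (tr (n + 1) z) = tr n (sk j z) := by
  funext r
  unfold sk tr
  by_cases hr : r < j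
  · simp only [skp_lt hr]
    rw [if_pos (by omega), if_pos (by omega)]
  · have hr' : j ≤ r := by omega
    simp only [skp_ge hr']
    by_cases hr2 : r ≤ n
    · rw [if_pos (by omega), if_pos hr2]
    · rw [if_neg (by omega), if_neg hr2]

lemma sk_last_tr (n : ℕ) (z : ℕ → P) : sk (n + 1) (tr n z) = tr n z := by
  funext r
  unfold sk tr skp
  split_ifs <;> first | rfl | omega

lemma kap_id (n : ℕ) (f : (ℕ → P) → M) (hf : ∀ z, f (tr (n + 1) z) = f z) (z : ℕ → P) :
    dd n (kap n f) z + kap (n + 1) (dd (n + 1) f) z = f z := by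
  have h1 : kap (n + 1) (dd (n + 1) f) z = dd n (kap n f) z + f z := by
    unfold kap dd
    rw [Finset.sum_range_succ, sk_last_tr, hf]
    congr 1
    refine Finset.sum_congr rfl fun j hj => ?_
    rw [sk_tr (by have := Finset.mem_range.1 hj; omega)]
  rw [h1, ← add_assoc, add_self', zero_add]

omit [Module (ZMod 2) M] in
lemma kap_id_zero (f : (ℕ → P) → M) (hf : ∀ z, f (tr 0 z) = f z) (z : ℕ → P) :
    kap 0 (dd 0 f) z = f (fun _ => 1) + f z := by
  unfold kap dd
  rw [Finset.sum_range_succ, Finset.sum_range_one, sk_last_tr, hf]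
  congr 1

omit [One P] [Module (ZMod 2) M] in
lemma dd_add (n : ℕ) (f g : (ℕ → P) → M) (z : ℕ → P) :
    dd n (fun z => f z + g z) z = dd n f z + dd n g z := Finset.sum_add_distrib

omit [One P] [Module (ZMod 2) M] in
lemma dd_congr {n : ℕ} {f g : (ℕ → P) → M} (h : ∀ z, f z = g z) (z : ℕ → P) :
    dd n f z = dd n g z := Finset.sum_congr rfl fun _ _ => h _

end

/-! ### The graded space of cochains -/

variable (S : Type*) [CommRing S] [Algebra (ZMod 2) S]

/-- Cochains of all degrees. -/
abbrev Co : Type _ := ℕ → (ℕ → Pt S) → S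

variable {S}

/-- The total differential. -/
def DD : Co S →ₗ[ZMod 2] Co S where
  toFun φ s := match s with
    | 0 => 0
    | s + 1 => fun z => dd s (φ s) z
  map_add' x y := by
    funext s z
    cases s with
    | zero => simp
    | succ s => simp [dd, Finset.sum_add_distrib]
  map_smul' r x := by
    funext s z
    cases s with
    | zero => simp
    | succ s => simp [dd, Finset.smul_sum]

lemma DD_zero (φ : Co S) : DD φ 0 = 0 := rfl

lemma DD_succ (φ : Co S) (s : ℕ) (z : ℕ → Pt S) : DD φ (s + 1) z = dd s (φ s) z := rfl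

lemma DD_DD (φ : Co S) : DD (DD φ) = 0 := by
  funext s z
  rcases s with _ | _ | s
  · rfl
  · simp [DD_succ, dd, DD_zero]
  · have := dd_dd (P := Pt S) s (φ s) z
    exact this

end Pool.Agent.Work.MP_701abf_gt
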