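import Mathlib

/-!
Weighted spans of products of generators.
-/

namespace Pool.Agent.Work.MP_701abf_gt

/-- Products of generators, with their weight. -/
inductive Mon {R : Type*} [Monoid R] (G : Set (R × ℤ)) : ℤ → R → Prop
  | one : Mon G 0 1
  | mul {t w : ℤ} {x g : R} : Mon G t x → (g, w) ∈ G → Mon G (t + w) (x * g)

lemma Mon.mul' {R : Type*} [Monoid R] {G : Set (R × ℤ)} {t t' : ℤ} {x y : R}
    (hx : Mon G t x) (hy : Mon G t' y) : Mon G (t + t') (x * y) := by
  induction hy with
  | one => simpa using hx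
  | mul _ hg ih =>
    rw [← add_assoc, ← mul_assoc]
    exact Mon.mul ih hg

lemma Mon.nonneg {R : Type*} [Monoid R] {G : Set (R × ℤ)} (hG : ∀ g w, (g, w) ∈ G → 0 ≤ w)
    {t : ℤ} {x : R} (hx : Mon G t x) : 0 ≤ t := by
  induction hx with
  | one => exact le_rfl
  | mul _ hg ih => exact add_nonneg ih (hG _ _ hg)

lemma Mon.of_gen {R : Type*} [Monoid R] {G : Set (R × ℤ)} {g : R} {w : ℤ} (h : (g, w) ∈ G) :
    Mon G w g := by
  have := Mon.mul (Mon.one (G := G)) h
  simpa using this

section ring

variable {R : Type*} [Ring R] [Algebra (ZMod 2) R]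

/-- Span of the products of generators of weight exactly `t`. -/
def fil (G : Set (R × ℤ)) (t : ℤ) : Submodule (ZMod 2) R :=
  Submodule.span (ZMod 2) {x | Mon G t x}

lemma fil_of_mon {G : Set (R × ℤ)} {t : ℤ} {x : R} (h : Mon G t x) : x ∈ fil G t :=
  Submodule.subset_span h

lemma fil_one (G : Set (R × ℤ)) : (1 : R) ∈ fil G 0 := fil_of_mon Mon.one

lemma fil_gen {G : Set (R × ℤ)} {g : R} {w : ℤ} (h : (g, w) ∈ G) : g ∈ fil G w :=
  fil_of_mon (Mon.of_gen h)

lemma fil_mul {G : Set (R × ℤ)} {t t' : ℤ} {x y : R} (hx : x ∈ fil G t) (hy : y ∈ fil G t') :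
    x * y ∈ fil G (t + t') := by
  induction hx using Submodule.span_induction with
  | mem a ha =>
    induction hy using Submodule.span_induction with
    | mem b hb => exact fil_of_mon (Mon.mul' ha hb)
    | zero => simp
    | add b c _ _ h1 h2 => rw [mul_add]; exact Submodule.add_mem _ h1 h2
    | smul r b _ h => rw [mul_smul_comm]; exact Submodule.smul_mem _ _ h
  | zero => simp
  | add b c _ _ h1 h2 => rw [add_mul]; exact Submodule.add_mem _ h1 h2
  | smul r b _ h => rw [smul_mul_assoc]; exact Submodule.smul_mem _ _ h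

lemma fil_mul' {G : Set (R × ℤ)} {t t' t'' : ℤ} {x y : R} (hx : x ∈ fil G t)
    (hy : y ∈ fil G t') (h : t + t' = t'') : x * y ∈ fil G t'' := h ▸ fil_mul hx hy

lemma fil_pow {G : Set (R × ℤ)} {t : ℤ} {x : R} (hx : x ∈ fil G t) (n : ℕ) :
    x ^ n ∈ fil G (n * t) := by
  induction n with
  | zero => simpa using fil_one G
  | succ n ih =>
    rw [pow_succ]
    exact fil_mul' ih hx (by push_cast; ring)

lemma fil_eq_zero {G : Set (R × ℤ)} (hG : ∀ g w, (g, w) ∈ G → 0 ≤ w) {t : ℤ} (ht : t < 0)
    {x : R} (hx : x ∈ fil G t) : x = 0 := by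
  induction hx using Submodule.span_induction with
  | mem a ha =>
    have := Mon.nonneg hG (show Mon G t a from ha)
    omega
  | zero => rfl
  | add b c _ _ h1 h2 => rw [h1, h2, add_zero]
  | smul r b _ h => rw [h, smul_zero]

variable {R' : Type*} [Ring R'] [Algebra (ZMod 2) R']

/-- Transport of weighted spans along a ring homomorphism, with weights scaled by `c`,
where only the generators of weight at most `t` matter. -/
lemma fil_map_scale_le {G : Set (R × ℤ)} {G' : Set (R' × ℤ)} (f : R →+* R') (c : ℤ)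
    (hG : ∀ g w, (g, w) ∈ G → 0 ≤ w) {t : ℤ}
    (h : ∀ g w, (g, w) ∈ G → w ≤ t → f g ∈ fil G' (c * w)) {x : R}
    (hx : x ∈ fil G t) : f x ∈ fil G' (c * t) := by
  induction hx using Submodule.span_induction with
  | mem a ha =>
    change Mon G t a at ha
    induction ha with
    | one => simpa using fil_one G'
    | @mul t w x g hx hg ih =>
      have h1 := hG _ _ hg
      have h2 := Mon.nonneg hG hx
      rw [map_mul]
      refine fil_mul' (ih fun g' w' hg' hw' => h g' w' hg' (by omega))
        (h g w hg (by omega)) (by ring)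
  | zero => simp
  | add b c _ _ h1 h2 => rw [map_add]; exact Submodule.add_mem _ h1 h2
  | smul r b _ h =>
    have : f (r • b) = r • f b := ZMod.map_smul f.toAddMonoidHom r b
    rw [this]; exact Submodule.smul_mem _ _ h

/-- Transport of weighted spans along a ring homomorphism, with weights scaled by `c`. -/
lemma fil_map_scale {G : Set (R × ℤ)} {G' : Set (R' × ℤ)} (f : R →+* R') (c : ℤ)
    (h : ∀ g w, (g, w) ∈ G → f g ∈ fil G' (c * w)) {t : ℤ} {x : R}
    (hx : x ∈ fil G t) : f x ∈ fil G' (c * t) := by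
  induction hx using Submodule.span_induction with
  | mem a ha =>
    change Mon G t a at ha
    induction ha with
    | one => simpa using fil_one G'
    | @mul t w x g hx hg ih =>
      rw [map_mul]
      exact fil_mul' ih (h g w hg) (by ring)
  | zero => simp
  | add b c _ _ h1 h2 => rw [map_add]; exact Submodule.add_mem _ h1 h2
  | smul r b _ h =>
    have : f (r • b) = r • f b := ZMod.map_smul f.toAddMonoidHom r b
    rw [this]; exact Submodule.smul_mem _ _ h

/-- Transport of weighted spans along a ring homomorphism. -/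
lemma fil_map {G : Set (R × ℤ)} {G' : Set (R' × ℤ)} (f : R →+* R')
    (h : ∀ g w, (g, w) ∈ G → f g ∈ fil G' w) {t : ℤ} {x : R}
    (hx : x ∈ fil G t) : f x ∈ fil G' t := by
  have := fil_map_scale f 1 (G := G) (G' := G') (fun g w hg => by simpa using h g w hg) hx
  simpa using this

lemma fil_map_le {G : Set (R × ℤ)} {G' : Set (R' × ℤ)} (f : R →+* R')
    (hG : ∀ g w, (g, w) ∈ G → 0 ≤ w) {t : ℤ}
    (h : ∀ g w, (g, w) ∈ G → w ≤ t → f g ∈ fil G' w) {x : R}
    (hx : x ∈ fil G t) : f x ∈ fil G' t := by
  have := fil_map_scale_le f 1 (G := G) (G' := G') hG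
    (fun g w hg hw => by simpa using h g w hg hw) hx
  simpa using this

lemma fil_mono {G G' : Set (R × ℤ)} (h : ∀ g w, (g, w) ∈ G → g ∈ fil G' w) {t : ℤ} {x : R}
    (hx : x ∈ fil G t) : x ∈ fil G' t :=
  fil_map (RingHom.id R) (by simpa using h) hx

lemma fil_congr {G : Set (R × ℤ)} {f g : R →+* R'} (h : ∀ x w, (x, w) ∈ G → f x = g x)
    {t : ℤ} {x : R} (hx : x ∈ fil G t) : f x = g x := by
  induction hx using Submodule.span_induction with
  | mem a ha =>
    change Mon G t a at ha
    induction ha with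
    | one => simp
    | @mul t w x y hx hg ih => rw [map_mul, map_mul, ih, h _ _ hg]
  | zero => simp
  | add b c _ _ h1 h2 => rw [map_add, map_add, h1, h2]
  | smul r b _ h =>
    have h1 : f (r • b) = r • f b := ZMod.map_smul f.toAddMonoidHom r b
    have h2 : g (r • b) = r • g b := ZMod.map_smul g.toAddMonoidHom r b
    rw [h1, h2, h]

end ring

section comm

variable {R : Type*} [CommRing R] [Algebra (ZMod 2) R]

/-- Adjoining one more generator to a weighted span. -/
lemma fil_insert {G : Set (R × ℤ)} {X : R} {v t : ℤ} {x : R}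
    (hx : x ∈ fil (insert (X, v) G) t) :
    ∃ (B : ℕ) (ψ : ℕ → R), (∀ b : ℕ, ψ b ∈ fil G (t - (b : ℤ) * v)) ∧
      x = ∑ b ∈ Finset.range B, X ^ b * ψ b := by
  induction hx using Submodule.span_induction with
  | mem a ha =>
    change Mon _ t a at ha
    have key : ∃ (b : ℕ) (y : R), Mon G (t - b * v) y ∧ a = X ^ b * y := by
      induction ha with
      | one => exact ⟨0, 1, by simpa using Mon.one, by simp⟩
      | @mul t w x g hx hg ih =>
        obtain ⟨b, y, hy, rfl⟩ := ih
        rcases hg with hg | hg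
        · obtain ⟨rfl, rfl⟩ := Prod.mk.inj hg
          refine ⟨b + 1, y, ?_, by ring⟩
          have : t + w - ((b + 1 : ℕ) : ℤ) * w = t - b * w := by push_cast; ring
          rw [this]; exact hy
        · refine ⟨b, y * g, ?_, by ring⟩
          have : t + w - (b : ℤ) * v = t - b * v + w := by ring
          rw [this]; exact Mon.mul hy hg
    obtain ⟨b, y, hy, rfl⟩ := key
    refine ⟨b + 1, fun b' => if b' = b then y else 0, ?_, ?_⟩
    · intro b'
      by_cases h : b' = b
      · subst h; simpa using fil_of_mon hy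
      · simp [h]
    · rw [Finset.sum_eq_single b]
      · simp
      · intro b' _ h; simp [h]
      · simp
  | zero => exact ⟨0, fun _ => 0, by simp, by simp⟩
  | add x y _ _ h1 h2 =>
    obtain ⟨B, ψ, h1, rfl⟩ := h1
    obtain ⟨B', ψ', h2, rfl⟩ := h2
    refine ⟨max B B', fun b => (if b < B then ψ b else 0) + (if b < B' then ψ' b else 0), ?_, ?_⟩
    · intro b
      refine Submodule.add_mem _ ?_ ?_
      · split_ifs
        · exact h1 b
        · exact Submodule.zero_mem _
      · split_ifs
        · exact h2 b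
        · exact Submodule.zero_mem _
    · simp only [mul_add, Finset.sum_add_distrib, mul_ite, mul_zero]
      congr 1
      · rw [← Finset.sum_filter]
        refine Finset.sum_congr ?_ fun _ _ => rfl
        ext b
        simp only [Finset.mem_range, Finset.mem_filter, lt_max_iff]
        tauto
      · rw [← Finset.sum_filter]
        refine Finset.sum_congr ?_ fun _ _ => rfl
        ext b
        simp only [Finset.mem_range, Finset.mem_filter, lt_max_iff]
        tauto
  | smul r x _ h =>
    obtain ⟨B, ψ, h, rfl⟩ := h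
    refine ⟨B, fun b => r • ψ b, fun b => Submodule.smul_mem _ _ (h b), ?_⟩
    rw [Finset.smul_sum]
    refine Finset.sum_congr rfl fun b _ => ?_
    rw [mul_smul_comm]

lemma fil_insert_mem {G : Set (R × ℤ)} {X : R} {v t : ℤ} (B : ℕ) (ψ : ℕ → R)
    (h : ∀ b : ℕ, b < B → ψ b ∈ fil G (t - (b : ℤ) * v)) :
    ∑ b ∈ Finset.range B, X ^ b * ψ b ∈ fil (insert (X, v) G) t := by
  refine Submodule.sum_mem _ fun b hb => ?_
  have h1 : X ^ b ∈ fil (insert (X, v) G) (b * v) := fil_pow (fil_gen (Or.inl rfl)) b
  have h2 : ψ b ∈ fil (insert (X, v) G) (t - b * v) :=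
    fil_mono (fun g w hg => fil_gen (Or.inr hg)) (h b (Finset.mem_range.1 hb))
  exact fil_mul' h1 h2 (by ring)

end comm

/-! ### Independence of the powers of a generator -/

/-- Polynomial independence over an infinite domain, by translation. -/
lemma indep {Ω S : Type*} [CommRing S] [IsDomain S] [Infinite S] (X : Ω → S)
    (τ : S → Ω → Ω) (e : ℕ) (he : 0 < e)
    (hX : ∀ c z, X (τ c z) = X z + c ^ e)
    (B : ℕ) (ψ : ℕ → Ω → S) (hψ : ∀ b, b < B → ∀ c z, ψ b (τ c z) = ψ b z)
    (h0 : ∀ z, ∑ b ∈ Finset.range B, X z ^ b * ψ b z = 0) :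
    ∀ b, b < B → ∀ z, ψ b z = 0 := by
  intro b hb z
  -- the polynomial `∑ ψ_b (X + Y^e)^b` vanishes identically
  set p : Polynomial S := ∑ b ∈ Finset.range B,
    Polynomial.C (ψ b z) * (Polynomial.X) ^ b with hp
  have h1 : ∀ c : S, (p.comp (Polynomial.C (X z) + Polynomial.X ^ e)).eval c = 0 := by
    intro c
    have := h0 (τ c z)
    rw [Polynomial.eval_comp, hp, Polynomial.eval_finsetSum]
    rw [← this]
    refine Finset.sum_congr rfl fun b hb => ?_
    rw [hX, hψ b (Finset.mem_range.1 hb)]
    simp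
    ring
  have h2 : p.comp (Polynomial.C (X z) + Polynomial.X ^ e) = 0 :=
    Polynomial.funext (by simpa using h1)
  have h3 : p = 0 := by
    by_contra hne
    rw [Polynomial.comp_eq_zero_iff] at h2
    rcases h2 with h2 | ⟨_, h2⟩
    · exact hne h2
    · have h4 := congrArg (fun q => Polynomial.coeff q e) h2
      simp only [Polynomial.coeff_add, Polynomial.coeff_C_of_ne_zero he.ne',
        Polynomial.coeff_X_pow, if_true, zero_add] at h4
      exact one_ne_zero h4
  have h4 := congrArg (fun q => Polynomial.coeff q b) h3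
  simp only [hp, Polynomial.finsetSum_coeff, Polynomial.coeff_C_mul, Polynomial.coeff_X_pow,
    Polynomial.coeff_zero] at h4
  rw [Finset.sum_eq_single b] at h4
  · simpa using h4
  · intro b' _ hb'; simp [Ne.symm hb']
  · intro hb'; exact absurd (Finset.mem_range.2 hb) hb'

end Pool.Agent.Work.MP_701abf_gt
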