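import Pool.Agent.Work.MP_701abf_gt.Null

/-!
Assembly: cocycles below a line become coboundaries after iterated Frobenius.
-/

namespace Pool.Agent.Work.MP_701abf_gt

open Filter

/-- Exponentials dominate polynomials. -/
lemma exp_dom (K m : ℕ) : ∃ L : ℕ, ∀ l ≥ L, K * (l + 1) ^ m ≤ 2 ^ l := by
  have h := tendsto_pow_const_div_const_pow_of_one_lt m (show (1 : ℝ) < 2 by norm_num)
  have h2 := (h.comp (tendsto_add_atTop_nat 1)).eventually
    (gt_mem_nhds (show (0 : ℝ) < 1 / (2 * ((K : ℝ) + 1)) by positivity))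
  obtain ⟨L, hL⟩ := eventually_atTop.1 h2
  refine ⟨L, fun l hl => ?_⟩
  have h3 := hL l hl
  simp only [Function.comp_apply] at h3
  rw [div_lt_div_iff₀ (by positivity) (by positivity)] at h3
  have h4 : ((K * (l + 1) ^ m : ℕ) : ℝ) ≤ ((2 ^ l : ℕ) : ℝ) := by
    push_cast at h3 ⊢
    have h5 : (0 : ℝ) ≤ ((l : ℝ) + 1) ^ m := by positivity
    have h6 : (2 : ℝ) ^ (l + 1) = 2 * 2 ^ l := by ring
    rw [h6] at h3
    nlinarith
  exact_mod_cast h4

/-- The numerical estimate. -/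
lemma num (m a b : ℕ) (ha : 1 ≤ a) (hb : 1 ≤ b) : ∃ S0 : ℕ, ∀ σ ≥ S0, ∃ l : ℕ,
    a * σ < 2 ^ l ∧ (l * (2 ^ m + 1) + 1) ^ m ≤ σ / b := by
  obtain ⟨L, hL⟩ := exp_dom (b * (2 ^ m + 2) ^ m * a) m
  refine ⟨2 ^ L, fun σ hσ => ?_⟩
  have hL0 : 0 < 2 ^ L := by positivity
  set x := a * σ with hx
  have hσx : σ ≤ x := by
    calc σ = 1 * σ := by ring
      _ ≤ a * σ := Nat.mul_le_mul_right _ ha
  have hx0 : x ≠ 0 := by omega
  refine ⟨Nat.log 2 x + 1, Nat.lt_pow_succ_log_self (by norm_num) x, ?_⟩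
  set l := Nat.log 2 x with hl
  have h2 : 2 ^ l ≤ x := Nat.pow_log_le_self 2 hx0
  have h3 : L ≤ l := Nat.le_log_of_pow_le (by norm_num) (by omega)
  have h4 := hL l h3
  have h5 : ((l + 1) * (2 ^ m + 1) + 1) ^ m ≤ (2 ^ m + 2) ^ m * (l + 1) ^ m := by
    rw [← mul_pow]
    refine Nat.pow_le_pow_left ?_ m
    nlinarith
  rw [Nat.le_div_iff_mul_le (by omega)]
  have h6 : (((l + 1) * (2 ^ m + 1) + 1) ^ m * b) * a ≤ σ * a := by
    calc _ ≤ ((2 ^ m + 2) ^ m * (l + 1) ^ m * b) * a :=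
          Nat.mul_le_mul_right _ (Nat.mul_le_mul_right _ h5)
      _ = b * (2 ^ m + 2) ^ m * a * (l + 1) ^ m := by ring
      _ ≤ 2 ^ l := h4
      _ ≤ x := h2
      _ = σ * a := by rw [hx]; ring
  exact Nat.le_of_mul_le_mul_right h6 (by omega)

variable {S : Type} [CommRing S] [Algebra (ZMod 2) S]

lemma PF_anti' {N n i k k' : ℕ} (h : k ≤ k') {t : ℤ} {φ : Co S} (hφ : φ ∈ PF N n i k' t) :
    φ ∈ PF N n i k t := by
  induction h with
  | refl => exact hφ
  | step _ ih => exact ih (PF_anti hφ)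

lemma NullP.mono {N n i r r' : ℕ} {T0 : ℤ} (h : NullP S N n i r T0) (hr : r ≤ r') :
    NullP S N n i r' T0 :=
  fun k t φ ht hφ hd => h k t φ ht (PF_anti' (by omega) hφ) hd

/-- The vanishing result without coefficients. -/
lemma nullP_all [IsDomain S] [Infinite S] (N m l : ℕ) (hN : aa m ≤ N) {T0 : ℤ}
    (hl : T0 < 2 ^ l) : NullP S N (m + 1) 1 ((l * (2 ^ m + 1) + 1) ^ m) T0 := by
  have key : ∀ d, d ≤ m → NullP S N (m + 1) (m + 1 - d) ((l * (2 ^ m + 1) + 1) ^ d) T0 := by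
    intro d
    induction d with
    | zero =>
      intro _
      rw [pow_zero, Nat.sub_zero]
      exact nullP_base (fun j hj => (aa_mono (by omega)).trans hN) T0
    | succ d ih =>
      intro hd
      obtain ⟨i, hi⟩ : ∃ i, m = i + 1 + d := ⟨m - d - 1, by omega⟩
      have h1 := ih (by omega)
      rw [show m + 1 - d = i + 1 + 1 by omega] at h1
      rw [show m + 1 - (d + 1) = i + 1 by omega]
      refine (nullP_step hl h1).mono ?_
      rw [pow_succ]
      refine Nat.mul_le_mul_left _ ?_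
      have h3 : 2 ^ (i + 1) ≤ 2 ^ m := Nat.pow_le_pow_right (by norm_num) (by omega)
      exact Nat.add_le_add_right (Nat.mul_le_mul_left l (Nat.add_le_add_right h3 1)) 1
  have := key m le_rfl
  rw [show m + 1 - m = 1 by omega] at this
  exact this

/-- Frobenius and the spaces of cochains. -/
lemma fil_GS_frob {N n k s : ℕ} {t : ℤ} {f : (ℕ → Pt S) → S}
    (hf : f ∈ fil (GS 0 n 1 k s) t) :
    (fun z => f z ^ 2 ^ N) ∈ fil (GS (S := S) N n 1 k s) (2 ^ N * t) := by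
  refine fil_map_scale (fr N) (2 ^ N) ?_ hf
  intro g w hg
  have : Gn 0 n 1 k s g w := hg
  cases this with
  | coef m hm =>
    have : m = 0 := by omega
    subst this
    rw [pow_zero, sub_self, mul_zero, mul_zero]
    have e : fr N (fun z : ℕ → Pt S => (z 0).co 0 ^ 2 ^ aa 0) = 1 := by
      funext z
      simp
    rw [e]
    exact fil_one _
  | free r m h => exact fil_frob (fil_gen (Gn.free r m h)) N
  | fro r m h hm =>
    have e : fr N (fun z : ℕ → Pt S => (slot r z).co m ^ 2 ^ 0) =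
        fun z => (slot r z).co m ^ 2 ^ N := by
      funext z
      simp
    rw [e, pow_zero, one_mul]
    exact fil_gen (Gn.fro r m h hm)

lemma fil_GS_free {N n n' k s : ℕ} {t : ℤ} {f : (ℕ → Pt S) → S}
    (hf : f ∈ fil (GS N n 1 k s) t) : f ∈ fil (GS (S := S) 0 n' 1 0 s) t := by
  refine fil_mono ?_ hf
  intro g w hg
  have : Gn N n 1 k s g w := hg
  cases this with
  | coef m hm => exact fil_gen (Gn.coef m hm)
  | free r m h => exact fil_gen (Gn.free r m (by omega))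
  | fro r m h hm => exact fil_frob (fil_gen (Gn.free r m (by omega))) N

lemma dd_frob (s N : ℕ) (f : (ℕ → Pt S) → S) (z : ℕ → Pt S) :
    dd s (fun z => f z ^ 2 ^ N) z = dd s f z ^ 2 ^ N := by
  unfold dd
  rw [sum_pow']

/-- The main result for functions. -/
theorem main_fun [IsDomain S] [Infinite S] (m c : ℕ) (hc : 1 ≤ c) : ∃ S0 : ℕ, ∀ s ≥ S0, ∀ t : ℕ,
    c * t ≤ (c * (2 ^ (m + 1) - 1) - 1) * (s + 1) →
    ∀ p ∈ fil (GS (S := S) 0 (m + 1) 1 0 (s + 1)) t,
    (∀ z, dd (s + 1) p z = 0) → ∀ j ≥ aa m,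
    ∃ q ∈ fil (GS (S := S) 0 (m + 1) 1 0 s) ((2 ^ j * t : ℕ) : ℤ),
      ∀ z, dd s q z = p z ^ 2 ^ j := by
  have hQ : 1 ≤ 2 ^ (m + 1) - 1 := by
    have : 2 ^ 1 ≤ 2 ^ (m + 1) := Nat.pow_le_pow_right (by norm_num) (by omega)
    omega
  set Q := 2 ^ (m + 1) - 1 with hQd
  have hcQ : 1 ≤ c * Q := Nat.mul_pos hc hQ
  obtain ⟨S0, hnum⟩ := num m (2 ^ aa m * Q) (c * Q) (Nat.mul_pos (by positivity) hQ) hcQ
  refine ⟨S0, ?_⟩
  intro s hs t ht p hp hd j hj
  set N := aa m with hN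
  obtain ⟨l, hl, hl2⟩ := hnum (s + 1) (by omega)
  set r := (l * (2 ^ m + 1) + 1) ^ m with hr
  have htQ : t ≤ Q * (s + 1) := by
    have h1 : c * t ≤ c * (Q * (s + 1)) := by
      calc c * t ≤ (c * Q - 1) * (s + 1) := ht
        _ ≤ (c * Q) * (s + 1) := Nat.mul_le_mul_right _ (Nat.sub_le _ _)
        _ = c * (Q * (s + 1)) := by ring
    exact Nat.le_of_mul_le_mul_left h1 hc
  have hT : ((2 ^ N * t : ℕ) : ℤ) < 2 ^ l := by
    have : 2 ^ N * t < 2 ^ l := lt_of_le_of_lt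
      (by rw [mul_assoc]; exact Nat.mul_le_mul_left _ htQ) hl
    exact_mod_cast this
  have hnull := nullP_all (S := S) N m l le_rfl (T0 := ((2 ^ N * t : ℕ) : ℤ)) hT
  set k0 := (s + 1) / (c * Q) with hk0
  have hk0s : k0 ≤ s + 1 := Nat.div_le_self _ _
  -- reach depth `k0`
  obtain ⟨W, hW, hW2⟩ := depth_iter m s k0 hp hd hk0s (by
    intro k hk
    have h1 : k * (c * Q) < s + 1 :=
      lt_of_lt_of_le (Nat.mul_lt_mul_of_pos_right hk hcQ) (Nat.div_mul_le_self _ _)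
    have h2 : ((2 : ℤ) ^ (m + 1) - 1) = (Q : ℤ) := by
      rw [hQd, Nat.cast_sub Nat.one_le_two_pow]
      push_cast
      ring
    rw [h2]
    have h3 : ((c * Q - 1 : ℕ) : ℤ) = (c : ℤ) * Q - 1 := by
      rw [Nat.cast_sub hcQ]
      push_cast
      ring
    have h4 : (c : ℤ) * t ≤ ((c : ℤ) * Q - 1) * (s + 1) := by
      rw [← h3]
      exact_mod_cast ht
    have h5 : (k : ℤ) * (c * Q) < s + 1 := by exact_mod_cast h1
    have h6 : (0 : ℤ) < c := by exact_mod_cast hc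
    have h7 : (c : ℤ) * t < c * (Q * ((s : ℤ) + 1 - k)) := by nlinarith
    exact lt_of_mul_lt_mul_left h7 h6.le)
  set p' : (ℕ → Pt S) → S := fun z => p z + dd s W z with hp'
  have hd' : ∀ z, dd (s + 1) p' z = 0 := by
    intro z
    rw [hp', dd_add, hd, zero_add]
    exact dd_dd s W z
  -- the Frobenius power
  have hΦ : (fun z => p' z ^ 2 ^ N) ∈ fil (GS (S := S) N (m + 1) 1 k0 (s + 1)) (2 ^ N * t) :=
    fil_GS_frob hW2
  set Φ : Co S := fun s' => if s' = s + 1 then fun z => p' z ^ 2 ^ N else 0 with hΦd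
  have hΦs : Φ (s + 1) = fun z => p' z ^ 2 ^ N := by rw [hΦd]; simp
  have hΦn : ∀ s', s' ≠ s + 1 → Φ s' = 0 := by
    intro s' h
    rw [hΦd]
    simp [h]
  have hkr : k0 = (k0 - r) + r := by omega
  have hΦm : Φ ∈ PF N (m + 1) 1 ((k0 - r) + r) ((2 ^ N * t : ℕ) : ℤ) := by
    rw [← hkr]
    intro s'
    by_cases h : s' = s + 1
    · subst h
      refine ⟨fun h => absurd h (by omega), fun _ => ?_⟩
      rw [hΦs]
      push_cast
      exact hΦ
    · rw [hΦn s' h]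
      exact ⟨fun _ => rfl, fun _ => Submodule.zero_mem _⟩
  have hΦD : DD Φ = 0 := by
    funext s' z
    cases s' with
    | zero => rfl
    | succ s' =>
      rw [DD_succ]
      by_cases h : s' = s + 1
      · subst h
        rw [hΦs, dd_frob, hd', zero_pow (pow_ne_zero _ two_ne_zero)]
        rfl
      · rw [hΦn s' h]
        simp [dd]
  obtain ⟨u, hu, hu2⟩ := hnull (k0 - r) _ Φ le_rfl hΦm hΦD
  have hu3 : ∀ z, dd s (u s) z = p' z ^ 2 ^ N := by
    intro z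
    have := congrFun (congrFun hu2 (s + 1)) z
    rw [DD_succ, hΦs] at this
    exact this
  have hu4 : u s ∈ fil (GS (S := S) 0 (m + 1) 1 0 s) ((2 ^ N * t : ℕ) : ℤ) := by
    by_cases h : k0 - r ≤ s
    · exact fil_GS_free ((hu s).2 h)
    · rw [(hu s).1 (by omega)]
      exact Submodule.zero_mem _
  have hW3 : (fun z => W z ^ 2 ^ N) ∈ fil (GS (S := S) 0 (m + 1) 1 0 s)
      ((2 ^ N * t : ℕ) : ℤ) := by
    have := fil_frob hW N
    push_cast
    exact this
  have hq : (u s + fun z => W z ^ 2 ^ N) ∈ fil (GS (S := S) 0 (m + 1) 1 0 s)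
      ((2 ^ N * t : ℕ) : ℤ) := Submodule.add_mem _ hu4 hW3
  refine ⟨fun z => (u s z + W z ^ 2 ^ N) ^ 2 ^ (j - N), ?_, ?_⟩
  · have h1 := fil_frob hq (j - N)
    have e : ((2 ^ j * t : ℕ) : ℤ) = 2 ^ (j - N) * ((2 ^ N * t : ℕ) : ℤ) := by
      push_cast
      rw [← mul_assoc, ← pow_add, Nat.sub_add_cancel hj]
    rw [e]
    exact h1
  · intro z
    rw [dd_frob, dd_add, hu3, dd_frob, ← add_pow', hp']
    simp only
    rw [add_add_self, ← pow_mul, ← pow_add, Nat.add_sub_cancel' hj]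

end Pool.Agent.Work.MP_701abf_gt
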