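import Pool.Agent.Work.MP_701abf_gt.Spaces

/-!
Vanishing below the line for cochains with right coefficients in few coordinates.
-/

namespace Pool.Agent.Work.MP_701abf_gt

variable {S : Type*} [CommRing S] [Algebra (ZMod 2) S] {Q : Type*}

/-- Generators of the spaces of cochains with right coefficients and parameters. -/
inductive Gq (GY : Set ((Q → S) × ℤ)) (j m : ℕ) : ((ℕ → Pt S) × Q → S) → ℤ → Prop
  | free (r a : ℕ) (h : r + 1 ≤ m) : Gq GY j m (fun x => (slot r x.1).co a) (2 ^ a - 1)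
  | last (a : ℕ) (h : a < j) : Gq GY j m (fun x => ((x.1 m)⁻¹).co a) (2 ^ a - 1)
  | par (g : Q → S) (w : ℤ) (h : (g, w) ∈ GY) : Gq GY j m (fun x => g x.2) w

/-- Generators as a set. -/
def GQ (GY : Set ((Q → S) × ℤ)) (j m : ℕ) : Set (((ℕ → Pt S) × Q → S) × ℤ) :=
  {p | Gq GY j m p.1 p.2}

variable {GY : Set ((Q → S) × ℤ)} {j m : ℕ}

lemma GQ_nonneg (hGY : ∀ g w, (g, w) ∈ GY → 0 ≤ w) :
    ∀ (g : (ℕ → Pt S) × Q → S) (w : ℤ), (g, w) ∈ GQ GY j m → 0 ≤ w := by
  rintro g w h
  have hx := two_pow_sub_one_nonneg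
  have : Gq GY j m g w := h
  cases this with
  | free r a h => exact hx a
  | last a h => exact hx a
  | par g w h => exact hGY _ _ h

lemma gq_free {r : ℕ} (h : r + 1 ≤ m) :
    Gd (GQ GY j m) 0 Set.univ (fun x => slot r x.1) := by
  intro a _
  have h1 : (fun x : (ℕ → Pt S) × Q => (slot r x.1).co a) ∈ fil (GQ GY j m) (2 ^ a - 1) :=
    fil_gen (Gq.free r a h)
  simpa using h1

lemma gq_last : Gd (GQ GY j m) 0 (Set.Iio j) (fun x => (x.1 m)⁻¹) := by
  intro a ha
  have h1 : (fun x : (ℕ → Pt S) × Q => ((x.1 m)⁻¹).co a) ∈ fil (GQ GY j m) (2 ^ a - 1) :=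
    fil_gen (Gq.last a ha)
  simpa using h1

/-- Substitution. -/
lemma GQ_subst {X : Type*} {G' : Set ((X → S) × ℤ)} (σ : X → (ℕ → Pt S) × Q)
    (h1 : ∀ r, r + 1 ≤ m → Gd G' 0 Set.univ (fun x => slot r (σ x).1))
    (h2 : Gd G' 0 (Set.Iio j) (fun x => ((σ x).1 m)⁻¹))
    (h3 : ∀ g w, (g, w) ∈ GY → (fun x => g (σ x).2) ∈ fil G' w)
    {t : ℤ} {f : (ℕ → Pt S) × Q → S} (hf : f ∈ fil (GQ GY j m) t) :
    (fun z => f (σ z)) ∈ fil G' t := by
  refine fil_pc σ ?_ hf
  intro g w hg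
  have : Gq GY j m g w := hg
  cases this with
  | free r a h => exact (h1 r h).co0 (Set.mem_univ _)
  | last a h => exact h2.co0 h
  | par g w h => exact h3 g w h

lemma GQ_par {g : Q → S} {w : ℤ} (h : (g, w) ∈ GY) :
    (fun x : (ℕ → Pt S) × Q => g x.2) ∈ fil (GQ GY j m) w := fil_gen (Gq.par g w h)

/-- Omission of a point. -/
lemma fil_skq {i : ℕ} {t : ℤ} {f : (ℕ → Pt S) × Q → S}
    (hf : f ∈ fil (GQ GY j m) t) :
    (fun x : (ℕ → Pt S) × Q => f (sk i x.1, x.2)) ∈ fil (GQ GY j (m + 1)) t := by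
  refine GQ_subst (fun x : (ℕ → Pt S) × Q => (sk i x.1, x.2)) ?_ ?_ ?_ hf
  · intro r hr
    have h1 : Gd (GQ GY j (m + 1)) 0 Set.univ (fun x => slot r x.1) := gq_free (by omega)
    have h2 : Gd (GQ GY j (m + 1)) 0 Set.univ (fun x => slot (r + 1) x.1) := gq_free (by omega)
    rcases lt_trichotomy (r + 1) i with h | h | h
    · simp only [slot_sk_lt h]; exact h1
    · subst h
      simp only [slot_sk_eq]; exact Gd.mul isLowerSet_univ h1 h2
    · simp only [slot_sk_gt (show i ≤ r by omega)]; exact h2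
  · by_cases h : m < i
    · have e : ∀ x : (ℕ → Pt S) × Q, (sk i x.1 m)⁻¹ = slot m x.1 * (x.1 (m + 1))⁻¹ := by
        intro x
        simp [sk, skp_lt h, slot]
      simp only [e]
      exact Gd.mul (isLowerSet_Iio j) ((gq_free (by omega)).mono_set (Set.subset_univ _)) gq_last
    · have e : ∀ x : (ℕ → Pt S) × Q, (sk i x.1 m)⁻¹ = (x.1 (m + 1))⁻¹ := by
        intro x
        simp [sk, skp_ge (show i ≤ m by omega)]
      simp only [e]
      exact gq_last
  · intro g w h
    exact GQ_par h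

lemma fil_trq {t : ℤ} {f : (ℕ → Pt S) × Q → S} (hf : f ∈ fil (GQ GY j m) t)
    (x : (ℕ → Pt S) × Q) : f (tr m x.1, x.2) = f x := by
  refine fil_pc_congr (fun x => (tr m x.1, x.2)) (fun x => x) ?_ hf x
  intro g w hg x
  have : Gq GY j m g w := hg
  cases this with
  | free r a h =>
    have h1 : slot r (tr m x.1) = slot r x.1 := by
      unfold slot tr
      rw [if_pos (by omega), if_pos (by omega)]
    simp only [h1]
  | last a h => simp [tr]
  | par g w h => rfl

/-- Left translation of a sequence. -/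
def lt (h : Pt S) (z : ℕ → Pt S) : ℕ → Pt S := fun r => h * z r

lemma slot_lt (h : Pt S) (r : ℕ) (z : ℕ → Pt S) : slot r (lt h z) = slot r z := by
  unfold slot lt
  group

lemma fil_ltq {i : ℕ} (hj : j ≤ i + 1) (c : S) {t : ℤ} {f : (ℕ → Pt S) × Q → S}
    (hf : f ∈ fil (GQ GY j m) t)
    (x : (ℕ → Pt S) × Q) : f (lt (Pt.el i c)⁻¹ x.1, x.2) = f x := by
  refine fil_pc_congr (fun x => (lt (Pt.el i c)⁻¹ x.1, x.2)) (fun x => x) ?_ hf x
  intro g w hg x
  have : Gq GY j m g w := hg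
  cases this with
  | free r a h => simp only [slot_lt]
  | last a h =>
    have e : (lt (Pt.el i c)⁻¹ x.1 m)⁻¹ = (x.1 m)⁻¹ * Pt.el i c := by simp [lt]
    simp only [e]
    exact Pt.co_mul_el_lt _ _ _ (by omega)
  | par g w h => rfl

/-- The differential with parameters. -/
def dq (n : ℕ) (f : (ℕ → Pt S) × Q → S) (x : (ℕ → Pt S) × Q) : S :=
  dd n (fun z => f (z, x.2)) x.1

lemma dq_dq (n : ℕ) (f : (ℕ → Pt S) × Q → S) (x : (ℕ → Pt S) × Q) :
    dq (n + 1) (dq n f) x = 0 := dd_dd n (fun z => f (z, x.2)) x.1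

omit [Algebra (ZMod 2) S] in
lemma dq_add (n : ℕ) (f g : (ℕ → Pt S) × Q → S) (x : (ℕ → Pt S) × Q) :
    dq n (fun x => f x + g x) x = dq n f x + dq n g x := by
  simp only [dq, dd, Finset.sum_add_distrib]

lemma fil_dq {t : ℤ} {f : (ℕ → Pt S) × Q → S} (hf : f ∈ fil (GQ GY j m) t) :
    dq m f ∈ fil (GQ GY j (m + 1)) t := by
  have e : dq m f = ∑ i ∈ Finset.range (m + 2),
      fun x : (ℕ → Pt S) × Q => f (sk i x.1, x.2) := by
    funext x
    rw [dq, dd, Finset.sum_apply]
  rw [e]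
  exact Submodule.sum_mem _ fun i _ => fil_skq hf

/-- Vanishing of the cohomology in weight `≤ T` and below the line of slope `2 ^ j - 1`. -/
def RR (GY : Set ((Q → S) × ℤ)) (T : ℤ) (j : ℕ) : Prop :=
  ∀ (m : ℕ) (t : ℤ) (f : (ℕ → Pt S) × Q → S), t ≤ T → t < (2 ^ j - 1) * (m + 1) →
    f ∈ fil (GQ GY j (m + 1)) t → (∀ x, dq (m + 1) f x = 0) →
    ∃ g ∈ fil (GQ GY j m) t, ∀ x, dq m g x = f x

lemma RR_base (hGY : ∀ g w, (g, w) ∈ GY → 0 ≤ w) {T : ℤ} (hT : T < 2 ^ j - 1) :
    RR GY T j := by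
  intro m t f ht _ hf hd
  refine ⟨fun x => f (tr m x.1, x.2), ?_, ?_⟩
  · refine fil_pc_le (fun x : (ℕ → Pt S) × Q => (tr m x.1, x.2)) (GQ_nonneg hGY) ?_ hf
    intro g w hg hw
    have : Gq GY j (m + 1) g w := hg
    cases this with
    | free r a h =>
      by_cases hr : r + 1 ≤ m
      · have e : ∀ x : (ℕ → Pt S) × Q, slot r (tr m x.1) = slot r x.1 := by
          intro x
          unfold slot tr
          rw [if_pos (by omega), if_pos (by omega)]
        simp only [e]
        exact (gq_free hr).co0 (Set.mem_univ _)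
      · have e : ∀ x : (ℕ → Pt S) × Q, slot r (tr m x.1) = (x.1 m)⁻¹ := by
          intro x
          have hrm : r = m := by omega
          subst hrm
          unfold slot tr
          rw [if_pos (by omega), if_neg (by omega), mul_one]
        simp only [e]
        refine gq_last.co0 (show a < j from ?_)
        by_contra hcon
        have h1 : (2 : ℤ) ^ j ≤ 2 ^ a := pow_le_pow_right₀ (by norm_num) (by omega)
        omega
    | last a h =>
      have e : ∀ x : (ℕ → Pt S) × Q, (tr m x.1 (m + 1))⁻¹ = 1 := by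
        intro x
        unfold tr
        rw [if_neg (by omega), inv_one]
      simp only [e]
      exact Gd.one.co0 (Set.mem_univ _)
    | par g w h => exact GQ_par h
  · intro x
    have h1 := kap_id m (fun z => f (z, x.2)) (fun z => fil_trq hf (z, x.2)) x.1
    have h2 : kap (m + 1) (dd (m + 1) (fun z => f (z, x.2))) x.1 = 0 :=
      hd (tr (m + 1) x.1, x.2)
    rw [h2, add_zero] at h1
    exact h1

/-- The extra coefficient. -/
def XX (j m : ℕ) (x : (ℕ → Pt S) × Q) : S := ((x.1 m)⁻¹).co j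

/-- Polynomials of degree `< b` in the extra coefficient. -/
def PolX (GY : Set ((Q → S) × ℤ)) (j m b : ℕ) (t : ℤ) :
    Submodule (ZMod 2) ((ℕ → Pt S) × Q → S) where
  carrier := {F | ∃ χ : ℕ → (ℕ → Pt S) × Q → S,
    (∀ e : ℕ, χ e ∈ fil (GQ GY j m) (t - (e : ℤ) * (2 ^ j - 1))) ∧
    F = ∑ e ∈ Finset.range b, XX j m ^ e * χ e}
  add_mem' := by
    rintro F F' ⟨χ, h1, rfl⟩ ⟨χ', h2, rfl⟩
    refine ⟨fun e => χ e + χ' e, fun e => Submodule.add_mem _ (h1 e) (h2 e), ?_⟩
    rw [← Finset.sum_add_distrib]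
    exact Finset.sum_congr rfl fun e _ => (mul_add _ _ _).symm
  zero_mem' := ⟨fun _ => 0, fun e => Submodule.zero_mem _, by simp⟩
  smul_mem' := by
    rintro r F ⟨χ, h1, rfl⟩
    refine ⟨fun e => r • χ e, fun e => Submodule.smul_mem _ _ (h1 e), ?_⟩
    rw [Finset.smul_sum]
    exact Finset.sum_congr rfl fun e _ => (mul_smul_comm _ _ _).symm

lemma PolX_mono {b b' : ℕ} (h : b ≤ b') {t : ℤ} {F : (ℕ → Pt S) × Q → S}
    (hF : F ∈ PolX GY j m b t) : F ∈ PolX GY j m b' t := by
  obtain ⟨χ, h1, rfl⟩ := hF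
  refine ⟨fun e => if e < b then χ e else 0, fun e => ?_, ?_⟩
  · change (if e < b then χ e else 0) ∈ _
    split_ifs
    · exact h1 e
    · exact Submodule.zero_mem _
  · simp only [mul_ite, mul_zero]
    rw [← Finset.sum_filter]
    refine Finset.sum_congr ?_ fun _ _ => rfl
    ext e
    simp only [Finset.mem_range, Finset.mem_filter]
    omega

lemma PolX_of_mem {b e : ℕ} (h : e < b) {t : ℤ} {f : (ℕ → Pt S) × Q → S}
    (hf : f ∈ fil (GQ GY j m) (t - (e : ℤ) * (2 ^ j - 1))) :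
    XX j m ^ e * f ∈ PolX GY j m b t := by
  refine ⟨fun e' => if e' = e then f else 0, fun e' => ?_, ?_⟩
  · by_cases h' : e' = e
    · subst h'; simpa using hf
    · simp [h']
  · rw [Finset.sum_eq_single e]
    · simp
    · intro e' _ h'; simp [h']
    · intro h'; exact absurd (Finset.mem_range.2 h) h'

lemma PolX_fil {b : ℕ} (h : 0 < b) {t : ℤ} {f : (ℕ → Pt S) × Q → S}
    (hf : f ∈ fil (GQ GY j m) t) : f ∈ PolX GY j m b t := by
  have := PolX_of_mem (GY := GY) (j := j) (m := m) (b := b) (e := 0) h (t := t) (f := f)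
    (by simpa using hf)
  simpa using this

lemma PolX_one {t : ℤ} {F : (ℕ → Pt S) × Q → S} (hF : F ∈ PolX GY j m 1 t) :
    F ∈ fil (GQ GY j m) t := by
  obtain ⟨χ, h1, rfl⟩ := hF
  have := h1 0
  simpa using this

lemma PolX_succ {b : ℕ} {t : ℤ} {F : (ℕ → Pt S) × Q → S} (hF : F ∈ PolX GY j m (b + 1) t) :
    ∃ f ∈ fil (GQ GY j m) (t - (b : ℤ) * (2 ^ j - 1)), ∃ F' ∈ PolX GY j m b t,
      F = F' + XX j m ^ b * f := by
  obtain ⟨χ, h1, rfl⟩ := hF
  exact ⟨χ b, h1 b, _, ⟨χ, h1, rfl⟩, Finset.sum_range_succ _ _⟩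

/-- Adjoining the extra coefficient. -/
lemma PolX_of_succ {t : ℤ} {F : (ℕ → Pt S) × Q → S} (hF : F ∈ fil (GQ GY (j + 1) m) t) :
    ∃ b, F ∈ PolX GY j m b t := by
  have h1 : F ∈ fil (insert (XX j m, (2 : ℤ) ^ j - 1) (GQ GY j m)) t := by
    refine fil_mono ?_ hF
    intro g w hg
    have : Gq GY (j + 1) m g w := hg
    cases this with
    | free r a h => exact fil_gen (Or.inr (Gq.free r a h))
    | last a h =>
      rcases Nat.lt_succ_iff_lt_or_eq.1 h with h | h
      · exact fil_gen (Or.inr (Gq.last a h))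
      · subst h
        exact fil_gen (Or.inl rfl)
    | par g w h => exact fil_gen (Or.inr (Gq.par g w h))
  obtain ⟨b, χ, h2, h3⟩ := fil_insert h1
  exact ⟨b, χ, h2, h3⟩

/-- The change of the extra coefficient when the last point is omitted. -/
def cc (j m : ℕ) (x : (ℕ → Pt S) × Q) : S :=
  ∑ k ∈ Finset.range j,
    (slot m x.1).co (k + 1) ^ 2 ^ (j - (k + 1)) * ((x.1 (m + 1))⁻¹).co (j - (k + 1))

lemma cc_mem : cc j m ∈ fil (GQ GY j (m + 1)) (2 ^ j - 1) := by
  have e : (cc j m : (ℕ → Pt S) × Q → S) = ∑ k ∈ Finset.range j,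
      (fun x : (ℕ → Pt S) × Q => (slot m x.1).co (k + 1) ^ 2 ^ (j - (k + 1))) *
      (fun x : (ℕ → Pt S) × Q => ((x.1 (m + 1))⁻¹).co (j - (k + 1))) := by
    funext x
    rw [cc, Finset.sum_apply]
    rfl
  rw [e]
  refine Submodule.sum_mem _ fun k hk => ?_
  have hk' := Finset.mem_range.1 hk
  have h1 : (fun x : (ℕ → Pt S) × Q => (slot m x.1).co (k + 1)) ∈
      fil (GQ GY j (m + 1)) (2 ^ (k + 1) - 1) := (gq_free (by omega)).co0 (Set.mem_univ _)
  have h2 : (fun x : (ℕ → Pt S) × Q => ((x.1 (m + 1))⁻¹).co (j - (k + 1))) ∈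
      fil (GQ GY j (m + 1)) (2 ^ (j - (k + 1)) - 1) :=
    gq_last.co0 (show j - (k + 1) < j by omega)
  refine fil_mul' (fil_frob h1 (j - (k + 1))) h2 ?_
  have e2 : (2 : ℤ) ^ j = 2 ^ (k + 1) * 2 ^ (j - (k + 1)) := by
    rw [← pow_add]; congr 1; omega
  rw [e2]; ring

omit [Algebra (ZMod 2) S] in
lemma XX_sk_lt {i : ℕ} (h : i ≤ m) (x : (ℕ → Pt S) × Q) :
    XX j m (sk i x.1, x.2) = XX j (m + 1) x := by
  simp [XX, sk, skp_ge h]

lemma XX_sk_last (x : (ℕ → Pt S) × Q) :
    XX j m (sk (m + 1) x.1, x.2) = XX j (m + 1) x + cc j m x := by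
  unfold XX
  have e : (sk (m + 1) x.1 m)⁻¹ = slot m x.1 * (x.1 (m + 1))⁻¹ := by
    simp [sk, skp_lt (show m < m + 1 by omega), slot]
  simp only [e]
  rw [Pt.co_mul_left]
  rfl

lemma add_pow_sub (X c : S) (b : ℕ) : (X + c) ^ b + X ^ b =
    ∑ e ∈ Finset.range b, X ^ e * (c ^ (b - e) * (b.choose e : S)) := by
  rw [add_pow, Finset.sum_range_succ]
  simp only [Nat.sub_self, pow_zero, mul_one, Nat.choose_self, Nat.cast_one]
  rw [add_assoc, add_self', add_zero]
  exact Finset.sum_congr rfl fun e _ => by ring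

/-- The differential of a monomial in the extra coefficient. -/
lemma dq_XX_pow {b : ℕ} {t : ℤ} {f : (ℕ → Pt S) × Q → S}
    (hf : f ∈ fil (GQ GY j m) (t - (b : ℤ) * (2 ^ j - 1))) :
    dq m (XX j m ^ b * f) + XX j (m + 1) ^ b * dq m f ∈ PolX GY j (m + 1) b t := by
  have e : dq m (XX j m ^ b * f) + XX j (m + 1) ^ b * dq m f =
      ∑ e ∈ Finset.range b, XX j (m + 1) ^ e *
        ((cc j m ^ (b - e) * (b.choose e : (ℕ → Pt S) × Q → S)) *
          fun x : (ℕ → Pt S) × Q => f (sk (m + 1) x.1, x.2)) := by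
    funext x
    have e1 : dq m (XX j m ^ b * f) x =
        ∑ i ∈ Finset.range (m + 1), XX j (m + 1) x ^ b * f (sk i x.1, x.2) +
          (XX j (m + 1) x + cc j m x) ^ b * f (sk (m + 1) x.1, x.2) := by
      rw [dq, dd, Finset.sum_range_succ]
      congr 1
      · refine Finset.sum_congr rfl fun i hi => ?_
        rw [Pi.mul_apply, Pi.pow_apply, XX_sk_lt (by have := Finset.mem_range.1 hi; omega)]
      · rw [Pi.mul_apply, Pi.pow_apply, XX_sk_last]
    have e2 : dq m f x = ∑ i ∈ Finset.range (m + 1), f (sk i x.1, x.2) +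
        f (sk (m + 1) x.1, x.2) := by
      rw [dq, dd, Finset.sum_range_succ]
    rw [Pi.add_apply, Pi.mul_apply, Pi.pow_apply, e1, e2, Finset.sum_apply, mul_add,
      ← Finset.mul_sum]
    have e3 := add_self' (XX j (m + 1) x ^ b * ∑ i ∈ Finset.range (m + 1), f (sk i x.1, x.2))
    have e4 : ∑ e ∈ Finset.range b, (XX j (m + 1) ^ e *
        ((cc j m ^ (b - e) * (b.choose e : (ℕ → Pt S) × Q → S)) *
          fun x : (ℕ → Pt S) × Q => f (sk (m + 1) x.1, x.2)) : (ℕ → Pt S) × Q → S) x =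
        ((XX j (m + 1) x + cc j m x) ^ b + XX j (m + 1) x ^ b) * f (sk (m + 1) x.1, x.2) := by
      rw [add_pow_sub, Finset.sum_mul]
      refine Finset.sum_congr rfl fun e _ => ?_
      simp only [Pi.mul_apply, Pi.pow_apply, Pi.natCast_apply]
      ring
    rw [e4]
    linear_combination e3
  rw [e]
  refine Submodule.sum_mem _ fun e he => ?_
  have he' := Finset.mem_range.1 he
  refine PolX_of_mem he' ?_
  have h1 : (fun x : (ℕ → Pt S) × Q => f (sk (m + 1) x.1, x.2)) ∈
      fil (GQ GY j (m + 1)) (t - (b : ℤ) * (2 ^ j - 1)) := fil_skq hf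
  have h2 : (cc j m : (ℕ → Pt S) × Q → S) ^ (b - e) ∈
      fil (GQ GY j (m + 1)) ((b - e : ℕ) * (2 ^ j - 1)) := fil_pow cc_mem _
  have h3 : (b.choose e : (ℕ → Pt S) × Q → S) ∈ fil (GQ GY j (m + 1)) 0 := by
    have : (b.choose e : (ℕ → Pt S) × Q → S) = (b.choose e) • 1 := by simp
    rw [this]
    exact Submodule.smul_of_tower_mem _ _ (fil_one _)
  refine fil_mul' (fil_mul' h2 h3 rfl) h1 ?_
  have : ((b - e : ℕ) : ℤ) = (b : ℤ) - e := by omega
  rw [this]; ring

lemma PolX_dq {b : ℕ} {t : ℤ} {F : (ℕ → Pt S) × Q → S} (hF : F ∈ PolX GY j m b t) :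
    dq m F ∈ PolX GY j (m + 1) b t := by
  induction b generalizing F with
  | zero =>
    obtain ⟨χ, h1, rfl⟩ := hF
    have : dq m (∑ e ∈ Finset.range 0, XX j m ^ e * χ e) = 0 := by
      funext x
      simp [dq, dd]
    rw [this]
    exact Submodule.zero_mem _
  | succ b ih =>
    obtain ⟨f, hf, F', hF', rfl⟩ := PolX_succ hF
    have h1 := dq_XX_pow hf
    have h2 : dq m (F' + XX j m ^ b * f) = dq m F' +
        ((dq m (XX j m ^ b * f) + XX j (m + 1) ^ b * dq m f) + XX j (m + 1) ^ b * dq m f) := by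
      rw [add_add_self]
      funext x
      exact dq_add m F' _ x
    rw [h2]
    refine Submodule.add_mem _ (PolX_mono (by omega) (ih hF')) (Submodule.add_mem _
      (PolX_mono (by omega) h1) (PolX_of_mem (by omega) (fil_dq hf)))

lemma top_zero [IsDomain S] [Infinite S] {b : ℕ} {t t' : ℤ} {f : (ℕ → Pt S) × Q → S}
    (hf : f ∈ fil (GQ GY (j + 1) m) t')
    (h : XX (j + 1) m ^ b * f ∈ PolX GY (j + 1) m b t) : f = 0 := by
  obtain ⟨χ, h1, h2⟩ := h
  have key := indep (S := S) (Ω := (ℕ → Pt S) × Q) (XX (j + 1) m)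
    (fun c x => (lt (Pt.el j c)⁻¹ x.1, x.2)) 1 one_pos ?_ (b + 1)
    (fun e => if e = b then f else χ e) ?_ ?_ b (by omega)
  · funext x
    have := key x
    simpa using this
  · intro c x
    have e : (lt (Pt.el j c)⁻¹ x.1 m)⁻¹ = (x.1 m)⁻¹ * Pt.el j c := by simp [lt]
    unfold XX
    simp only [e]
    rw [Pt.co_mul_el_eq, pow_one]
  · intro e he c x
    by_cases h' : e = b
    · simp only [h', if_true]
      exact fil_ltq le_rfl c hf x
    · simp only [h', if_false]
      exact fil_ltq le_rfl c (h1 e) x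
  · intro x
    rw [Finset.sum_range_succ]
    have e1 : ∑ e ∈ Finset.range b, XX (j + 1) m x ^ e * (if e = b then f else χ e) x
        = (XX (j + 1) m ^ b * f : (ℕ → Pt S) × Q → S) x := by
      rw [h2, Finset.sum_apply]
      refine Finset.sum_congr rfl fun e he => ?_
      have := Finset.mem_range.1 he
      rw [if_neg (by omega)]
      rfl
    rw [e1]
    simp only [if_true]
    exact add_self' _

/-- The inductive step: from `j + 2` coordinates to `j + 1` coordinates. -/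
lemma RR_step [IsDomain S] [Infinite S] (hGY : ∀ g w, (g, w) ∈ GY → 0 ≤ w) {T : ℤ}
    (h : RR GY T (j + 2)) : RR GY T (j + 1) := by
  intro m
  induction m with
  | zero =>
    intro t f hT ht hf hd
    have key : ∀ b, ∀ ψ ∈ PolX GY (j + 1) 0 (b + 1) t, (∀ x, dq 0 ψ x = f x) →
        ∃ g ∈ fil (GQ GY (j + 1) 0) t, ∀ x, dq 0 g x = f x := by
      intro b
      induction b with
      | zero => exact fun ψ h1 h2 => ⟨ψ, PolX_one h1, h2⟩
      | succ b ih =>
        intro ψ h1 h2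
        obtain ⟨f', hf', F', hF', rfl⟩ := PolX_succ h1
        have h3 : f' = 0 := by
          refine fil_eq_zero (GQ_nonneg hGY) ?_ hf'
          have e1 : (1 : ℤ) ≤ 2 ^ (j + 1) := one_le_pow₀ (by norm_num)
          push_cast at ht ⊢
          nlinarith
        subst h3
        rw [mul_zero, add_zero] at h2
        exact ih F' hF' h2
    have hf2 : f ∈ fil (GQ GY (j + 2) (0 + 1)) t := by
      refine fil_mono ?_ hf
      intro g w hg
      have : Gq GY (j + 1) (0 + 1) g w := hg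
      cases this with
      | free r a h => exact fil_gen (Gq.free r a h)
      | last a h => exact fil_gen (Gq.last a (by omega))
      | par g w h => exact fil_gen (Gq.par g w h)
    have ht2 : t < (2 ^ (j + 2) - 1) * ((0 : ℕ) + 1) := by
      refine lt_of_lt_of_le ht ?_
      have e1 : (2 : ℤ) ^ (j + 1) ≤ 2 ^ (j + 2) := pow_le_pow_right₀ (by norm_num) (by omega)
      push_cast
      linarith
    obtain ⟨ψ, hψ, hψ2⟩ := h 0 t f hT ht2 hf2 hd
    obtain ⟨b, hb⟩ := PolX_of_succ (j := j + 1) hψ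
    exact key b ψ (PolX_mono (by omega) hb) hψ2
  | succ m ihm =>
    intro t f hT ht hf hd
    have key : ∀ b, ∀ ψ ∈ PolX GY (j + 1) (m + 1) (b + 1) t, (∀ x, dq (m + 1) ψ x = f x) →
        ∃ g ∈ fil (GQ GY (j + 1) (m + 1)) t, ∀ x, dq (m + 1) g x = f x := by
      intro b
      induction b with
      | zero => exact fun ψ h1 h2 => ⟨ψ, PolX_one h1, h2⟩
      | succ b ih =>
        intro ψ h1 h2
        obtain ⟨f', hf', F', hF', rfl⟩ := PolX_succ h1
        -- the top coefficient is a cocycle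
        have h3 : dq (m + 1) f' = 0 := by
          refine top_zero (b := b + 1) (t := t) (fil_dq hf') ?_
          have h4 := dq_XX_pow (t := t) hf'
          have h5 := PolX_dq hF'
          have h6 : XX (j + 1) (m + 1 + 1) ^ (b + 1) * dq (m + 1) f' = f + dq (m + 1) F' +
              (dq (m + 1) (XX (j + 1) (m + 1) ^ (b + 1) * f') +
                XX (j + 1) (m + 1 + 1) ^ (b + 1) * dq (m + 1) f') := by
            have e1 : f = dq (m + 1) F' + dq (m + 1) (XX (j + 1) (m + 1) ^ (b + 1) * f') := by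
              funext x
              rw [← h2 x]
              exact dq_add _ _ _ x
            conv_rhs => rw [e1]
            have e2 := add_self' (dq (m + 1) F')
            have e3 := add_self' (dq (m + 1) (XX (j + 1) (m + 1) ^ (b + 1) * f'))
            linear_combination -e2 - e3
          rw [h6]
          exact Submodule.add_mem _ (Submodule.add_mem _ (PolX_fil (by omega) hf) h5) h4
        -- hence a coboundary
        have ht' : t - ((b + 1 : ℕ) : ℤ) * (2 ^ (j + 1) - 1) < (2 ^ (j + 1) - 1) * (m + 1) := by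
          have e1 : (1 : ℤ) ≤ 2 ^ (j + 1) := one_le_pow₀ (by norm_num)
          push_cast at ht ⊢
          nlinarith
        have hT' : t - ((b + 1 : ℕ) : ℤ) * (2 ^ (j + 1) - 1) ≤ T := by
          have e1 : (1 : ℤ) ≤ 2 ^ (j + 1) := one_le_pow₀ (by norm_num)
          have : 0 ≤ ((b + 1 : ℕ) : ℤ) * (2 ^ (j + 1) - 1) :=
            mul_nonneg (by positivity) (by linarith)
          linarith
        obtain ⟨χ, hχ, hχ2⟩ := ihm _ f' hT' ht' hf' (fun x => congrFun h3 x)
        have hχ3 : dq m χ = f' := funext hχ2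
        have h7 := dq_XX_pow (t := t) hχ
        rw [hχ3] at h7
        refine ih (F' + (dq m (XX (j + 1) m ^ (b + 1) * χ) +
          XX (j + 1) (m + 1) ^ (b + 1) * f')) (Submodule.add_mem _ hF' h7) ?_
        intro x
        rw [← h2 x]
        have e4 : dq (m + 1) (F' + (dq m (XX (j + 1) m ^ (b + 1) * χ) +
            XX (j + 1) (m + 1) ^ (b + 1) * f')) x = dq (m + 1) F' x +
            (dq (m + 1) (dq m (XX (j + 1) m ^ (b + 1) * χ)) x +
              dq (m + 1) (XX (j + 1) (m + 1) ^ (b + 1) * f') x) := by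
          rw [← dq_add, ← dq_add]
          rfl
        rw [e4, dq_dq, zero_add, ← dq_add]
        rfl
    have hf2 : f ∈ fil (GQ GY (j + 2) (m + 1 + 1)) t := by
      refine fil_mono ?_ hf
      intro g w hg
      have : Gq GY (j + 1) (m + 1 + 1) g w := hg
      cases this with
      | free r a h => exact fil_gen (Gq.free r a h)
      | last a h => exact fil_gen (Gq.last a (by omega))
      | par g w h => exact fil_gen (Gq.par g w h)
    have ht2 : t < (2 ^ (j + 2) - 1) * ((m + 1 : ℕ) + 1) := by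
      refine lt_of_lt_of_le ht ?_
      have e1 : (2 : ℤ) ^ (j + 1) ≤ 2 ^ (j + 2) := pow_le_pow_right₀ (by norm_num) (by omega)
      push_cast
      nlinarith
    obtain ⟨ψ, hψ, hψ2⟩ := h (m + 1) t f hT ht2 hf2 hd
    obtain ⟨b, hb⟩ := PolX_of_succ (j := j + 1) hψ
    exact key b ψ (PolX_mono (by omega) hb) hψ2

/-- Vanishing below the line. -/
theorem RR_all [IsDomain S] [Infinite S] (hGY : ∀ g w, (g, w) ∈ GY → 0 ≤ w) (T : ℤ) (j : ℕ) :
    RR GY T (j + 1) := by
  obtain ⟨J, hJ⟩ : ∃ J : ℕ, T < 2 ^ (j + 1 + J) - 1 := by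
    refine ⟨T.toNat + 1, ?_⟩
    have h1 : T.toNat + 1 < 2 ^ (T.toNat + 1) := Nat.lt_two_pow_self
    have h2 : (2 : ℤ) ^ (T.toNat + 1) ≤ 2 ^ (j + 1 + (T.toNat + 1)) :=
      pow_le_pow_right₀ (by norm_num) (by omega)
    have h3 : ((T.toNat + 1 : ℕ) : ℤ) < 2 ^ (T.toNat + 1) := by exact_mod_cast h1
    have h4 := Int.self_le_toNat T
    push_cast at h3
    linarith
  have key : ∀ J, RR GY T (j + 1 + J) → RR GY T (j + 1) := by
    intro J
    induction J with
    | zero => exact fun h => h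
    | succ J ih =>
      intro h
      have e1 : j + 1 + (J + 1) = (j + J) + 2 := by ring
      rw [e1] at h
      have h2 := RR_step hGY h
      have e2 : j + J + 1 = j + 1 + J := by ring
      rw [e2] at h2
      exact ih h2
  exact key J (RR_base hGY hJ)

end Pool.Agent.Work.MP_701abf_gt
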