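import Pool.Agent.Work.MP_701abf_gt.Tens

/-!
Nilpotence up to a coboundary.
-/

namespace Pool.Agent.Work.MP_701abf_gt

open TensorProduct

noncomputable section

variable {B : Type*} [CommRing B] [Bialgebra (ZMod 2) B]

lemma dT_ee : dT (ee : TT B) = ee * ee := by
  unfold ee
  rw [dT_io, conv_one]
  change ee * ee + ee * ee + ee * ee = ee * ee
  rw [add_self', zero_add]

lemma dT_one : dT (1 : TT B) = 0 := by
  refine der_one (AlgHom.id _ _) (AlgHom.id _ _) dT dT_mul

lemma dW_dW_aux (f : B) : dT ((II * II : WW B) f) =
    ee * (II * II : WW B) f + (II * II : WW B) f * ee := by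
  have h : dW (II : WW B) = cst ee * II + II * cst ee + II * II := by
    ext f
    change dT (io f) = (cst ee * II : WW B) f + (II * cst ee : WW B) f + (II * II : WW B) f
    rw [dT_io, cst_mul, mul_cst]
    rfl
  have h2 := dW_mul (II : WW B) II
  rw [h] at h2
  have h3 : dW (II * II : WW B) = cst ee * (II * II) + (II * II) * cst ee := by
    rw [h2]
    have e1 := add_self' (II * cst ee * II : WW B)
    have e2 := add_self' (II * II * II : WW B)
    calc _ = cst ee * (II * II) + (II * II) * cst ee
          + (II * cst ee * II + II * cst ee * II) + (II * II * II + II * II * II) := by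
          noncomm_ring
      _ = _ := by rw [e1, e2, add_zero, add_zero]
  have h4 := congrArg (fun w : WW B => w f) h3
  change dT ((II * II : WW B) f) = (cst ee * (II * II) : WW B) f
    + (II * II * cst ee : WW B) f at h4
  rw [cst_mul, mul_cst] at h4
  exact h4

/-- The differential squares to zero. -/
theorem dT_dT (x : TT B) : dT (dT x) = 0 := by
  refine der_zero (AlgHom.id _ _) (AlgHom.id _ _) (dT ∘ₗ dT) ?_ ?_ x
  · intro a b
    simp only [LinearMap.comp_apply, AlgHom.id_apply, dT_mul, map_add]
    have h := add_self' (dT a * dT b)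
    calc _ = dT (dT a) * b + a * dT (dT b) + (dT a * dT b + dT a * dT b) := by abel
      _ = _ := by rw [h, add_zero]
  · intro f
    rw [LinearMap.comp_apply, dT_io, map_add, map_add, dT_mul, dT_mul, dT_ee, dW_dW_aux, dT_io]
    have e1 := add_self' (ee * ee * io f)
    have e2 := add_self' (io f * ee * ee)
    have e3 := add_self' (ee * io f * ee)
    have e4 := add_self' (ee * (II * II : WW B) f)
    have e5 := add_self' ((II * II : WW B) f * ee)
    calc _ = (ee * ee * io f + ee * ee * io f) + (io f * ee * ee + io f * ee * ee)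
          + (ee * io f * ee + ee * io f * ee)
          + (ee * (II * II : WW B) f + ee * (II * II : WW B) f)
          + ((II * II : WW B) f * ee + (II * II : WW B) f * ee) := by noncomm_ring
      _ = _ := by rw [e1, e2, e3, e4, e5]; simp

/-! ### The brace with two arguments -/

/-- The brace operator. -/
def sb (u y : TT B) : TT B →ₗ[ZMod 2] TT B := ss (mu u).ofConv (mu y).ofConv

lemma sb_io (u y : TT B) (f : B) : sb u y (io f) = 0 := ss_io _ _ f

lemma sb_mul (u y x x' : TT B) :
    sb u y (x * x') = sb u y x * x' + x * sb u y x' + bb u x * bb y x' := ss_mul _ _ x x'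

lemma sb_II (u y : TT B) (f : B) : sb u y ((II * II : WW B) f) = (mu u * mu y : WW B) f := by
  obtain r := Coalgebra.Repr.arbitrary (ZMod 2) f
  rw [conv_apply _ _ f r, conv_apply _ _ f r, map_sum]
  refine Finset.sum_congr rfl fun i _ => ?_
  rw [sb_mul]
  change sb u y (io _) * _ + _ * sb u y (io _) + bb u (io _) * bb y (io _) = _
  rw [sb_io, sb_io, zero_mul, mul_zero, zero_add, zero_add, bb_io, bb_io]

/-- The coboundary of the brace. -/
theorem dT_sb (u y x : TT B) (hu : dT u = 0) (hy : dT y = 0) :
    dT (sb u y x) + sb u y (dT x) = bb (u * y) x + bb u x * y + u * bb y x := by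
  have hbu : ∀ x, dT (bb u x) = bb u (dT x) + (x * u + u * x) := by
    intro x
    have h := dT_bb x u
    rw [hu, bb_zero, add_zero] at h
    rw [← h, add_comm (dT _), ← add_assoc, add_self', zero_add]
  have hby : ∀ x, dT (bb y x) = bb y (dT x) + (x * y + y * x) := by
    intro x
    have h := dT_bb x y
    rw [hy, bb_zero, add_zero] at h
    rw [← h, add_comm (dT _), ← add_assoc, add_self', zero_add]
  have key := der_zero (AlgHom.id _ _) (AlgHom.id _ _)
    { toFun := fun x => dT (sb u y x) + sb u y (dT x) + (bb (u * y) x + bb u x * y + u * bb y x),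
      map_add' := fun a b => by simp only [map_add, add_mul, mul_add]; abel
      map_smul' := fun r a => by
        simp only [map_smul, RingHom.id_apply, smul_add, smul_mul_assoc, mul_smul_comm] }
    ?_ ?_ x
  · exact add_eq_zero'.1 key
  · intro a b
    simp only [LinearMap.coe_mk, AddHom.coe_mk, AlgHom.id_apply, sb_mul, bb_mul, dT_mul,
      map_add, hbu, hby]
    have e1 := add_self' (dT a * sb u y b)
    have e2 := add_self' (sb u y a * dT b)
    have e3 := add_self' (bb u (dT a) * bb y b)
    have e4 := add_self' (bb u a * bb y (dT b))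
    have e5 := add_self' (bb u a * b * y)
    have e6 := add_self' (u * a * bb y b)
    calc _ = (dT (sb u y a) + sb u y (dT a) + (bb (u * y) a + bb u a * y + u * bb y a)) * b
          + a * (dT (sb u y b) + sb u y (dT b) + (bb (u * y) b + bb u b * y + u * bb y b))
          + (dT a * sb u y b + dT a * sb u y b) + (sb u y a * dT b + sb u y a * dT b)
          + (bb u (dT a) * bb y b + bb u (dT a) * bb y b)
          + (bb u a * bb y (dT b) + bb u a * bb y (dT b))
          + (bb u a * b * y + bb u a * b * y) + (u * a * bb y b + u * a * bb y b) := by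
          noncomm_ring
      _ = _ := by rw [e1, e2, e3, e4, e5, e6]; simp only [add_zero]
  · intro f
    simp only [LinearMap.coe_mk, AddHom.coe_mk]
    rw [sb_io, map_zero, zero_add, dT_io, map_add, map_add, sb_mul, sb_mul, sb_II, sb_io]
    have h0 : sb u y (ee : TT B) = 0 := sb_io u y 1
    rw [h0, bb_ee, bb_ee, bb_io, bb_io, bb_io, map_mul]
    simp only [zero_mul, mul_zero, zero_add]
    have e1 := add_self' (u * mu y f)
    have e2 := add_self' (mu u f * y)
    have e3 := add_self' ((mu u * mu y : WW B) f)
    calc _ = (u * mu y f + u * mu y f) + (mu u f * y + mu u f * y)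
          + ((mu u * mu y : WW B) f + (mu u * mu y : WW B) f) := by abel
      _ = _ := by rw [e1, e2, e3]; simp

/-! ### Primitive elements -/

/-- Primitive elements. -/
def Prim (P : B) : Prop :=
  Coalgebra.comul (R := ZMod 2) P = P ⊗ₜ[ZMod 2] 1 + 1 ⊗ₜ[ZMod 2] P

lemma conv_prim {P : B} (hP : Prim P) (v w : WW B) : (v * w) P = v P * w 1 + v 1 * w P := by
  rw [LinearMap.convMul_apply, hP, map_add, map_add, TensorProduct.map_tmul,
    TensorProduct.map_tmul, LinearMap.mul'_apply, LinearMap.mul'_apply]

lemma dT_prim {P : B} (hP : Prim P) : dT (io P) = 0 := by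
  rw [dT_io, conv_prim hP]
  change ee * io P + io P * ee + (io P * ee + ee * io P) = 0
  have e1 := add_self' (ee * io P)
  have e2 := add_self' (io P * ee)
  calc _ = (ee * io P + ee * io P) + (io P * ee + io P * ee) := by abel
    _ = _ := by rw [e1, e2, add_zero]

lemma bb_prim {P : B} (hP : Prim P) (y : TT B) : bb (io P) y = mu y P := by
  refine der_ext (AlgHom.id _ _) (AlgHom.id _ _) (bb (io P))
    { toFun := fun y => mu y P, map_add' := ?_, map_smul' := ?_ } (bb_mul _) ?_ ?_ y
  · intro a b
    rw [map_add]
    rfl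
  · intro r a
    rw [map_smul]
    rfl
  · intro a b
    simp only [LinearMap.coe_mk, AddHom.coe_mk, AlgHom.id_apply]
    rw [map_mul, conv_prim hP, mu_one_apply, mu_one_apply]
  · intro f
    simp only [LinearMap.coe_mk, AddHom.coe_mk]
    rw [bb_io, mu_io, mu_io, mul_comm]

/-- The square of a class. -/
def qq (x : TT B) : TT B := bb x x

lemma dT_qq {x : TT B} (hx : dT x = 0) : dT (qq x) = 0 := by
  have h := dT_bb x x
  rw [hx, map_zero, bb_zero, add_zero, add_zero, add_self'] at h
  exact h

/-- The class of the square only depends on the class. -/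
lemma qq_add {x γ : TT B} (hx : dT x = 0) :
    ∃ δ, dT δ = qq x + qq (x + dT γ) := by
  refine ⟨bb x γ + bb γ x + (bb (dT γ) γ + γ * γ), ?_⟩
  have h1 := dT_bb γ x
  rw [hx, bb_zero, add_zero] at h1
  have h2 := dT_bb x γ
  rw [hx, map_zero, add_zero] at h2
  have h3 := dT_bb γ (dT γ)
  rw [dT_dT, bb_zero, add_zero] at h3
  have h1' : dT (bb x γ) = bb x (dT γ) + (γ * x + x * γ) := by
    rw [← h1, add_comm (dT _), ← add_assoc, add_self', zero_add]
  have h2' : dT (bb γ x) = bb (dT γ) x + (x * γ + γ * x) := by
    rw [← h2, add_comm (dT _), ← add_assoc, add_self', zero_add]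
  have h3' : dT (bb (dT γ) γ) = bb (dT γ) (dT γ) + (γ * dT γ + dT γ * γ) := by
    rw [← h3, add_comm (dT _), ← add_assoc, add_self', zero_add]
  unfold qq
  rw [map_add, map_add, map_add, h1', h2', h3', dT_mul, bb_add, map_add, map_add]
  have e1 := add_self' (bb x x)
  have e2 := add_self' (γ * x + x * γ)
  have e3 := add_self' (γ * dT γ + dT γ * γ)
  calc _ = bb x (dT γ) + bb (dT γ) x + bb (dT γ) (dT γ)
        + ((γ * x + x * γ) + (γ * x + x * γ))
        + ((γ * dT γ + dT γ * γ) + (γ * dT γ + dT γ * γ)) + 0 := by rw [add_zero]; abel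
    _ = _ := by rw [e2, e3, ← e1]; abel

/-- The square of a product with a primitive letter. -/
lemma qq_mul {P : B} (hP : Prim P) {y : TT B} (hy : dT y = 0) :
    ∃ δ, dT δ = qq (io P * y) + (io (P * P) * (y * y) + io P * (io P * qq y)) := by
  have hu := dT_prim hP
  refine ⟨io P * sb (io P) y y, ?_⟩
  have h := dT_sb (io P) y y hu hy
  rw [hy, map_zero, add_zero] at h
  rw [dT_mul, hu, zero_mul, zero_add, h]
  unfold qq
  rw [bb_mul, bb_io, map_mul, conv_prim hP, mu_one_apply, mu_one_apply, mu_io, bb_prim hP]
  have e1 := add_self' (io (P * P) * (y * y))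
  have e2 := add_self' (io P * (io P * bb y y))
  have e3 := add_self' (io P * mu y P * y)
  calc _ = io P * bb (io P * y) y + io P * (io P * bb y y) + io P * mu y P * y := by
        noncomm_ring
    _ = io P * bb (io P * y) y + io P * (io P * bb y y) + io P * mu y P * y
        + (io (P * P) * (y * y) + io (P * P) * (y * y)) := by rw [e1, add_zero]
    _ = _ := by noncomm_ring

end

end Pool.Agent.Work.MP_701abf_gt
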