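import Pool.Agent.Work.MP_701abf_gt.Act

/-!
The vanishing result for cochains of sufficient depth.
-/

namespace Pool.Agent.Work.MP_701abf_gt

open TensorProduct

noncomputable section

/-- The letter `c_j`. -/
def cj (i j : ℕ) : TT (BB i) := io (ga i ^ (2 ^ (i + 1) * 2 ^ j))

lemma prim_cj (i j : ℕ) : Prim (ga i ^ (2 ^ (i + 1) * 2 ^ j)) := by
  rw [← pow_add]
  exact prim_pow (prim_a i) _

/-- The acting algebra. -/
def dat (i : ℕ) : Dat (TT (BB i)) where
  d := dT
  del j := bb (cj i j)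
  c := cj i
  W j := uw i * (2 ^ (i + 1) * 2 ^ j)
  G ν := fil (GT i (uw i)) ν
  W_nonneg j := mul_nonneg (uw_nonneg i) (by positivity)
  del_mul j x y := bb_mul _ x y
  d_mul := dT_mul
  d_c j := dT_prim (prim_cj i j)
  d_del j x := by
    have h := dT_bb x (cj i j)
    have h2 : dT (cj i j) = 0 := dT_prim (prim_cj i j)
    rw [h2, bb_zero, add_zero] at h
    rw [h, add_comm]
  c_mem j := by
    refine fil_gen ⟨2 ^ (i + 1) * 2 ^ j, 0, ?_⟩
    unfold cj
    rw [show ga i ^ (2 ^ (i + 1) * 2 ^ j) = mono i (2 ^ (i + 1) * 2 ^ j) 0 by simp [mono]]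
    have e : uw i * (2 ^ (i + 1) * 2 ^ j) = uw i * (wtm i (2 ^ (i + 1) * 2 ^ j) 0 : ℕ) := by
      simp only [wtm]; push_cast; ring
    rw [e]
  del_mem j ν x hx := by
    have key : ∀ (ν : ℤ) (x : TT (BB i)), Mon (GT i (uw i)) ν x →
        bb (cj i j) x ∈ fil (GT i (uw i)) (ν + uw i * (2 ^ (i + 1) * 2 ^ j)) := by
      intro ν x hx
      induction hx with
      | one =>
        rw [der_one (AlgHom.id _ _) (AlgHom.id _ _) (bb (cj i j)) (bb_mul _)]
        exact Submodule.zero_mem _
      | @mul ν w x g hx hg ih =>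
        have hg' := hg
        obtain ⟨a, b, h⟩ := hg
        obtain ⟨rfl, rfl⟩ := Prod.mk.inj h
        rw [bb_mul, bb_io]
        refine Submodule.add_mem _ (fil_mul' ih (fil_gen hg') (by ring))
          (fil_mul' (fil_of_mon hx) (t' := uw i * wtm i (a + 2 ^ (i + 1) * 2 ^ j) b) ?_ ?_)
        · unfold cj
          rw [mu_io]
          refine fil_gen ⟨a + 2 ^ (i + 1) * 2 ^ j, b, ?_⟩
          congr 2
          unfold mono; ring
        · simp only [wtm]; push_cast; ring
    induction hx using Submodule.span_induction with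
    | mem x hx => exact key ν x hx
    | zero => rw [map_zero]; exact Submodule.zero_mem _
    | add a b _ _ ha hb => rw [map_add]; exact Submodule.add_mem _ ha hb
    | smul r a _ ha => rw [map_smul]; exact Submodule.smul_mem _ _ ha

variable (S : Type) [CommRing S] [Algebra (ZMod 2) S]

/-- The module of cochains. -/
def XM (N n i : ℕ) : DMod.{0} (TT (BB i)) (dat i) where
  carrier := Co S
  D := DD
  act := acT S i
  F := fun k t => PF N n (i + 1) k t
  D_D := DD_DD
  D_act := DD_acT i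
  F_anti := fun _ _ _ h => PF_anti h
  D_mem := fun _ _ _ h => PF_D h
  act_mem := fun _ _ hω _ _ _ hφ => acT_mem i hω hφ

variable {S}

/-- The extra left coefficient. -/
def X0 (i : ℕ) (z : ℕ → Pt S) : S := (z 0).co (i + 1) ^ 2 ^ aa (i + 1)

/-- Multiplication by a power of the extra coefficient. -/
def mX (i e : ℕ) : Co S →ₗ[ZMod 2] Co S where
  toFun φ s z := X0 i z ^ e * φ s z
  map_add' x y := by
    funext s z
    simp [mul_add]
  map_smul' r x := by
    funext s z
    simp

lemma mX_apply (i e : ℕ) (φ : Co S) (s : ℕ) (z : ℕ → Pt S) :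
    mX i e φ s z = X0 i z ^ e * φ s z := rfl

lemma JJ_cj (i j : ℕ) (z : ℕ → Pt S) : JJ S i (ga i ^ (2 ^ (i + 1) * 2 ^ j)) z =
    X0 i z ^ 2 ^ j + X0 i (sk 0 z) ^ 2 ^ j := by
  rw [map_pow, Pi.pow_apply, JJ_a, Pt.hh_co (Nat.succ_pos i)]
  unfold X0
  have e1 : sk 0 z 0 = z 1 := rfl
  rw [e1]
  have e2 : 2 ^ aa (i + 1) = 2 ^ aa i * 2 ^ (i + 1) := by
    rw [← pow_add]; rfl
  rw [e2, ← pow_mul, ← pow_mul, ← pow_mul, mul_assoc, ← pow_add, ← pow_add, add_pow']

omit [Algebra (ZMod 2) S] in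
lemma X0_sk (i : ℕ) {j : ℕ} (hj : 0 < j) (z : ℕ → Pt S) : X0 i (sk j z) = X0 i z := by
  unfold X0 sk
  rw [skp_lt hj]

lemma DD_mX (i j : ℕ) (φ : Co S) :
    DD (mX i (2 ^ j) φ) = mX i (2 ^ j) (DD φ) + acT S i (cj i j) φ := by
  unfold cj
  rw [acT_io]
  funext s z
  cases s with
  | zero =>
    rw [Pi.add_apply, Pi.add_apply, mX_apply, DD_zero, DD_zero, lam_zero]
    simp
  | succ s =>
    rw [Pi.add_apply, Pi.add_apply, mX_apply, DD_succ, DD_succ, lam_succ, JJ_cj]
    have e1 : dd s (mX i (2 ^ j) φ s) z = ∑ r ∈ Finset.range (s + 1),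
        X0 i z ^ 2 ^ j * φ s (sk (r + 1) z) + X0 i (sk 0 z) ^ 2 ^ j * φ s (sk 0 z) := by
      unfold dd
      rw [Finset.sum_range_succ']
      congr 1
    have e2 : dd s (φ s) z = ∑ r ∈ Finset.range (s + 1), φ s (sk (r + 1) z) + φ s (sk 0 z) := by
      unfold dd
      rw [Finset.sum_range_succ']
    rw [e1, e2, mul_add, Finset.mul_sum]
    have h := add_self' (X0 i z ^ 2 ^ j * φ s (sk 0 z))
    linear_combination -h

lemma acT_mX (i j : ℕ) (ω : TT (BB i)) (φ : Co S) :
    acT S i ω (mX i (2 ^ j) φ) = mX i (2 ^ j) (acT S i ω φ) + acT S i (bb (cj i j) ω) φ := by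
  induction ω using TensorAlgebra.induction generalizing φ with
  | algebraMap r =>
    rw [Algebra.algebraMap_eq_smul_one, map_smul, map_smul, map_one,
      der_one (AlgHom.id _ _) (AlgHom.id _ _) (bb (cj i j)) (bb_mul _), smul_zero, map_zero]
    change r • mX i (2 ^ j) φ = mX i (2 ^ j) (r • φ) + 0
    rw [map_smul, add_zero]
  | ι f =>
    change acT S i (io f) (mX i (2 ^ j) φ) = mX i (2 ^ j) (acT S i (io f) φ) +
      acT S i (bb (cj i j) (io f)) φ
    rw [bb_io, cj, mu_io, acT_io, acT_io]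
    funext s z
    cases s with
    | zero =>
      rw [Pi.add_apply, Pi.add_apply, mX_apply, lam_zero, lam_zero, lam_zero]
      simp
    | succ s =>
      rw [Pi.add_apply, Pi.add_apply, mX_apply, lam_succ, lam_succ, lam_succ, mX_apply, map_mul,
        Pi.mul_apply, JJ_cj]
      have h := add_self' (X0 i z ^ 2 ^ j * (JJ S i f z * φ s (sk 0 z)))
      linear_combination -h
  | mul a b ha hb =>
    rw [acT_mul, acT_mul, bb_mul, acT_add, acT_mul, acT_mul, hb, map_add, ha]
    abel
  | add a b ha hb =>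
    rw [acT_add, acT_add, map_add, map_add, acT_add, ha, hb]
    abel

/-! ### Evaluation -/

variable (S) in
/-- Evaluation of the iterated adjunction. -/
def evl (N n i : ℕ) : (l : ℕ) → (Yt (XM S N n i) l).carrier →ₗ[ZMod 2] Co S
  | 0 => LinearMap.id
  | l + 1 => (evl N n i l).comp (LinearMap.fst _ _ _) +
      (mX i (2 ^ l)).comp ((evl N n i l).comp (LinearMap.snd _ _ _))

variable {N n i : ℕ}

lemma evl_succ (l : ℕ) (w : (Yt (XM S N n i) l).carrier × (Yt (XM S N n i) l).carrier) :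
    evl S N n i (l + 1) w = evl S N n i l w.1 + mX i (2 ^ l) (evl S N n i l w.2) := rfl

lemma evl_act (l : ℕ) (ω : TT (BB i)) (w : (Yt (XM S N n i) l).carrier) :
    evl S N n i l ((Yt (XM S N n i) l).act ω w) = acT S i ω (evl S N n i l w) := by
  induction l generalizing ω with
  | zero => rfl
  | succ l ih =>
    obtain ⟨x, y⟩ := w
    change evl S N n i (l + 1) (yActHom (Yt (XM S N n i) l) l ω (x, y)) =
      acT S i ω (evl S N n i (l + 1) (x, y))
    rw [yActHom_apply, evl_succ, evl_succ]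
    simp only
    rw [map_add, ih, ih, ih, map_add, acT_mX]
    change _ + acT S i (bb (cj i l) ω) _ + _ = _
    abel

lemma evl_D (l : ℕ) (w : (Yt (XM S N n i) l).carrier) :
    evl S N n i l ((Yt (XM S N n i) l).D w) = DD (evl S N n i l w) := by
  induction l with
  | zero => rfl
  | succ l ih =>
    obtain ⟨x, y⟩ := w
    change evl S N n i (l + 1) (yD (Yt (XM S N n i) l) l (x, y)) =
      DD (evl S N n i (l + 1) (x, y))
    rw [yD_apply, evl_succ, evl_succ]
    simp only
    rw [map_add, ih, ih, map_add, DD_mX, evl_act]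
    change _ + acT S i (cj i l) _ + _ = _
    abel

variable (S) in
/-- Components. -/
def cmp (N n i : ℕ) : (l : ℕ) → (Yt (XM S N n i) l).carrier → ℕ → Co S
  | 0, w => fun b => if b = 0 then w else 0
  | l + 1, w => fun b => if b < 2 ^ l then cmp N n i l w.1 b else cmp N n i l w.2 (b - 2 ^ l)

lemma cmp_zero (w : (Yt (XM S N n i) 0).carrier) : cmp S N n i 0 w 0 = w := rfl

lemma cmp_lt {l b : ℕ} (hb : b < 2 ^ l)
    (w : (Yt (XM S N n i) l).carrier × (Yt (XM S N n i) l).carrier) :
    cmp S N n i (l + 1) w b = cmp S N n i l w.1 b := by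
  change (if b < 2 ^ l then cmp S N n i l w.1 b else cmp S N n i l w.2 (b - 2 ^ l)) = _
  rw [if_pos hb]

lemma cmp_ge (l b : ℕ)
    (w : (Yt (XM S N n i) l).carrier × (Yt (XM S N n i) l).carrier) :
    cmp S N n i (l + 1) w (2 ^ l + b) = cmp S N n i l w.2 b := by
  change (if 2 ^ l + b < 2 ^ l then cmp S N n i l w.1 _ else
    cmp S N n i l w.2 (2 ^ l + b - 2 ^ l)) = _
  rw [if_neg (by omega), Nat.add_sub_cancel_left]

lemma evl_cmp (l : ℕ) (w : (Yt (XM S N n i) l).carrier) (s : ℕ) (z : ℕ → Pt S) :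
    evl S N n i l w s z = ∑ b ∈ Finset.range (2 ^ l), X0 i z ^ b * cmp S N n i l w b s z := by
  induction l with
  | zero =>
    rw [pow_zero, Finset.sum_range_one]
    simp only [pow_zero, one_mul]
    rfl
  | succ l ih =>
    rw [evl_succ, Pi.add_apply, Pi.add_apply, mX_apply, ih, ih, pow_succ, mul_two,
      Finset.sum_range_add, Finset.mul_sum]
    congr 1
    · refine Finset.sum_congr rfl fun b hb => ?_
      rw [cmp_lt (Finset.mem_range.1 hb)]
    · refine Finset.sum_congr rfl fun b hb => ?_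
      rw [pow_add, cmp_ge]
      ring

/-- The weight of the extra coefficient. -/
def wX (i : ℕ) : ℤ := 2 ^ aa (i + 1) * (2 ^ (i + 1) - 1)

lemma wX_eq (i : ℕ) : wX i = uw i * 2 ^ (i + 1) := by
  unfold wX uw
  change (2 : ℤ) ^ (aa i + (i + 1)) * _ = _
  rw [pow_add]; ring

lemma wX_pos (i : ℕ) : 1 ≤ wX i := by
  unfold wX
  have h1 : (1 : ℤ) ≤ 2 ^ aa (i + 1) := one_le_pow₀ (by norm_num)
  have h2 : (2 : ℤ) ^ 1 ≤ 2 ^ (i + 1) := pow_le_pow_right₀ (by norm_num) (by omega)
  have h3 : (1 : ℤ) ≤ 2 ^ (i + 1) - 1 := by linarith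
  nlinarith

lemma mem_Yt (l k : ℕ) (t : ℤ) (w : (Yt (XM S N n i) l).carrier) :
    w ∈ (Yt (XM S N n i) l).F k t ↔
      ∀ b : ℕ, b < 2 ^ l → cmp S N n i l w b ∈ PF N n (i + 1) k (t - (b : ℤ) * wX i) := by
  induction l generalizing t with
  | zero =>
    constructor
    · intro h b hb
      have hb0 : b = 0 := by rw [pow_zero] at hb; omega
      subst hb0
      have e : t - ((0 : ℕ) : ℤ) * wX i = t := by simp
      rw [e]
      exact h
    · intro h
      have h0 := h 0 (by simp)
      have e : t - ((0 : ℕ) : ℤ) * wX i = t := by simp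
      rw [e] at h0
      exact h0
  | succ l ih =>
    obtain ⟨x, y⟩ := w
    have e : ∀ b : ℕ, t - uw i * (2 ^ (i + 1) * 2 ^ l) - b * wX i =
        t - ((2 ^ l + b : ℕ) : ℤ) * wX i := by
      intro b
      rw [wX_eq]; push_cast; ring
    have hF : (x, y) ∈ (Yt (XM S N n i) (l + 1)).F k t ↔ x ∈ (Yt (XM S N n i) l).F k t ∧
        y ∈ (Yt (XM S N n i) l).F k (t - uw i * (2 ^ (i + 1) * 2 ^ l)) := Iff.rfl
    refine hF.trans ?_
    rw [ih, ih]
    constructor
    · rintro ⟨h1, h2⟩ b hb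
      by_cases hb2 : b < 2 ^ l
      · rw [cmp_lt hb2]
        exact h1 b hb2
      · obtain ⟨b', rfl⟩ := Nat.exists_eq_add_of_le (show 2 ^ l ≤ b by omega)
        rw [cmp_ge, ← e]
        exact h2 b' (by rw [pow_succ] at hb; omega)
    · intro h
      refine ⟨fun b hb => ?_, fun b hb => ?_⟩
      · have := h b (by rw [pow_succ]; omega)
        rw [cmp_lt hb] at this
        exact this
      · have := h (2 ^ l + b) (by rw [pow_succ]; omega)
        rw [cmp_ge, ← e] at this
        exact this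

lemma cmp_inj (l : ℕ) (w w' : (Yt (XM S N n i) l).carrier)
    (h : ∀ b : ℕ, b < 2 ^ l → cmp S N n i l w b = cmp S N n i l w' b) : w = w' := by
  induction l with
  | zero => exact h 0 (by simp)
  | succ l ih =>
    obtain ⟨x, y⟩ := w
    obtain ⟨x', y'⟩ := w'
    refine Prod.ext (ih _ _ fun b hb => ?_) (ih _ _ fun b hb => ?_)
    · have := h b (by rw [pow_succ]; omega)
      rw [cmp_lt hb, cmp_lt hb] at this
      exact this
    · have := h (2 ^ l + b) (by rw [pow_succ]; omega)
      rw [cmp_ge, cmp_ge] at this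
      exact this

lemma cmp_surj (l : ℕ) (ψ : ℕ → Co S) :
    ∃ w : (Yt (XM S N n i) l).carrier, ∀ b : ℕ, b < 2 ^ l → cmp S N n i l w b = ψ b := by
  induction l generalizing ψ with
  | zero =>
    refine ⟨ψ 0, fun b hb => ?_⟩
    have hb0 : b = 0 := by rw [pow_zero] at hb; omega
    subst hb0
    rfl
  | succ l ih =>
    obtain ⟨w1, h1⟩ := ih ψ
    obtain ⟨w2, h2⟩ := ih (fun b => ψ (2 ^ l + b))
    refine ⟨(w1, w2), fun b hb => ?_⟩
    by_cases hb2 : b < 2 ^ l
    · rw [cmp_lt hb2]; exact h1 b hb2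
    · obtain ⟨b', rfl⟩ := Nat.exists_eq_add_of_le (show 2 ^ l ≤ b by omega)
      rw [cmp_ge]
      exact h2 b' (by rw [pow_succ] at hb; omega)

lemma cmp_of_zero (l b : ℕ) : cmp S N n i l (0 : (Yt (XM S N n i) l).carrier) b = 0 := by
  induction l generalizing b with
  | zero =>
    unfold cmp
    split_ifs <;> rfl
  | succ l ih =>
    by_cases hb2 : b < 2 ^ l
    · exact (cmp_lt hb2 (0 : (Yt (XM S N n i) l).carrier × (Yt (XM S N n i) l).carrier)).trans
        (ih b)
    · obtain ⟨b', rfl⟩ := Nat.exists_eq_add_of_le (show 2 ^ l ≤ b by omega)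
      exact (cmp_ge l b' (0 : (Yt (XM S N n i) l).carrier × (Yt (XM S N n i) l).carrier)).trans
        (ih b')

lemma X0_mem (s k : ℕ) : X0 i ∈ fil (GS (S := S) N n (i + 1 + 1) k s) (wX i) :=
  fil_gen (Gn.coef (i + 1) (by omega))

lemma fil_GS_i {i i' k s : ℕ} (h : i ≤ i') {t : ℤ} {f : (ℕ → Pt S) → S}
    (hf : f ∈ fil (GS N n i k s) t) : f ∈ fil (GS (S := S) N n i' k s) t := by
  refine fil_mono ?_ hf
  intro g w hg
  have : Gn N n i k s g w := hg
  cases this with
  | coef m hm => exact fil_gen (Gn.coef m (by omega))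
  | free r m h => exact fil_gen (Gn.free r m h)
  | fro r m h hm => exact fil_gen (Gn.fro r m h hm)

lemma evl_mem (l k : ℕ) (t : ℤ) (w : (Yt (XM S N n i) l).carrier)
    (h : w ∈ (Yt (XM S N n i) l).F k t) : evl S N n i l w ∈ PF N n (i + 1 + 1) k t := by
  rw [mem_Yt] at h
  intro s
  have e : evl S N n i l w s = ∑ b ∈ Finset.range (2 ^ l), X0 i ^ b * cmp S N n i l w b s := by
    funext z
    rw [evl_cmp, Finset.sum_apply]
    rfl
  rw [e]
  constructor
  · intro hs
    refine Finset.sum_eq_zero fun b hb => ?_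
    rw [(h b (Finset.mem_range.1 hb) s).1 hs, mul_zero]
  · intro hs
    refine Submodule.sum_mem _ fun b hb => ?_
    exact fil_mul' (fil_pow (X0_mem s k) b)
      (fil_GS_i (by omega) ((h b (Finset.mem_range.1 hb) s).2 hs)) (by ring)

lemma fil_ltc {j k s : ℕ} (c : S) {t : ℤ} {f : (ℕ → Pt S) → S}
    (hf : f ∈ fil (GS N n (j + 1) k s) t) (z : ℕ → Pt S) : f (lt (Pt.el j c) z) = f z := by
  refine fil_pc_congr (lt (Pt.el j c)) (fun z => z) ?_ hf z
  intro g w hg x
  have : Gn N n (j + 1) k s g w := hg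
  cases this with
  | coef m hm =>
    simp only
    rw [show lt (Pt.el j c) x 0 = Pt.el j c * x 0 from rfl, Pt.co_el_mul_lt _ _ _ hm]
  | free r m h => simp only [slot_lt]
  | fro r m h hm => simp only [slot_lt]

lemma evl_inj [IsDomain S] [Infinite S] (l k : ℕ) (t : ℤ) (w w' : (Yt (XM S N n i) l).carrier)
    (h : w ∈ (Yt (XM S N n i) l).F k t) (h' : w' ∈ (Yt (XM S N n i) l).F k t)
    (he : evl S N n i l w = evl S N n i l w') : w = w' := by
  have h0 : w + w' ∈ (Yt (XM S N n i) l).F k t := Submodule.add_mem _ h h'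
  have h1 : evl S N n i l (w + w') = 0 := by rw [map_add, he, add_self']
  have h2 : w + w' = 0 := by
    refine cmp_inj l _ _ fun b hb => ?_
    have hz : ∀ b : ℕ, b < 2 ^ l → ∀ (s : ℕ) (z : ℕ → Pt S), cmp S N n i l (w + w') b s z = 0 := by
      intro b hb s
      rw [mem_Yt] at h0
      by_cases hs : s < k
      · intro z
        rw [(h0 b hb s).1 hs]
        rfl
      · refine indep (Ω := ℕ → Pt S) (X0 i) (fun c z => lt (Pt.el i c) z) (2 ^ aa (i + 1))
          (by positivity) ?_ (2 ^ l) (fun b => cmp S N n i l (w + w') b s) ?_ ?_ b hb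
        · intro c z
          unfold X0
          rw [show lt (Pt.el i c) z 0 = Pt.el i c * z 0 from rfl, Pt.co_el_mul_eq, add_pow']
        · intro b hb c z
          exact fil_ltc c ((h0 b hb s).2 (by omega)) z
        · intro z
          rw [← evl_cmp, h1]
          rfl
    rw [cmp_of_zero]
    funext s z
    exact hz b hb s z
  exact add_eq_zero'.1 h2

lemma evl_surj (l k : ℕ) (t : ℤ) (ht : t < 2 ^ l) (φ : Co S)
    (h : φ ∈ PF N n (i + 1 + 1) k t) :
    ∃ w ∈ (Yt (XM S N n i) l).F k t, evl S N n i l w = φ := by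
  have h1 : ∀ s, ∃ ψ : ℕ → (ℕ → Pt S) → S, k ≤ s →
      (∀ b : ℕ, ψ b ∈ fil (GS N n (i + 1) k s) (t - (b : ℤ) * wX i)) ∧
      φ s = ∑ b ∈ Finset.range (2 ^ l), X0 i ^ b * ψ b := by
    intro s
    by_cases hs : k ≤ s
    · have h2 : φ s ∈ fil (insert (X0 i, wX i) (GS N n (i + 1) k s)) t := by
        refine fil_mono ?_ ((h s).2 hs)
        intro g w hg
        have : Gn N n (i + 1 + 1) k s g w := hg
        cases this with
        | coef m hm =>
          rcases Nat.lt_succ_iff_lt_or_eq.1 hm with h | h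
          · exact fil_gen (Or.inr (Gn.coef m h))
          · subst h
            exact fil_gen (Or.inl rfl)
        | free r m h => exact fil_gen (Or.inr (Gn.free r m h))
        | fro r m h hm => exact fil_gen (Or.inr (Gn.fro r m h hm))
      obtain ⟨B, ψ, hψ, hφ⟩ := fil_insert h2
      refine ⟨fun b => if b < B then ψ b else 0, fun _ => ⟨fun b => ?_, ?_⟩⟩
      · change (if b < B then ψ b else 0) ∈ _
        split_ifs
        · exact hψ b
        · exact Submodule.zero_mem _
      · have hbig : ∀ b, 2 ^ l ≤ b → ψ b = 0 := by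
          intro b hb
          refine fil_eq_zero GS_nonneg ?_ (hψ b)
          have h3 := wX_pos i
          have h4 : (2 : ℤ) ^ l ≤ b := by exact_mod_cast hb
          have h5 : (0 : ℤ) ≤ b := by positivity
          nlinarith
        rw [hφ]
        simp only [mul_ite, mul_zero]
        rw [← Finset.sum_filter]
        have e : Finset.filter (fun b => b < B) (Finset.range (2 ^ l)) ⊆ Finset.range B := by
          intro b hb
          exact Finset.mem_range.2 (Finset.mem_filter.1 hb).2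
        symm
        refine Finset.sum_subset e fun b hb hb2 => ?_
        have : 2 ^ l ≤ b := by
          by_contra hcon
          exact hb2 (Finset.mem_filter.2 ⟨Finset.mem_range.2 (by omega), Finset.mem_range.1 hb⟩)
        rw [hbig b this, mul_zero]
    · exact ⟨0, fun h => absurd h hs⟩
  choose ψ hψ using h1
  obtain ⟨w, hw⟩ := cmp_surj (S := S) (N := N) (n := n) (i := i) l
    (fun b s => if k ≤ s then ψ s b else 0)
  refine ⟨w, ?_, ?_⟩
  · rw [mem_Yt]
    intro b hb
    rw [hw b hb]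
    intro s
    constructor
    · intro hs
      simp only
      rw [if_neg (by omega)]
    · intro hs
      simp only
      rw [if_pos hs]
      exact (hψ s hs).1 b
  · funext s z
    rw [evl_cmp]
    by_cases hs : k ≤ s
    · rw [(hψ s hs).2, Finset.sum_apply]
      refine Finset.sum_congr rfl fun b hb => ?_
      rw [hw b (Finset.mem_range.1 hb)]
      simp only
      rw [if_pos hs]
      rfl
    · rw [(h s).1 (by omega)]
      refine Finset.sum_eq_zero fun b hb => ?_
      rw [hw b (Finset.mem_range.1 hb)]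
      simp only
      rw [if_neg hs, Pi.zero_apply, mul_zero]

/-- Vanishing at the cost of `r` in depth. -/
def NullP (S : Type) [CommRing S] [Algebra (ZMod 2) S] (N n i r : ℕ) (T0 : ℤ) : Prop :=
  ∀ (k : ℕ) (t : ℤ) (φ : Co S), t ≤ T0 → φ ∈ PF N n i (k + r) t → DD φ = 0 →
    ∃ u ∈ PF N n i k t, DD u = φ

lemma nullP_step [IsDomain S] [Infinite S] {r l : ℕ} {T0 : ℤ} (hl : T0 < 2 ^ l)
    (h : NullP S N n (i + 1 + 1) r T0) :
    NullP S N n (i + 1) (r * (l * (2 ^ (i + 1) + 1) + 1)) T0 := by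
  have h1 : Null (Yt (XM S N n i) l) r T0 := by
    intro k t y ht hy hd
    have h2 := evl_mem l (k + r) t y hy
    have h3 : DD (evl S N n i l y) = 0 := by rw [← evl_D, hd, map_zero]
    obtain ⟨u, hu, hu2⟩ := h k t _ ht h2 h3
    obtain ⟨v, hv, hv2⟩ := evl_surj l k t (by omega) u hu
    refine ⟨v, hv, ?_⟩
    refine evl_inj l k t _ _ ((Yt (XM S N n i) l).D_mem _ _ _ hv)
      ((Yt (XM S N n i) l).F_anti' (by omega) hy) ?_
    rw [evl_D, hv2, hu2]
  have h2 := step (XM S N n i) l (2 ^ (i + 1) + 1) r T0 (fun j => ?_) h1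
  · exact h2
  · exact nilp_tw i j (uw i)

lemma nullP_base (hN : ∀ m < n, aa m ≤ N) (T0 : ℤ) : NullP S N n n 1 T0 :=
  fun _ _ _ _ h hd => null_base hN h hd

end

end Pool.Agent.Work.MP_701abf_gt
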