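import Pool.Agent.Work.MP_701abf_gt.Nilp

/-!
The commutative ring of cobar classes, and the nilpotence statement.
-/

namespace Pool.Agent.Work.MP_701abf_gt

open TensorProduct

noncomputable section

variable (B : Type*) [CommRing B] [Bialgebra (ZMod 2) B]

/-- Cocycles. -/
def Zc : Subring (TT B) where
  carrier := {x | dT x = 0}
  mul_mem' := by
    intro a b ha hb
    change dT (a * b) = 0
    rw [dT_mul, show dT a = 0 from ha, show dT b = 0 from hb, zero_mul, mul_zero, add_zero]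
  one_mem' := dT_one
  add_mem' := by
    intro a b ha hb
    change dT (a + b) = 0
    rw [map_add, show dT a = 0 from ha, show dT b = 0 from hb, add_zero]
  zero_mem' := map_zero _
  neg_mem' := by
    intro a ha
    change dT (-a) = 0
    rw [map_neg, show dT a = 0 from ha, neg_zero]

/-- Cohomologous cocycles. -/
def Cc : RingCon (Zc B) where
  r x y := ∃ γ, dT γ = (x : TT B) + (y : TT B)
  iseqv :=
    { refl := fun x => ⟨0, by rw [map_zero, add_self']⟩
      symm := fun {x y} ⟨γ, h⟩ => ⟨γ, by rw [h, add_comm]⟩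
      trans := fun {x y z} ⟨γ, h⟩ ⟨δ, h'⟩ => ⟨γ + δ, by
        rw [map_add, h, h', ← add_assoc, add_add_self]⟩ }
  add' := by
    rintro a b c d ⟨γ, h⟩ ⟨δ, h'⟩
    refine ⟨γ + δ, ?_⟩
    rw [map_add, h, h']
    push_cast
    abel
  mul' := by
    rintro a b c d ⟨γ, h⟩ ⟨δ, h'⟩
    refine ⟨γ * c + b * δ, ?_⟩
    have hc : dT (c : TT B) = 0 := c.2
    have hb : dT (b : TT B) = 0 := b.2
    rw [map_add, dT_mul, dT_mul, hc, hb, h, h', mul_zero, zero_mul, add_zero, zero_add]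
    push_cast
    have e := add_self' ((b : TT B) * c)
    calc _ = (a : TT B) * c + b * d + (b * c + b * c) := by noncomm_ring
      _ = _ := by rw [e, add_zero]

/-- The ring of classes. -/
abbrev Qc := (Cc B).Quotient

variable {B}

/-- The class of a cocycle. -/
def cl (x : TT B) (hx : dT x = 0) : Qc B := ((⟨x, hx⟩ : Zc B) : Qc B)

lemma cl_eq {x y : TT B} (hx : dT x = 0) (hy : dT y = 0) :
    cl x hx = cl y hy ↔ ∃ γ, dT γ = x + y :=
  (RingCon.eq (Cc B) (a := ⟨x, hx⟩) (b := ⟨y, hy⟩)).trans Iff.rfl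

lemma cl_surj (c : Qc B) : ∃ x, ∃ hx : dT x = 0, cl x hx = c := by
  obtain ⟨⟨x, hx⟩, rfl⟩ := (Cc B).mk'_surjective c
  exact ⟨x, hx, rfl⟩

lemma cl_mul {x y : TT B} (hx : dT x = 0) (hy : dT y = 0) (hxy : dT (x * y) = 0) :
    cl (x * y) hxy = cl x hx * cl y hy := rfl

lemma cl_add {x y : TT B} (hx : dT x = 0) (hy : dT y = 0) (hxy : dT (x + y) = 0) :
    cl (x + y) hxy = cl x hx + cl y hy := rfl

lemma cl_one : cl (1 : TT B) dT_one = 1 := rfl

lemma cl_zero : cl (0 : TT B) (map_zero _) = 0 := rfl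

instance : CommRing (Qc B) :=
  { (inferInstance : Ring (Qc B)) with
    mul_comm := by
      intro a b
      obtain ⟨x, hx, rfl⟩ := cl_surj a
      obtain ⟨y, hy, rfl⟩ := cl_surj b
      have hxy : dT (x * y) = 0 := by rw [dT_mul, hx, hy, zero_mul, mul_zero, add_zero]
      have hyx : dT (y * x) = 0 := by rw [dT_mul, hx, hy, zero_mul, mul_zero, add_zero]
      have h1 : cl (x * y) hxy = cl (y * x) hyx := by
        rw [cl_eq]
        refine ⟨bb y x, ?_⟩
        have h := dT_bb x y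
        rw [hx, hy, map_zero, bb_zero, add_zero, add_zero] at h
        exact h
      exact h1 }

lemma Qc_add_self (c : Qc B) : c + c = 0 := by
  obtain ⟨x, hx, rfl⟩ := cl_surj c
  have hxx : dT (x + x) = 0 := by rw [map_add, hx, add_zero]
  have h1 : cl (x + x) hxx = cl 0 (map_zero _) := by
    rw [cl_eq]
    exact ⟨0, by rw [map_zero, add_self', add_zero]⟩
  exact h1

/-- The square operation on classes. -/
def qc (c : Qc B) : Qc B :=
  cl (qq (cl_surj c).choose) (dT_qq (cl_surj c).choose_spec.choose)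

lemma qc_cl {x : TT B} (hx : dT x = 0) : qc (cl x hx) = cl (qq x) (dT_qq hx) := by
  unfold qc
  set c := cl x hx with hc
  have h1 := (cl_surj c).choose_spec.choose_spec
  have h2 := (cl_eq (cl_surj c).choose_spec.choose hx).1 h1
  obtain ⟨γ, hγ⟩ := h2
  rw [cl_eq, add_comm]
  have h3 : (cl_surj c).choose = x + dT γ := by
    rw [hγ, add_comm, add_add_self]
  rw [h3]
  exact qq_add hx

/-- A nilpotence statement in commutative rings of characteristic two. -/
lemma nilp_aux {Q : Type*} [CommRing Q] (h2 : ∀ c : Q, c + c = 0) (H : ℕ → Q) (q : Q → Q)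
    (hq : ∀ k c, q (H k * c) = H (k + 1) * c ^ 2 + H k ^ 2 * q c)
    (hq0 : q 0 = 0) (hq1 : q 1 = 0) (i : ℕ) (h0 : H (i + 1) * H 0 = 0) :
    H (i + 1) ^ (2 ^ (i + 1) + 2) = 0 := by
  have hsq : ∀ k c, q (H k * (H k * c)) = H k ^ 4 * q c := by
    intro k c
    rw [hq, hq]
    linear_combination h2 (H (k + 1) * (H k * c) ^ 2)
  have hpow : ∀ k n c, q (H k ^ (2 * n) * c) = H k ^ (4 * n) * q c := by
    intro k n c
    induction n with
    | zero => simp
    | succ n ih =>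
      have e : H k ^ (2 * (n + 1)) * c = H k * (H k * (H k ^ (2 * n) * c)) := by ring
      rw [e, hsq, ih]
      ring
  have hH : ∀ k, q (H k) = H (k + 1) := by
    intro k
    have := hq k 1
    rw [mul_one, hq1] at this
    rw [this]
    ring
  have hR : ∀ r, H (i + 1) ^ 2 ^ (r + 1) * H (r + 1) = H (i + 1 + (r + 1)) * H 0 ^ 2 ^ (r + 1) := by
    intro r
    induction r with
    | zero =>
      have h1 := hq (i + 1) (H 0)
      rw [h0, hq0, hH] at h1
      have h3 := h2 (H (i + 1 + 1) * H 0 ^ 2)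
      simp only [zero_add, pow_one]
      linear_combination -h1 - h3
    | succ r ih =>
      have h1 := congrArg q ih
      rw [show 2 ^ (r + 1) = 2 * 2 ^ r by ring, hpow, hH, hq] at h1
      have h3 := hpow 0 (2 ^ r) 1
      rw [mul_one, hq1, mul_zero] at h3
      rw [h3, mul_zero, add_zero] at h1
      have e1 : 2 ^ (r + 1 + 1) = 4 * 2 ^ r := by ring
      rw [e1]
      have e2 : (H 0 ^ (2 * 2 ^ r)) ^ 2 = H 0 ^ (4 * 2 ^ r) := by rw [← pow_mul]; congr 1; ring
      rw [e2] at h1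
      exact h1
  have h3 := hR i
  have e : H (i + 1) ^ (2 ^ (i + 1) + 2) = (H (i + 1) ^ 2 ^ (i + 1) * H (i + 1)) * H (i + 1) := by
    ring
  rw [e, h3]
  have e2 : 2 ^ (i + 1) = (2 ^ (i + 1) - 1) + 1 := by
    have := Nat.one_le_two_pow (n := i + 1)
    omega
  rw [e2, pow_succ]
  linear_combination (H (i + 1 + (i + 1)) * H 0 ^ (2 ^ (i + 1) - 1)) * h0

lemma cl_pow {x : TT B} (hx : dT x = 0) (n : ℕ) (hn : dT (x ^ n) = 0) :
    cl (x ^ n) hn = cl x hx ^ n := by
  induction n with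
  | zero =>
    simp only [pow_zero]
    exact cl_one
  | succ n ih =>
    have h1 : dT (x ^ n) = 0 := (Zc B).pow_mem (show x ∈ Zc B from hx) n
    rw [pow_succ (cl x hx), ← ih h1]
    simp only [pow_succ]
    exact cl_mul h1 hx _

lemma dT_pow {x : TT B} (hx : dT x = 0) (n : ℕ) : dT (x ^ n) = 0 :=
  (Zc B).pow_mem (show x ∈ Zc B from hx) n

/-- Powers of primitive elements. -/
lemma prim_pow {P : B} (hP : Prim P) (k : ℕ) : Prim (P ^ 2 ^ k) := by
  induction k with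
  | zero => simpa using hP
  | succ k ih =>
    unfold Prim at ih ⊢
    rw [pow_succ, pow_mul, pow_two (P ^ 2 ^ k), Bialgebra.comul_mul, ih]
    have h : (P ^ 2 ^ k) ⊗ₜ[ZMod 2] (P ^ 2 ^ k) + (P ^ 2 ^ k) ⊗ₜ[ZMod 2] (P ^ 2 ^ k) = 0 :=
      add_self' _
    simp only [add_mul, mul_add, Algebra.TensorProduct.tmul_mul_tmul, one_mul, mul_one]
    calc _ = (P ^ 2 ^ k * P ^ 2 ^ k) ⊗ₜ[ZMod 2] 1 + 1 ⊗ₜ[ZMod 2] (P ^ 2 ^ k * P ^ 2 ^ k) +
          ((P ^ 2 ^ k) ⊗ₜ[ZMod 2] (P ^ 2 ^ k) + (P ^ 2 ^ k) ⊗ₜ[ZMod 2] (P ^ 2 ^ k)) := by abel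
      _ = _ := by rw [h, add_zero]

/-- Nilpotence of the letter `a ^ q` when `b` has reduced coproduct `a ^ q ⊗ a`. -/
theorem nilp {a b : B} (i : ℕ) (ha : Prim a)
    (hb : Coalgebra.comul (R := ZMod 2) b =
      b ⊗ₜ[ZMod 2] 1 + 1 ⊗ₜ[ZMod 2] b + (a ^ 2 ^ (i + 1)) ⊗ₜ[ZMod 2] a) :
    ∃ β : TT B, dT β = io (a ^ 2 ^ (i + 1)) ^ (2 ^ (i + 1) + 2) := by
  have hp := fun k => dT_prim (prim_pow ha k)
  have key := nilp_aux (Q := Qc B) Qc_add_self (fun k => cl (io (a ^ 2 ^ k)) (hp k)) qc ?_ ?_ ?_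
    i ?_
  · rw [← cl_pow (hp (i + 1)) _ (dT_pow (hp (i + 1)) _), ← cl_zero, cl_eq] at key
    obtain ⟨β, hβ⟩ := key
    exact ⟨β, by rw [hβ, add_zero]⟩
  · intro k c
    obtain ⟨y, hy, rfl⟩ := cl_surj c
    have h1 : dT (io (a ^ 2 ^ k) * y) = 0 := by rw [dT_mul, hp, hy, zero_mul, mul_zero, add_zero]
    rw [← cl_mul (hp k) hy h1, qc_cl, qc_cl]
    have hP2 : a ^ 2 ^ k * a ^ 2 ^ k = a ^ 2 ^ (k + 1) := by
      rw [← pow_add]; congr 1; ring
    have h2 := qq_mul (prim_pow ha k) hy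
    rw [hP2] at h2
    have hyy : dT (y * y) = 0 := by rw [dT_mul, hy, zero_mul, mul_zero, add_zero]
    have e1 : dT (io (a ^ 2 ^ (k + 1)) * (y * y)) = 0 := by
      rw [dT_mul, hp, hyy, zero_mul, mul_zero, add_zero]
    have e2 : dT (io (a ^ 2 ^ k) * qq y) = 0 := by
      rw [dT_mul, hp, dT_qq hy, zero_mul, mul_zero, add_zero]
    have e3 : dT (io (a ^ 2 ^ k) * (io (a ^ 2 ^ k) * qq y)) = 0 := by
      rw [dT_mul, hp, e2, zero_mul, mul_zero, add_zero]
    have e4 : dT (io (a ^ 2 ^ (k + 1)) * (y * y) + io (a ^ 2 ^ k) * (io (a ^ 2 ^ k) * qq y)) = 0 := by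
      rw [map_add, e1, e3, add_zero]
    rw [(cl_eq (dT_qq h1) e4).2 h2, cl_add e1 e3, cl_mul (hp (k + 1)) hyy, cl_mul hy hy,
      cl_mul (hp k) e2, cl_mul (hp k) (dT_qq hy)]
    ring
  · rw [← cl_zero, qc_cl, cl_eq]
    refine ⟨0, ?_⟩
    unfold qq
    simp
  · rw [← cl_one, qc_cl, ← cl_zero, cl_eq]
    refine ⟨0, ?_⟩
    unfold qq
    rw [map_zero, der_one (AlgHom.id _ _) (AlgHom.id _ _) (bb 1) (bb_mul 1), add_zero]
  · have h1 : dT (io (a ^ 2 ^ (i + 1)) * io (a ^ 2 ^ 0)) = 0 := by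
      rw [dT_mul, hp, hp, zero_mul, mul_zero, add_zero]
    rw [← cl_mul (hp (i + 1)) (hp 0) h1, ← cl_zero, cl_eq]
    refine ⟨io b, ?_⟩
    rw [add_zero, dT_io, LinearMap.convMul_apply, hb]
    simp only [map_add, TensorProduct.map_tmul, LinearMap.mul'_apply, pow_zero, pow_one]
    change ee * io b + io b * ee + (io b * ee + ee * io b + io (a ^ 2 ^ (i + 1)) * io a) = _
    have e1 := add_self' (ee * io b)
    have e2 := add_self' (io b * ee)
    calc _ = (ee * io b + ee * io b) + (io b * ee + io b * ee)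
          + io (a ^ 2 ^ (i + 1)) * io a := by abel
      _ = _ := by rw [e1, e2]; simp

end

end Pool.Agent.Work.MP_701abf_gt
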