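import Pool.Agent.Work.MP_701abf_gt.Cob.Ops

/-!
# MP_701abf_gt: non-vanishing of `h_0 Sq^1` along Sq^0-families

For every `s` there is `J` such that for every Sq^0-family `x_0, x_1, …` on the `s`-line which
starts in a positive internal degree divisible by `2 ^ J` and has `Sq^1 x_0 ≠ 0`, all the classes
`h_0 Sq^1 x_j` are nonzero.

By Bruner's formula `d_2 (Sq^0 x) = h_0 Sq^1 x` for `x` of even internal degree, these are the
values of the Adams differential `d_2` on the classes `x_{j+1}`.

Everything is stated in the cobar complex of the dual Steenrod algebra (definitions in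
`Pool.Agent.Work.MP_701abf_gt.Cob.Defs` and `Pool.Agent.Work.MP_701abf_gt.Cob.OpsDefs`):
`p ∈ Zc s t` is a cocycle, its Sq^0-family is represented by the cocycles `p ^ (2 ^ j)`,
`sqOne s p` is the cocycle representing `Sq^1`, and `h_0` is represented by `ξ_1`. That
`sqOne` maps cocycles to cocycles, coboundaries to coboundaries and is additive modulo
coboundaries is proved in `Pool.Agent.Work.MP_701abf_gt.Cob.Ops`, where the induced map
`Sq1 : Ext s t → Ext (s + 1) (2 * t)` and the products on `Ext` are defined.
-/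

namespace Pool.Agent.Work.MP_701abf_gt.SecondDifferential

open Pool.Agent.Work.MP_701abf_gt.Cob

/-- For every `s` there is `J` such that for all `t > 0` divisible by `2 ^ J` and all cocycles
`p` of degree `(s, t)` for which `Sq^1 [p] = [sqOne p]` is nonzero, the product
`Sq^1 ((Sq^0)^j [p]) · h_0` is nonzero for all `j`. -/
theorem result (s : ℕ) : ∃ J : ℕ, ∀ t : ℕ, 0 < t → 2 ^ J ∣ t → ∀ p ∈ Zc s t,
    sqOne s p ∉ Bc (s + 1) (2 * t) →
    ∀ j, jux (s + 1) 1 (sqOne s (p ^ 2 ^ j)) (xi 0 1) ∉ Bc (s + 1 + 1) (2 * (2 ^ j * t) + 1) :=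
  h0_sqOne s

end Pool.Agent.Work.MP_701abf_gt.SecondDifferential
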