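import Pool.Agent.Work.MP_701abf_gt.Coch

/-!
The filtered spaces of cochains with left coefficients, and the contraction when all the
coefficients are present.
-/

namespace Pool.Agent.Work.MP_701abf_gt

variable {S : Type*} [CommRing S] [Algebra (ZMod 2) S]

/-- Triangular numbers. -/
def aa : ℕ → ℕ
  | 0 => 0
  | i + 1 => aa i + (i + 1)

lemma aa_mono : Monotone aa := by
  refine monotone_nat_of_le_succ fun n => ?_
  change aa n ≤ aa n + (n + 1)
  omega

/-- The `r`-th slot. -/
def slot {P : Type*} [Group P] (r : ℕ) (z : ℕ → P) : P := (z r)⁻¹ * z (r + 1)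

/-- Generators of the spaces of cochains. -/
inductive Gn (N n i k s : ℕ) : ((ℕ → Pt S) → S) → ℤ → Prop
  | coef (m : ℕ) (hm : m < i) :
    Gn N n i k s (fun z => (z 0).co m ^ 2 ^ aa m) (2 ^ aa m * (2 ^ m - 1))
  | free (r m : ℕ) (h : r + 1 + k ≤ s) : Gn N n i k s (fun z => (slot r z).co m) (2 ^ m - 1)
  | fro (r m : ℕ) (h : r + 1 ≤ s) (hm : m < n) :
    Gn N n i k s (fun z => (slot r z).co m ^ 2 ^ N) (2 ^ N * (2 ^ m - 1))

/-- Generators as a set. -/
def GS (N n i k s : ℕ) : Set (((ℕ → Pt S) → S) × ℤ) := {p | Gn N n i k s p.1 p.2}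

variable {N n i k s : ℕ}

lemma two_pow_sub_one_nonneg (m : ℕ) : (0 : ℤ) ≤ 2 ^ m - 1 := by
  have : (1 : ℤ) ≤ 2 ^ m := one_le_pow₀ (by norm_num)
  omega

lemma GS_nonneg : ∀ (g : (ℕ → Pt S) → S) (w : ℤ), (g, w) ∈ GS N n i k s → 0 ≤ w := by
  rintro g w h
  have hx := two_pow_sub_one_nonneg
  have : Gn N n i k s g w := h
  cases this with
  | coef m hm => exact mul_nonneg (by positivity) (hx m)
  | free r m h => exact hx m
  | fro r m h hm => exact mul_nonneg (by positivity) (hx m)

lemma gd_coef {m : ℕ} (hm : m < i) :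
    Gd (GS (S := S) N n i k s) (aa m) (Set.Iic m) (fun z => z 0) := by
  intro m' hm'
  have hm' : m' ≤ m := hm'
  have h1 : (fun z : ℕ → Pt S => (z 0).co m' ^ 2 ^ aa m') ∈
      fil (GS (S := S) N n i k s) (2 ^ aa m' * (2 ^ m' - 1)) :=
    fil_gen (Gn.coef m' (by omega))
  have h2 := fil_frob h1 (aa m - aa m')
  have e1 : (fun z : ℕ → Pt S => ((z 0).co m' ^ 2 ^ aa m') ^ 2 ^ (aa m - aa m'))
      = fun z => (z 0).co m' ^ 2 ^ aa m := by
    funext x
    rw [← pow_mul, ← pow_add, Nat.add_sub_cancel' (aa_mono hm')]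
  have e2 : (2 : ℤ) ^ (aa m - aa m') * (2 ^ aa m' * (2 ^ m' - 1)) = 2 ^ aa m * (2 ^ m' - 1) := by
    rw [← mul_assoc, ← pow_add, Nat.sub_add_cancel (aa_mono hm')]
  rw [e1, e2] at h2
  exact h2

lemma gd_free {r : ℕ} (h : r + 1 + k ≤ s) :
    Gd (GS (S := S) N n i k s) 0 Set.univ (slot r) := by
  intro m _
  have h1 : (fun z : ℕ → Pt S => (slot r z).co m) ∈ fil (GS (S := S) N n i k s) (2 ^ m - 1) :=
    fil_gen (Gn.free r m h)
  simpa using h1

lemma gd_fro {r : ℕ} (h : r + 1 ≤ s) :
    Gd (GS (S := S) N n i k s) N (Set.Iio n) (slot r) := by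
  intro m hm
  exact fil_gen (Gn.fro r m h hm)

/-- Substitution. -/
lemma GS_subst {X : Type*} {G' : Set ((X → S) × ℤ)} (σ : X → (ℕ → Pt S))
    (h1 : ∀ m, m < i → Gd G' (aa m) (Set.Iic m) (fun z => σ z 0))
    (h2 : ∀ r, r + 1 + k ≤ s → Gd G' 0 Set.univ (fun z => slot r (σ z)))
    (h3 : ∀ r, r + 1 ≤ s → Gd G' N (Set.Iio n) (fun z => slot r (σ z)))
    {t : ℤ} {f : (ℕ → Pt S) → S} (hf : f ∈ fil (GS N n i k s) t) :
    (fun z => f (σ z)) ∈ fil G' t := by
  refine fil_pc σ ?_ hf
  intro g w hg
  have : Gn N n i k s g w := hg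
  cases this with
  | coef m hm => exact h1 m hm m (Set.mem_Iic.2 le_rfl)
  | free r m h => exact (h2 r h).co0 (Set.mem_univ _)
  | fro r m h hm => exact h3 r h m hm

lemma slot_sk_lt {P : Type*} [Group P] {j r : ℕ} (h : r + 1 < j) (z : ℕ → P) :
    slot r (sk j z) = slot r z := by
  unfold slot sk
  rw [skp_lt (by omega), skp_lt (by omega)]

lemma slot_sk_eq {P : Type*} [Group P] {r : ℕ} (z : ℕ → P) :
    slot r (sk (r + 1) z) = slot r z * slot (r + 1) z := by
  unfold slot sk
  rw [skp_lt (by omega), skp_ge (by omega)]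
  group

lemma slot_sk_gt {P : Type*} [Group P] {j r : ℕ} (h : j ≤ r) (z : ℕ → P) :
    slot r (sk j z) = slot (r + 1) z := by
  unfold slot sk
  rw [skp_ge (by omega), skp_ge (by omega)]

lemma gd_slot_sk {G : Set (((ℕ → Pt S) → S) × ℤ)} {c : ℕ} {M : Set ℕ} (hM : IsLowerSet M)
    {j r : ℕ} (h1 : Gd G c M (slot r)) (h2 : Gd G c M (slot (r + 1))) :
    Gd G c M (fun z => slot r (sk j z)) := by
  rcases lt_trichotomy (r + 1) j with h | h | h
  · simp only [slot_sk_lt h]; exact h1
  · subst h
    simp only [slot_sk_eq]; exact Gd.mul hM h1 h2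
  · simp only [slot_sk_gt (show j ≤ r by omega)]; exact h2

/-- The omission of a point preserves the spaces of cochains. -/
lemma fil_sk {j : ℕ} (hks : k ≤ s) {t : ℤ} {f : (ℕ → Pt S) → S}
    (hf : f ∈ fil (GS N n i k s) t) :
    (fun z => f (sk j z)) ∈ fil (GS N n i k (s + 1)) t := by
  refine GS_subst (sk j) ?_ ?_ ?_ hf
  · intro m hm
    have h0 := gd_coef (S := S) (N := N) (n := n) (k := k) (s := s + 1) hm
    rcases Nat.eq_zero_or_pos j with rfl | hj
    · have e : ∀ z : ℕ → Pt S, sk 0 z 0 = z 0 * slot 0 z := by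
        intro z
        simp [sk, skp, slot]
      simp only [e]
      refine Gd.mul (isLowerSet_Iic m) h0 ?_
      exact ((gd_free (by omega)).frob (Nat.zero_le _)).mono_set (Set.subset_univ _)
    · have e : ∀ z : ℕ → Pt S, sk j z 0 = z 0 := by
        intro z
        simp [sk, skp, hj]
      simp only [e]
      exact h0
  · intro r hr
    exact gd_slot_sk isLowerSet_univ (gd_free (by omega)) (gd_free (by omega))
  · intro r hr
    exact gd_slot_sk (isLowerSet_Iio n) (gd_fro (by omega)) (gd_fro (by omega))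

/-- The spaces of cochains. -/
def PF (N n i k : ℕ) (t : ℤ) : Submodule (ZMod 2) (Co S) where
  carrier := {φ | ∀ s, (s < k → φ s = 0) ∧ (k ≤ s → φ s ∈ fil (GS N n i k s) t)}
  add_mem' := by
    intro a b ha hb s
    exact ⟨fun h => by rw [Pi.add_apply, (ha s).1 h, (hb s).1 h, add_zero],
      fun h => Submodule.add_mem _ ((ha s).2 h) ((hb s).2 h)⟩
  zero_mem' := fun s => ⟨fun _ => rfl, fun _ => Submodule.zero_mem _⟩
  smul_mem' := by
    intro r a ha s
    exact ⟨fun h => by rw [Pi.smul_apply, (ha s).1 h, smul_zero],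
      fun h => Submodule.smul_mem _ _ ((ha s).2 h)⟩

lemma mem_PF {t : ℤ} {φ : Co S} : φ ∈ PF N n i k t ↔
    ∀ s, (s < k → φ s = 0) ∧ (k ≤ s → φ s ∈ fil (GS N n i k s) t) := Iff.rfl

lemma PF_anti {t : ℤ} {φ : Co S} (h : φ ∈ PF N n i (k + 1) t) : φ ∈ PF N n i k t := by
  intro s
  refine ⟨fun hs => (h s).1 (by omega), fun hs => ?_⟩
  by_cases hs2 : s < k + 1
  · rw [(h s).1 hs2]; exact Submodule.zero_mem _
  · refine fil_mono ?_ ((h s).2 (by omega))
    intro g w hg
    have : Gn N n i (k + 1) s g w := hg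
    cases this with
    | coef m hm => exact fil_gen (Gn.coef m hm)
    | free r m h => exact fil_gen (Gn.free r m (by omega))
    | fro r m h hm => exact fil_gen (Gn.fro r m h hm)

lemma PF_D {t : ℤ} {φ : Co S} (h : φ ∈ PF N n i k t) : DD φ ∈ PF N n i k t := by
  intro s
  cases s with
  | zero => exact ⟨fun _ => rfl, fun _ => Submodule.zero_mem _⟩
  | succ s =>
    by_cases hs : s < k
    · have : DD φ (s + 1) = 0 := by
        funext z
        rw [DD_succ, (h s).1 hs]
        simp [dd]
      rw [this]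
      exact ⟨fun _ => rfl, fun _ => Submodule.zero_mem _⟩
    · refine ⟨fun h' => by omega, fun _ => ?_⟩
      have e : DD φ (s + 1) = ∑ j ∈ Finset.range (s + 2), fun z => φ s (sk j z) := by
        funext z
        rw [DD_succ, dd, Finset.sum_apply]
      rw [e]
      exact Submodule.sum_mem _ fun j _ => fil_sk (by omega) ((h s).2 (by omega))

/-- The value depends on the first `s + 1` points only. -/
lemma fil_tr {t : ℤ} {f : (ℕ → Pt S) → S} (hf : f ∈ fil (GS N n i k s) t) (z : ℕ → Pt S) :
    f (tr s z) = f z := by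
  refine fil_pc_congr (tr s) (fun z => z) ?_ hf z
  intro g w hg x
  have : Gn N n i k s g w := hg
  cases this with
  | coef m hm => simp [tr]
  | free r m h =>
    have h1 : slot r (tr s x) = slot r x := by
      unfold slot tr
      rw [if_pos (by omega), if_pos (by omega)]
    simp only [h1]
  | fro r m h hm =>
    have h1 : slot r (tr s x) = slot r x := by
      unfold slot tr
      rw [if_pos (by omega), if_pos (by omega)]
    simp only [h1]

lemma gd_pt (hN : ∀ m < n, aa m ≤ N) (r : ℕ) (h : r ≤ s) :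
    Gd (GS (S := S) N n n k s) N (Set.Iio n) (fun z => z r) := by
  induction r with
  | zero =>
    intro m hm
    exact ((gd_coef (S := S) (N := N) (n := n) (k := k) (s := s) hm).frob (hN m hm)) m
      (Set.mem_Iic.2 le_rfl)
  | succ r ih =>
    have e : ∀ z : ℕ → Pt S, z (r + 1) = z r * slot r z := by
      intro z; simp [slot]
    simp only [e]
    exact Gd.mul (isLowerSet_Iio n) (ih (by omega)) (gd_fro (by omega))

/-- Vanishing when all the coefficients are present. -/
lemma null_base (hN : ∀ m < n, aa m ≤ N) {t : ℤ} {φ : Co S} (h : φ ∈ PF N n n (k + 1) t)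
    (hd : DD φ = 0) : ∃ u ∈ PF N n n k t, DD u = φ := by
  refine ⟨fun s => kap s (φ (s + 1)), ?_, ?_⟩
  · intro s
    constructor
    · intro hs
      change kap s (φ (s + 1)) = 0
      rw [(h (s + 1)).1 (by omega)]
      rfl
    · intro hs
      refine GS_subst (tr s) ?_ ?_ ?_ ((h (s + 1)).2 (by omega))
      · intro m hm
        have e : ∀ z : ℕ → Pt S, tr s z 0 = z 0 := by
          intro z
          simp [tr]
        simp only [e]
        exact gd_coef hm
      · intro r hr
        have e : ∀ z : ℕ → Pt S, slot r (tr s z) = slot r z := by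
          intro z
          unfold slot tr
          rw [if_pos (by omega), if_pos (by omega)]
        simp only [e]
        exact gd_free (by omega)
      · intro r hr
        by_cases hr2 : r + 1 ≤ s
        · have e : ∀ z : ℕ → Pt S, slot r (tr s z) = slot r z := by
            intro z
            unfold slot tr
            rw [if_pos (by omega), if_pos (by omega)]
          simp only [e]
          exact gd_fro hr2
        · have e : ∀ z : ℕ → Pt S, slot r (tr s z) = (z r)⁻¹ := by
            intro z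
            unfold slot tr
            rw [if_pos (by omega), if_neg (by omega), mul_one]
          simp only [e]
          exact Gd.inv (isLowerSet_Iio n) (gd_pt hN r (by omega))
  · funext s z
    cases s with
    | zero =>
      rw [(h 0).1 (by omega)]
      rfl
    | succ s =>
      by_cases hs : s + 1 < k + 1
      · rw [DD_succ, (h (s + 1)).1 hs]
        simp [dd, kap]
      · have h1 := kap_id s (φ (s + 1)) (fil_tr ((h (s + 1)).2 (by omega))) z
        have h2 : kap (s + 1) (dd (s + 1) (φ (s + 1))) z = 0 := by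
          have := congrFun (congrFun hd (s + 2)) (tr (s + 1) z)
          exact this
        rw [h2, add_zero] at h1
        exact h1

end Pool.Agent.Work.MP_701abf_gt
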