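import Pool.Agent.Work.MP_701abf_gt.Sq2.Main

/-!
# MP_701abf_gt: the first two differentials on Sq^0-families, outside a sparse set of degrees

Let `k ≤ 3` and let `r = s + 1 ≥ 3 k - 2`. Call `t` exceptional if it is a sum of `r - k` numbers
of the form `2 ^ a u` with `u ≤ U` (where `U` depends on `r` and `k`). There are at most
`C n ^ (r - k)` exceptional `t < 2 ^ n`, whereas at least `n ^ r / D` of these `t` have
`Ext^{r,t} ≠ 0`. If `t` is not exceptional then for every class `x` in `Ext^{r,t}`, with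
Sq^0-family `x_0, x_1, …`, one of the following holds.

* `x_j = 0` for all `j ≥ J`.
* `h_0 Sq^1 x_j ≠ 0` for all `j ≥ J`.
* There is a class `y` such that for all `j ≥ 0`: `x_{J+j+1} = Sq^1 y_j`, the class
  `h_1 Sq^2 x_{J+j}` is not divisible by `h_0`, and all classes in `Ext^{r+1,T+1}` are divisible
  by `h_0`, where `T = 2 ^ (J+j+1) t`.

By Bruner's formulas `d_2 x_{j+1} = h_0 Sq^1 x_j` for large `j`, and in the third case
`d_3 x_{J+j+1} = Sq^2 (d_2 y_j) = Sq^2 (h_0 x_{J+j}) = h_1 Sq^2 x_{J+j}` in `E_3` for `j ≥ 1`,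
where the image of `d_2` in this degree consists of multiples of `h_0`, as
`Ext^{r+1,T+1} = h_0 Ext^{r,T}`. So in each case no `x_j` with `j ≥ J + 2` survives.

Definitions (cobar complex of the dual Steenrod algebra) are in
`Pool.Agent.Work.MP_701abf_gt.Cob.Defs`, `Pool.Agent.Work.MP_701abf_gt.Cob.OpsDefs`,
`Pool.Agent.Work.MP_701abf_gt.Cob.SqTwoDefs` and `Pool.Agent.Work.MP_701abf_gt.Sq2.Defs`.
-/

namespace Pool.Agent.Results.MP_701abf_gt.SparseExceptions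

open Pool.Agent.Work.MP_701abf_gt.Cob Pool.Agent.Work.MP_701abf_gt.Sq2

/-- Let `k ≤ 3` and `3 k ≤ s + 3`. There are `U`, `J`, `C`, `D` such that at most
`C n ^ (s + 1 - k)` numbers `t < 2 ^ n` are sums of `s + 1 - k` numbers `2 ^ a u` with `u ≤ U`
(for `n ≥ 1`), at least `n ^ (s + 1) / D` numbers `t < 2 ^ n` have `Ext^{s+1,t} ≠ 0` (for
`n ≥ D`), and for every `t` which is not such a sum and every cocycle `p` of degree `(s + 1, t)`
with class `x`: all `(Sq^0)^j x` with `j ≥ J` vanish; or `Sq^1 ((Sq^0)^j x) · h_0 ≠ 0` for all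
`j ≥ J`; or there is a cocycle `q` of degree `(s, 2 ^ J t)` with
`(Sq^0)^(J+j+1) x = Sq^1 ((Sq^0)^j [q])`, with `Sq^2 ((Sq^0)^(J+j) x) · h_1` not divisible by
`h_0`, and with all classes of degree `(s + 2, T + 1)`, `T = 2 ^ (J+j+1) t`, divisible by `h_0`,
for all `j`. -/
theorem result (s k : ℕ) (hk : k ≤ 3) (hs : 3 * k ≤ s + 3) : ∃ U J C D : ℕ,
    (∀ n, 1 ≤ n → {t | t < 2 ^ n ∧ Few U (s + 1 - k) t}.ncard ≤ C * n ^ (s + 1 - k)) ∧
    (∀ n, D ≤ n →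
      n ^ (s + 1) ≤ D * {t | t < 2 ^ n ∧ ¬ Zc (s + 1) t ≤ Bc (s + 1) t}.ncard) ∧
    ∀ t : ℕ, ¬ Few U (s + 1 - k) t → ∀ p ∈ Zc (s + 1) t,
      (∀ j, J ≤ j → p ^ 2 ^ j ∈ Bc (s + 1) (2 ^ j * t)) ∨
      (∀ j, J ≤ j → jux (s + 2) 1 (sqOne (s + 1) (p ^ 2 ^ j)) (xi 0 1) ∉
        Bc (s + 3) (2 ^ (j + 1) * t + 1)) ∨
      ∃ q ∈ Zc s (2 ^ J * t), ∀ j,
        p ^ 2 ^ (J + j + 1) + sqOne s (q ^ 2 ^ j) ∈ Bc (s + 1) (2 ^ (J + j + 1) * t) ∧
        (∀ w ∈ Zc (s + 3) (2 ^ (J + j + 1) * t + 1),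
          jux (s + 3) 1 (sqTwo (s + 1) (p ^ 2 ^ (J + j))) (xi 0 1 ^ 2) +
            jux (s + 3) 1 w (xi 0 1) ∉ Bc (s + 4) (2 ^ (J + j + 1) * t + 2)) ∧
        ∀ z ∈ Zc (s + 2) (2 ^ (J + j + 1) * t + 1), ∃ w ∈ Zc (s + 1) (2 ^ (J + j + 1) * t),
          z + jux (s + 1) 1 w (xi 0 1) ∈ Bc (s + 2) (2 ^ (J + j + 1) * t + 1) :=
  d23 s k hk hs

end Pool.Agent.Results.MP_701abf_gt.SparseExceptions
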