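import Pool.Agent.Work.MP_701abf_gt.Fin

/-!
# MP_701abf_gt: Sq^0-families in a sector `t ≤ μ s` of the cohomology of the Steenrod algebra

For every `n ≥ 1` and every slope `μ < 2^n - 1` there is `S` such that for all `s ≥ S` and
`t ≤ μ s` the iterate `(Sq^0)^j` vanishes on `Ext_A^{s,t}(F_2, F_2)` for all
`j ≥ n (n - 1) / 2`.

`Ext` is computed by the cobar complex of the dual Steenrod algebra `F_2[ξ_1, ξ_2, …]`, on which
`Sq^0` is induced by squaring.
-/

open MvPolynomial

namespace Pool.Agent.Results.MP_701abf_gt.SqZeroSector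

open Pool.Agent.Work.MP_701abf_gt

noncomputable section

/-- Cobar cochains of degree `s`: the `s`-fold tensor power of the dual Steenrod algebra.  The
variable `(i, n)` is the generator `ξ_{n+1}` of the tensor factor number `i`. -/
abbrev Cobar (s : ℕ) : Type := MvPolynomial (Fin s × ℕ) (ZMod 2)

/-- `ξ_n` in the tensor factor number `i`, with `ξ_0 = 1`. -/
def xi {s : ℕ} (i : Fin s) : ℕ → Cobar s
  | 0 => 1
  | n + 1 => X (i, n)

/-- The coface maps `Cobar s → Cobar (s + 1)`, `0 ≤ j ≤ s + 1`: the first inserts `1` in front,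
the last inserts `1` at the end, and the `j`-th one, `1 ≤ j ≤ s`, applies Milnor's coproduct
`ξ_n ↦ ∑_{a + b = n} ξ_a ^ (2 ^ b) ⊗ ξ_b` to the `j`-th tensor factor. -/
def coface (s j : ℕ) : Cobar s →ₐ[ZMod 2] Cobar (s + 1) :=
  aeval fun v =>
    if (v.1 : ℕ) + 1 < j then X (v.1.castSucc, v.2)
    else if (v.1 : ℕ) + 1 = j then
      ∑ p ∈ Finset.HasAntidiagonal.antidiagonal (v.2 + 1),
        xi v.1.castSucc p.1 ^ 2 ^ p.2 * xi v.1.succ p.2
    else X (v.1.succ, v.2)

/-- The cobar differential. -/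
def cobarD (s : ℕ) (p : Cobar s) : Cobar (s + 1) :=
  ∑ j ∈ Finset.range (s + 2), coface s j p

/-- Internal degree `t`, where `ξ_n` has degree `2 ^ n - 1`. -/
def HasDegree {s : ℕ} (p : Cobar s) (t : ℕ) : Prop :=
  IsWeightedHomogeneous (fun v : Fin s × ℕ => 2 ^ (v.2 + 1) - 1) p t

/-! ### Comparison with functions -/

/-- The ring of values. -/
abbrev SS : Type := MvPolynomial (ℕ × ℕ) (ZMod 2)

/-- The function attached to a cochain. -/
def fn (s : ℕ) : Cobar s →ₐ[ZMod 2] ((ℕ → Pt SS) → SS) :=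
  aeval fun v z => (slot (v.1 : ℕ) z).co (v.2 + 1)

lemma fn_X (s : ℕ) (v : Fin s × ℕ) (z : ℕ → Pt SS) :
    fn s (X v) z = (slot (v.1 : ℕ) z).co (v.2 + 1) := by
  unfold fn
  rw [aeval_X]

lemma fn_xi (s : ℕ) (i : Fin s) (n : ℕ) (z : ℕ → Pt SS) :
    fn s (xi i n) z = (slot (i : ℕ) z).co n := by
  cases n with
  | zero =>
    change fn s 1 z = _
    rw [map_one, Pt.co_zero]
    rfl
  | succ n => exact fn_X s (i, n) z

lemma fn_coface (s j : ℕ) (p : Cobar s) (z : ℕ → Pt SS) :
    fn (s + 1) (coface s j p) z = fn s p (sk j z) := by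
  have h : (fn (s + 1)).comp (coface s j) = (pcA (sk j)).comp (fn s) := by
    refine MvPolynomial.algHom_ext fun v => ?_
    funext z
    change fn (s + 1) (coface s j (X v)) z = fn s (X v) (sk j z)
    rw [fn_X]
    unfold coface
    rw [aeval_X]
    rcases lt_trichotomy ((v.1 : ℕ) + 1) j with h | h | h
    · rw [if_pos h, fn_X, slot_sk_lt h]
      rfl
    · rw [if_neg (by omega), if_pos h, map_sum, Finset.sum_apply, ← h, slot_sk_eq, Pt.co_mul]
      refine Finset.sum_congr rfl fun p _ => ?_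
      rw [map_mul, map_pow, Pi.mul_apply, Pi.pow_apply, fn_xi, fn_xi]
      rfl
    · rw [if_neg (by omega), if_neg (by omega), fn_X, slot_sk_gt (by omega)]
      rfl
  exact congrFun (congrArg (fun F => F p) h) z

lemma fn_cobarD (s : ℕ) (p : Cobar s) (z : ℕ → Pt SS) :
    fn (s + 1) (cobarD s p) z = dd s (fn s p) z := by
  unfold cobarD dd
  rw [map_sum, Finset.sum_apply]
  exact Finset.sum_congr rfl fun j _ => fn_coface s j p z

/-- The generic point of the dual Steenrod algebra. -/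
def gen (r : ℕ) : Pt SS where
  co m := match m with
    | 0 => 1
    | n + 1 => X (r, n)
  co_zero := rfl

/-- A sequence with generic slots. -/
def genSeq : ℕ → Pt SS
  | 0 => 1
  | r + 1 => genSeq r * gen r

lemma slot_genSeq (r : ℕ) : slot r genSeq = gen r := by
  change (genSeq r)⁻¹ * (genSeq r * gen r) = gen r
  group

lemma fn_inj (s : ℕ) {p q : Cobar s} (h : ∀ z, fn s p z = fn s q z) : p = q := by
  have hren : ∀ p : Cobar s, fn s p genSeq =
      rename (fun v : Fin s × ℕ => ((v.1 : ℕ), v.2)) p := by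
    intro p
    have h2 : (pcA (X' := Unit) (fun _ => genSeq)).comp (fn s) =
        (Pi.constAlgHom (ZMod 2) Unit SS).comp
          (rename (fun v : Fin s × ℕ => ((v.1 : ℕ), v.2))) := by
      refine MvPolynomial.algHom_ext fun v => ?_
      funext _
      change fn s (X v) genSeq = rename (fun v : Fin s × ℕ => ((v.1 : ℕ), v.2)) (X v)
      rw [fn_X, slot_genSeq, rename_X]
      rfl
    exact congrFun (congrArg (fun F => F p) h2) ()
  have h3 := h genSeq
  rw [hren, hren] at h3
  refine rename_injective _ ?_ h3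
  rintro ⟨i, a⟩ ⟨j, b⟩ hij
  have h4 := (Prod.mk.inj hij)
  exact Prod.ext (Fin.ext h4.1) h4.2

lemma fn_mem (s n t : ℕ) (p : Cobar s) (hp : HasDegree p t) :
    fn s p ∈ fil (GS (S := SS) 0 n 1 0 s) (t : ℤ) := by
  have hmono : ∀ d : (Fin s × ℕ) →₀ ℕ, fn s (monomial d 1) ∈ fil (GS (S := SS) 0 n 1 0 s)
      ((Finsupp.weight (fun v : Fin s × ℕ => 2 ^ (v.2 + 1) - 1) d : ℕ) : ℤ) := by
    intro d
    induction d using Finsupp.induction_linear with
    | zero =>
      rw [map_zero]
      have : (monomial (0 : (Fin s × ℕ) →₀ ℕ) (1 : ZMod 2)) = 1 := rfl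
      rw [this, map_one]
      exact fil_one _
    | add f g hf hg =>
      have : (monomial (f + g) (1 : ZMod 2)) = monomial f 1 * monomial g 1 := by
        rw [monomial_mul, one_mul]
      rw [this, map_mul, map_add]
      exact fil_mul' hf hg (by push_cast; ring)
    | single v a =>
      have h1 : (monomial (Finsupp.single v a) (1 : ZMod 2)) = X v ^ a := by
        rw [X_pow_eq_monomial]
      have h2 : fn s (X v) ∈ fil (GS (S := SS) 0 n 1 0 s) (2 ^ (v.2 + 1) - 1) := by
        have h3 : fn s (X v) = fun z => (slot (v.1 : ℕ) z).co (v.2 + 1) :=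
          funext fun z => fn_X s v z
        rw [h3]
        exact fil_gen (Gn.free (v.1 : ℕ) (v.2 + 1) (by omega))
      rw [h1, map_pow]
      have h4 := fil_pow h2 a
      have e : ((Finsupp.weight (fun v : Fin s × ℕ => 2 ^ (v.2 + 1) - 1)
          (Finsupp.single v a) : ℕ) : ℤ) = (a : ℤ) * (2 ^ (v.2 + 1) - 1) := by
        rw [Finsupp.weight_single, smul_eq_mul, Nat.cast_mul, Nat.cast_sub Nat.one_le_two_pow]
        push_cast
        ring
      rw [e]
      exact h4
  rw [p.as_sum, map_sum]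
  refine Submodule.sum_mem _ fun d hd => ?_
  have h1 : (monomial d (p.coeff d)) = p.coeff d • monomial d (1 : ZMod 2) := by
    rw [smul_monomial, smul_eq_mul, mul_one]
  rw [h1, map_smul]
  refine Submodule.smul_mem _ _ ?_
  have h2 := hp (mem_support_iff.1 hd)
  rw [← h2]
  exact hmono d

lemma fn_surj (s n : ℕ) (T : ℤ) (f : (ℕ → Pt SS) → SS)
    (hf : f ∈ fil (GS (S := SS) 0 n 1 0 s) T) (t : ℕ) (ht : T = t) :
    ∃ q : Cobar s, HasDegree q t ∧ fn s q = f := by
  have hxi : ∀ (i : Fin s) (a : ℕ), HasDegree (xi i a) (2 ^ a - 1) := by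
    intro i a
    cases a with
    | zero => exact isWeightedHomogeneous_one _ _
    | succ a => exact isWeightedHomogeneous_X _ _ _
  have key : ∀ (T : ℤ) (f : (ℕ → Pt SS) → SS), Mon (GS (S := SS) 0 n 1 0 s) T f →
      ∃ (t : ℕ) (q : Cobar s), T = t ∧ HasDegree q t ∧ fn s q = f := by
    intro T f hf
    induction hf with
    | one => exact ⟨0, 1, rfl, isWeightedHomogeneous_one _ _, map_one _⟩
    | @mul T w x g hx hg ih =>
      obtain ⟨t, q, rfl, hq, rfl⟩ := ih
      have hg' : ∃ (t' : ℕ) (q' : Cobar s), w = t' ∧ HasDegree q' t' ∧ fn s q' = g := by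
        have : Gn 0 n 1 0 s g w := hg
        cases this with
        | coef m hm =>
          have hm0 : m = 0 := by omega
          subst hm0
          refine ⟨0, 1, by simp, isWeightedHomogeneous_one _ _, ?_⟩
          rw [map_one]
          funext z
          simp
        | free r m h =>
          refine ⟨2 ^ m - 1, xi ⟨r, by omega⟩ m, ?_, hxi _ _, funext fun z => fn_xi _ _ _ z⟩
          rw [Nat.cast_sub Nat.one_le_two_pow]
          push_cast
          ring
        | fro r m h hm =>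
          refine ⟨2 ^ m - 1, xi ⟨r, by omega⟩ m, ?_, hxi _ _, funext fun z => ?_⟩
          · rw [Nat.cast_sub Nat.one_le_two_pow]
            push_cast
            ring
          · rw [fn_xi]
            simp
      obtain ⟨t', q', rfl, hq', rfl⟩ := hg'
      exact ⟨t + t', q * q', by push_cast; ring, IsWeightedHomogeneous.mul hq hq', map_mul _ _ _⟩
  induction hf using Submodule.span_induction with
  | mem x hx =>
    obtain ⟨t', q, h1, h2, h3⟩ := key _ _ hx
    have : t' = t := by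
      rw [ht] at h1
      exact_mod_cast h1.symm
    subst this
    exact ⟨q, h2, h3⟩
  | zero => exact ⟨0, isWeightedHomogeneous_zero _ _ _, map_zero _⟩
  | add x y _ _ hx hy =>
    obtain ⟨q, h1, rfl⟩ := hx
    obtain ⟨q', h2, rfl⟩ := hy
    exact ⟨q + q', IsWeightedHomogeneous.add h1 h2, map_add _ _ _⟩
  | smul r x _ hx =>
    obtain ⟨q, h1, rfl⟩ := hx
    refine ⟨r • q, ?_, map_smul _ _ _⟩
    exact (weightedHomogeneousSubmodule (ZMod 2) _ t).smul_mem r h1

lemma aa_eq (m : ℕ) : aa m = (m + 1) * m / 2 := by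
  have h : 2 * aa m = (m + 1) * m := by
    induction m with
    | zero => rfl
    | succ m ih =>
      change 2 * (aa m + (m + 1)) = _
      rw [mul_add, ih]
      ring
  omega

/-- For every `n ≥ 1` and every slope `μ < 2^n - 1` there is `S` such that for all `s ≥ S` and
all `t ≤ μ (s + 1)`, every class of `Ext_A^{s+1,t}(F_2, F_2)`, represented by a cobar cocycle
`p` of internal degree `t`, satisfies `(Sq^0)^j [p] = 0` for all `j ≥ n (n - 1) / 2`: the cocycle
`p ^ (2 ^ j)` is the coboundary of a cochain of internal degree `2 ^ j t`. -/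
theorem result (n : ℕ) (hn : 1 ≤ n) (μ : ℝ) (hμ : μ < 2 ^ n - 1) :
    ∃ S : ℕ, ∀ s ≥ S, ∀ t : ℕ, (t : ℝ) ≤ μ * (s + 1) →
      ∀ p : Cobar (s + 1), HasDegree p t → cobarD (s + 1) p = 0 →
        ∀ j ≥ n * (n - 1) / 2, ∃ q : Cobar s, HasDegree q (2 ^ j * t) ∧
          cobarD s q = p ^ 2 ^ j := by
  obtain ⟨m, rfl⟩ : ∃ m, n = m + 1 := ⟨n - 1, by omega⟩
  -- a denominator
  obtain ⟨c, hc⟩ := exists_nat_gt (1 / (2 ^ (m + 1) - 1 - μ))
  have hpos : (0 : ℝ) < 2 ^ (m + 1) - 1 - μ := by linarith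
  have hc1 : 1 ≤ c := by
    have h1 : (0 : ℝ) < c := lt_trans (by positivity) hc
    exact_mod_cast h1
  obtain ⟨S0, hmain⟩ := main_fun (S := SS) m c hc1
  refine ⟨S0, fun s hs t ht p hp hd j hj => ?_⟩
  have ht' : c * t ≤ (c * (2 ^ (m + 1) - 1) - 1) * (s + 1) := by
    have h1 : 1 < (c : ℝ) * (2 ^ (m + 1) - 1 - μ) := by
      rw [div_lt_iff₀ hpos] at hc
      exact hc
    have h2 : (c : ℝ) * μ ≤ c * (2 ^ (m + 1) - 1) - 1 := by linarith
    have h3 : (c : ℝ) * t ≤ (c * (2 ^ (m + 1) - 1) - 1) * (s + 1) := by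
      have h4 : (c : ℝ) * t ≤ c * (μ * (s + 1)) :=
        mul_le_mul_of_nonneg_left ht (by positivity)
      have h5 : ((c : ℝ) * μ) * (s + 1) ≤ (c * (2 ^ (m + 1) - 1) - 1) * (s + 1) :=
        mul_le_mul_of_nonneg_right h2 (by positivity)
      linarith
    have hQ : 1 ≤ 2 ^ (m + 1) - 1 := by
      have : 2 ^ 1 ≤ 2 ^ (m + 1) := Nat.pow_le_pow_right (by norm_num) (by omega)
      omega
    have hcQ : 1 ≤ c * (2 ^ (m + 1) - 1) := Nat.mul_pos hc1 hQ
    have h6 : (((c * (2 ^ (m + 1) - 1) - 1) * (s + 1) : ℕ) : ℝ) =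
        (c * (2 ^ (m + 1) - 1) - 1) * (s + 1) := by
      rw [Nat.cast_mul, Nat.cast_sub hcQ, Nat.cast_mul, Nat.cast_sub Nat.one_le_two_pow]
      push_cast
      ring
    have h7 : ((c * t : ℕ) : ℝ) ≤ (((c * (2 ^ (m + 1) - 1) - 1) * (s + 1) : ℕ) : ℝ) := by
      rw [h6]
      push_cast
      exact h3
    exact_mod_cast h7
  have hj' : j ≥ aa m := by
    rw [aa_eq]
    exact hj
  obtain ⟨f, hf, hf2⟩ := hmain s hs t ht' (fn (s + 1) p) (fn_mem (s + 1) (m + 1) t p hp)
    (fun z => by rw [← fn_cobarD, hd, map_zero]; rfl) j hj'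
  obtain ⟨q, hq, rfl⟩ := fn_surj s (m + 1) _ f hf (2 ^ j * t) rfl
  refine ⟨q, hq, fn_inj (s + 1) fun z => ?_⟩
  rw [fn_cobarD, hf2, map_pow]
  rfl

end

end Pool.Agent.Results.MP_701abf_gt.SqZeroSector
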