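import Pool.Agent.Work.MP_701abf_gt.Abs

/-!
The cobar construction of a commutative bialgebra over the field with two elements as a
tensor algebra, and its first cup products.
-/

namespace Pool.Agent.Work.MP_701abf_gt

open TensorProduct

noncomputable section

variable (B : Type*) [CommRing B] [Bialgebra (ZMod 2) B]

/-- The tensor algebra. -/
abbrev TT := TensorAlgebra (ZMod 2) B

/-- The convolution algebra. -/
abbrev WW := WithConv (B →ₗ[ZMod 2] TT B)

variable {B}

/-- The letter map. -/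
def io : B →ₗ[ZMod 2] TT B := TensorAlgebra.ι (ZMod 2)

/-- The letter map as an element of the convolution algebra. -/
def II : WW B := WithConv.toConv io

/-- The empty-coefficient letter. -/
def ee : TT B := io 1

/-! ### Derivations -/

section der

variable {A' : Type*} [Ring A'] [Algebra (ZMod 2) A']

lemma der_one (α β : TT B →ₐ[ZMod 2] A') (Δ : TT B →ₗ[ZMod 2] A')
    (h : ∀ x y, Δ (x * y) = Δ x * β y + α x * Δ y) : Δ 1 = 0 := by
  have h1 := h 1 1
  rw [mul_one, map_one β, map_one α, mul_one, one_mul, add_self'] at h1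
  exact h1

lemma der_zero (α β : TT B →ₐ[ZMod 2] A') (Δ : TT B →ₗ[ZMod 2] A')
    (h : ∀ x y, Δ (x * y) = Δ x * β y + α x * Δ y) (h0 : ∀ f, Δ (io f) = 0) (x : TT B) :
    Δ x = 0 := by
  induction x using TensorAlgebra.induction with
  | algebraMap r => rw [Algebra.algebraMap_eq_smul_one, map_smul, der_one α β Δ h, smul_zero]
  | ι f => exact h0 f
  | mul a b ha hb => rw [h, ha, hb, zero_mul, mul_zero, add_zero]
  | add a b ha hb => rw [map_add, ha, hb, add_zero]

lemma der_ext (α β : TT B →ₐ[ZMod 2] A') (Δ Δ' : TT B →ₗ[ZMod 2] A')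
    (h : ∀ x y, Δ (x * y) = Δ x * β y + α x * Δ y)
    (h' : ∀ x y, Δ' (x * y) = Δ' x * β y + α x * Δ' y)
    (h0 : ∀ f, Δ (io f) = Δ' (io f)) (x : TT B) : Δ x = Δ' x := by
  have := der_zero α β (Δ + Δ') (fun x y => by
    simp only [LinearMap.add_apply, h, h', add_mul, mul_add]; abel)
    (fun f => by rw [LinearMap.add_apply, h0, add_self']) x
  rw [LinearMap.add_apply] at this
  exact add_eq_zero'.1 this

end der

/-- Entries of the upper triangular representation. -/
def tri (δ₁ δ₂ : B →ₗ[ZMod 2] TT B) : TT B →ₐ[ZMod 2] Matrix (Fin 3) (Fin 3) (TT B) :=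
  TensorAlgebra.lift (ZMod 2)
    { toFun := fun f => !![io f, δ₁ f, 0; 0, io f, δ₂ f; 0, 0, io f]
      map_add' := fun f g => by
        ext i j
        fin_cases i <;> fin_cases j <;> simp
      map_smul' := fun r f => by
        ext i j
        fin_cases i <;> fin_cases j <;> simp }

lemma tri_io (δ₁ δ₂ : B →ₗ[ZMod 2] TT B) (f : B) :
    tri δ₁ δ₂ (io f) = !![io f, δ₁ f, 0; 0, io f, δ₂ f; 0, 0, io f] := by
  unfold tri io
  rw [TensorAlgebra.lift_ι_apply]
  rfl

lemma tri_shape (δ₁ δ₂ : B →ₗ[ZMod 2] TT B) (x : TT B) :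
    tri δ₁ δ₂ x 0 0 = x ∧ tri δ₁ δ₂ x 1 1 = x ∧ tri δ₁ δ₂ x 2 2 = x ∧
    tri δ₁ δ₂ x 1 0 = 0 ∧ tri δ₁ δ₂ x 2 0 = 0 ∧ tri δ₁ δ₂ x 2 1 = 0 := by
  induction x using TensorAlgebra.induction with
  | algebraMap r =>
    rw [AlgHom.commutes]
    simp [Matrix.algebraMap_matrix_apply]
  | ι f =>
    change tri δ₁ δ₂ (io f) 0 0 = io f ∧ tri δ₁ δ₂ (io f) 1 1 = io f ∧
      tri δ₁ δ₂ (io f) 2 2 = io f ∧ tri δ₁ δ₂ (io f) 1 0 = 0 ∧ tri δ₁ δ₂ (io f) 2 0 = 0 ∧
      tri δ₁ δ₂ (io f) 2 1 = 0
    rw [tri_io]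
    simp
  | mul a b ha hb =>
    obtain ⟨a1, a2, a3, a4, a5, a6⟩ := ha
    obtain ⟨b1, b2, b3, b4, b5, b6⟩ := hb
    simp only [map_mul, Matrix.mul_apply, Fin.sum_univ_three, a1, a2, a3, a4, a5, a6,
      b1, b2, b3, b4, b5, b6, zero_mul, mul_zero, add_zero, zero_add, and_self]
  | add a b ha hb =>
    obtain ⟨a1, a2, a3, a4, a5, a6⟩ := ha
    obtain ⟨b1, b2, b3, b4, b5, b6⟩ := hb
    simp only [map_add, Matrix.add_apply, a1, a2, a3, a4, a5, a6,
      b1, b2, b3, b4, b5, b6, add_zero, and_self]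

/-- The derivation with given values on letters. -/
def der (δ : B →ₗ[ZMod 2] TT B) : TT B →ₗ[ZMod 2] TT B where
  toFun x := tri δ 0 x 0 1
  map_add' x y := by simp
  map_smul' r x := by simp

lemma der_io (δ : B →ₗ[ZMod 2] TT B) (f : B) : der δ (io f) = δ f := by
  change tri δ 0 (io f) 0 1 = δ f
  rw [tri_io]
  simp

lemma der_mul (δ : B →ₗ[ZMod 2] TT B) (x y : TT B) :
    der δ (x * y) = der δ x * y + x * der δ y := by
  change tri δ 0 (x * y) 0 1 = tri δ 0 x 0 1 * y + x * tri δ 0 y 0 1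
  obtain ⟨a1, a2, a3, a4, a5, a6⟩ := tri_shape δ 0 x
  obtain ⟨b1, b2, b3, b4, b5, b6⟩ := tri_shape δ 0 y
  rw [map_mul, Matrix.mul_apply, Fin.sum_univ_three, a1, b2, b6, mul_zero, add_zero, add_comm]

/-- The second order operator attached to two derivations. -/
def ss (δ₁ δ₂ : B →ₗ[ZMod 2] TT B) : TT B →ₗ[ZMod 2] TT B where
  toFun x := tri δ₁ δ₂ x 0 2
  map_add' x y := by simp
  map_smul' r x := by simp

lemma ss_io (δ₁ δ₂ : B →ₗ[ZMod 2] TT B) (f : B) : ss δ₁ δ₂ (io f) = 0 := by
  change tri δ₁ δ₂ (io f) 0 2 = 0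
  rw [tri_io]
  simp

lemma tri_01 (δ₁ δ₂ : B →ₗ[ZMod 2] TT B) (x : TT B) : tri δ₁ δ₂ x 0 1 = der δ₁ x := by
  refine der_ext (AlgHom.id _ _) (AlgHom.id _ _)
    { toFun := fun x => tri δ₁ δ₂ x 0 1, map_add' := fun x y => by simp,
      map_smul' := fun r x => by simp } (der δ₁) ?_ ?_ ?_ x
  · intro x y
    obtain ⟨a1, a2, a3, a4, a5, a6⟩ := tri_shape δ₁ δ₂ x
    obtain ⟨b1, b2, b3, b4, b5, b6⟩ := tri_shape δ₁ δ₂ y
    simp only [LinearMap.coe_mk, AddHom.coe_mk, AlgHom.id_apply]
    rw [map_mul, Matrix.mul_apply, Fin.sum_univ_three, a1, b2, b6, mul_zero, add_zero, add_comm]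
  · exact der_mul δ₁
  · intro f
    simp only [LinearMap.coe_mk, AddHom.coe_mk]
    rw [tri_io, der_io]
    simp

lemma tri_12 (δ₁ δ₂ : B →ₗ[ZMod 2] TT B) (x : TT B) : tri δ₁ δ₂ x 1 2 = der δ₂ x := by
  refine der_ext (AlgHom.id _ _) (AlgHom.id _ _)
    { toFun := fun x => tri δ₁ δ₂ x 1 2, map_add' := fun x y => by simp,
      map_smul' := fun r x => by simp } (der δ₂) ?_ ?_ ?_ x
  · intro x y
    obtain ⟨a1, a2, a3, a4, a5, a6⟩ := tri_shape δ₁ δ₂ x
    obtain ⟨b1, b2, b3, b4, b5, b6⟩ := tri_shape δ₁ δ₂ y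
    simp only [LinearMap.coe_mk, AddHom.coe_mk, AlgHom.id_apply]
    rw [map_mul, Matrix.mul_apply, Fin.sum_univ_three, a4, a2, b3, zero_mul, zero_add, add_comm]
  · exact der_mul δ₂
  · intro f
    simp only [LinearMap.coe_mk, AddHom.coe_mk]
    rw [tri_io, der_io]
    simp

lemma ss_mul (δ₁ δ₂ : B →ₗ[ZMod 2] TT B) (x y : TT B) :
    ss δ₁ δ₂ (x * y) = ss δ₁ δ₂ x * y + x * ss δ₁ δ₂ y + der δ₁ x * der δ₂ y := by
  change tri δ₁ δ₂ (x * y) 0 2 = tri δ₁ δ₂ x 0 2 * y + x * tri δ₁ δ₂ y 0 2 + _
  obtain ⟨a1, a2, a3, a4, a5, a6⟩ := tri_shape δ₁ δ₂ x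
  obtain ⟨b1, b2, b3, b4, b5, b6⟩ := tri_shape δ₁ δ₂ y
  rw [map_mul, Matrix.mul_apply, Fin.sum_univ_three, a1, b3, tri_01, tri_12]
  abel

/-! ### The differential -/

lemma conv_apply {ι : Type*} (v w : WW B) (f : B) (r : Coalgebra.Repr (ZMod 2) f ι) :
    (v * w) f = ∑ i ∈ r.index, v (r.left i) * w (r.right i) := r.convMul_apply v w

/-- The cobar differential. -/
def dT : TT B →ₗ[ZMod 2] TT B :=
  der (LinearMap.mulLeft (ZMod 2) ee ∘ₗ io + LinearMap.mulRight (ZMod 2) ee ∘ₗ io +
    (II * II : WW B).ofConv)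

lemma dT_io (f : B) : dT (io f) = ee * io f + io f * ee + (II * II : WW B) f := by
  rw [dT, der_io]
  rfl

lemma dT_mul (x y : TT B) : dT (x * y) = dT x * y + x * dT y := der_mul _ x y

/-- The action of letters on the tensor algebra, as a map to the convolution algebra. -/
def mu : TT B →ₐ[ZMod 2] WW B :=
  TensorAlgebra.lift (ZMod 2)
    { toFun := fun g => WithConv.toConv (io ∘ₗ LinearMap.mulRight (ZMod 2) g)
      map_add' := fun f g => by
        ext x
        simp [mul_add]
      map_smul' := fun r f => by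
        ext x
        simp }

lemma mu_io (g f : B) : mu (io g) f = io (f * g) := by
  unfold mu
  unfold io
  rw [TensorAlgebra.lift_ι_apply]
  rfl

lemma mu_ee : mu (ee : TT B) = II := by
  ext f
  have := mu_io 1 f
  rw [mul_one] at this
  exact this

/-- The constant elements of the convolution algebra. -/
def cst (x : TT B) : WW B :=
  WithConv.toConv (LinearMap.toSpanSingleton (ZMod 2) _ x ∘ₗ Coalgebra.counit)

lemma cst_mul (x : TT B) (w : WW B) (f : B) : (cst x * w) f = x * w f := by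
  obtain r := Coalgebra.Repr.arbitrary (ZMod 2) f
  rw [conv_apply _ _ f r]
  conv_rhs => rw [← Coalgebra.sum_counit_smul r]
  change _ = x * w.ofConv _
  rw [map_sum, Finset.mul_sum]
  refine Finset.sum_congr rfl fun i _ => ?_
  rw [map_smul, mul_smul_comm, ← smul_mul_assoc]
  rfl

lemma mul_cst (x : TT B) (w : WW B) (f : B) : (w * cst x) f = w f * x := by
  obtain r := Coalgebra.Repr.arbitrary (ZMod 2) f
  have h := congrArg (TensorProduct.rid (ZMod 2) B) (Coalgebra.sum_tmul_counit_eq r)
  simp only [map_sum, TensorProduct.rid_tmul, one_smul] at h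
  rw [conv_apply _ _ f r]
  conv_rhs => rw [← h]
  change _ = w.ofConv _ * x
  rw [map_sum, Finset.sum_mul]
  refine Finset.sum_congr rfl fun i _ => ?_
  rw [map_smul, smul_mul_assoc, ← mul_smul_comm]
  rfl

/-- Evaluation at the unit is multiplicative. -/
lemma conv_one (v w : WW B) : (v * w) (1 : B) = v 1 * w 1 := by
  rw [LinearMap.convMul_apply, Bialgebra.comul_one, Algebra.TensorProduct.one_def,
    TensorProduct.map_tmul, LinearMap.mul'_apply]

lemma mu_one_apply (y : TT B) : mu y (1 : B) = y := by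
  induction y using TensorAlgebra.induction with
  | algebraMap r =>
    rw [AlgHom.commutes, LinearMap.convAlgebraMap_apply, Bialgebra.counit_one, map_one,
      Algebra.algebraMap_eq_smul_one]
  | ι f =>
    have := mu_io f 1
    rw [one_mul] at this
    exact this
  | mul a b ha hb => rw [map_mul, conv_one, ha, hb]
  | add a b ha hb =>
    rw [map_add]
    change mu a 1 + mu b 1 = a + b
    rw [ha, hb]

/-- The cup-one operators. -/
def bb (y : TT B) : TT B →ₗ[ZMod 2] TT B := der (mu y).ofConv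

lemma bb_io (y : TT B) (f : B) : bb y (io f) = mu y f := der_io _ f

lemma bb_mul (y x x' : TT B) : bb y (x * x') = bb y x * x' + x * bb y x' := der_mul _ x x'

lemma bb_ee (y : TT B) : bb y ee = y := by
  rw [ee, bb_io, mu_one_apply]

lemma bb_add (y y' x : TT B) : bb (y + y') x = bb y x + bb y' x := by
  refine der_ext (AlgHom.id _ _) (AlgHom.id _ _) (bb (y + y')) (bb y + bb y') ?_ ?_ ?_ x
  · exact bb_mul _
  · intro x x'
    simp only [LinearMap.add_apply, bb_mul, AlgHom.id_apply]
    noncomm_ring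
  · intro f
    rw [LinearMap.add_apply, bb_io, bb_io, bb_io, map_add]
    rfl

lemma bb_zero (x : TT B) : bb 0 x = 0 := by
  refine der_zero (AlgHom.id _ _) (AlgHom.id _ _) (bb 0) (bb_mul _) ?_ x
  intro f
  rw [bb_io, map_zero]
  rfl

/-- The differential on the convolution algebra. -/
def dW (w : WW B) : WW B := WithConv.toConv (dT ∘ₗ w.ofConv)

lemma dW_apply (w : WW B) (f : B) : dW w f = dT (w f) := rfl

lemma dW_add (v w : WW B) : dW (v + w) = dW v + dW w := by
  ext f
  change dT (v f + w f) = dT (v f) + dT (w f)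
  rw [map_add]

lemma dW_mul (v w : WW B) : dW (v * w) = dW v * w + v * dW w := by
  ext f
  obtain r := Coalgebra.Repr.arbitrary (ZMod 2) f
  change dT ((v * w) f) = (dW v * w) f + (v * dW w) f
  rw [conv_apply _ _ f r, conv_apply _ _ f r, conv_apply _ _ f r, map_sum,
    ← Finset.sum_add_distrib]
  exact Finset.sum_congr rfl fun i _ => dT_mul _ _

/-- `I * I` and products of letters. -/
lemma II_mul (f g : B) : (II * II : WW B) (f * g) = mu ((II * II : WW B) g) f := by
  obtain r := Coalgebra.Repr.arbitrary (ZMod 2) f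
  obtain r' := Coalgebra.Repr.arbitrary (ZMod 2) g
  rw [conv_apply _ _ g r', map_sum]
  have e1 : ∀ (s : Finset (B × B)) (F : B × B → WW B) (f : B),
      (∑ i ∈ s, F i) f = ∑ i ∈ s, F i f := by
    intro s F f
    change (∑ i ∈ s, F i).ofConv f = _
    rw [WithConv.ofConv_sum, LinearMap.sum_apply]
  rw [e1]
  rw [LinearMap.convMul_apply, Bialgebra.comul_mul, ← r.eq, ← r'.eq, Finset.sum_mul_sum]
  simp only [map_sum, Algebra.TensorProduct.tmul_mul_tmul, TensorProduct.map_tmul,
    LinearMap.mul'_apply]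
  rw [Finset.sum_comm]
  refine Finset.sum_congr rfl fun j _ => ?_
  rw [map_mul, conv_apply _ _ f r]
  refine Finset.sum_congr rfl fun i _ => ?_
  change io _ * io _ = mu (io _) _ * mu (io _) _
  rw [mu_io, mu_io]

/-- The basic identity for the action of letters. -/
lemma dW_mu (y : TT B) : dW (mu y) + mu (dT y) = (cst ee + II) * mu y + mu y * (cst ee + II) := by
  refine der_ext mu mu
    { toFun := fun y => dW (mu y) + mu (dT y), map_add' := ?_, map_smul' := ?_ }
    { toFun := fun y => (cst ee + II) * mu y + mu y * (cst ee + II),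
      map_add' := ?_, map_smul' := ?_ } ?_ ?_ ?_ y
  · intro x y
    rw [map_add, map_add, map_add, dW_add]
    abel
  · intro r x
    rw [map_smul, map_smul, map_smul, RingHom.id_apply, smul_add]
    congr 1
    ext f
    change dT (r • mu x f) = r • dT (mu x f)
    rw [map_smul]
  · intro x y
    rw [map_add]
    noncomm_ring
  · intro r x
    rw [map_smul, RingHom.id_apply, smul_add, mul_smul_comm, smul_mul_assoc]
  · intro x y
    simp only [LinearMap.coe_mk, AddHom.coe_mk]
    rw [map_mul, dW_mul, dT_mul, map_add, map_mul, map_mul]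
    noncomm_ring
  · intro x y
    simp only [LinearMap.coe_mk, AddHom.coe_mk]
    rw [map_mul]
    have h := add_self' (mu x * (cst ee + II) * mu y)
    calc _ = (cst ee + II) * mu x * mu y + mu x * mu y * (cst ee + II) + 0 := by
          rw [add_zero]; noncomm_ring
      _ = _ := by rw [← h]; noncomm_ring
  · intro g
    simp only [LinearMap.coe_mk, AddHom.coe_mk]
    ext f
    change dT (mu (io g) f) + mu (dT (io g)) f = ((cst ee + II) * mu (io g) : WW B) f
      + (mu (io g) * (cst ee + II) : WW B) f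
    rw [add_mul, mul_add]
    change dT (mu (io g) f) + mu (dT (io g)) f = ((cst ee * mu (io g) : WW B) f + (II * mu (io g) : WW B) f)
      + ((mu (io g) * cst ee : WW B) f + (mu (io g) * II : WW B) f)
    rw [cst_mul, mul_cst, mu_io, dT_io, dT_io, map_add, map_add, map_mul mu ee, map_mul mu _ ee,
      mu_ee]
    change _ + ((II * mu (io g) : WW B) f + (mu (io g) * II : WW B) f + mu ((II * II : WW B) g) f) = _
    rw [← II_mul]
    have h := add_self' ((II * II : WW B) (f * g))
    calc _ = ee * io (f * g) + (II * mu (io g) : WW B) f + (io (f * g) * ee + (mu (io g) * II : WW B) f)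
          + ((II * II : WW B) (f * g) + (II * II : WW B) (f * g)) := by abel
      _ = _ := by rw [h, add_zero]

lemma dW_mu_apply (y : TT B) (f : B) : dT (mu y f) + mu (dT y) f =
    ee * mu y f + (II * mu y : WW B) f + (mu y f * ee + (mu y * II : WW B) f) := by
  have h := dW_mu y
  have h1 := congrArg (fun w : WW B => w f) h
  change dT (mu y f) + mu (dT y) f = ((cst ee + II) * mu y : WW B) f + (mu y * (cst ee + II) : WW B) f at h1
  rw [add_mul, mul_add] at h1
  change _ = ((cst ee * mu y : WW B) f + (II * mu y : WW B) f) + ((mu y * cst ee : WW B) f + (mu y * II : WW B) f) at h1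
  rw [cst_mul, mul_cst] at h1
  exact h1

lemma bb_II (y : TT B) (f : B) : bb y ((II * II : WW B) f) = (mu y * II : WW B) f + (II * mu y : WW B) f := by
  obtain r := Coalgebra.Repr.arbitrary (ZMod 2) f
  rw [conv_apply _ _ f r, conv_apply _ _ f r, conv_apply _ _ f r, map_sum,
    ← Finset.sum_add_distrib]
  refine Finset.sum_congr rfl fun i _ => ?_
  rw [bb_mul]
  change bb y (io _) * _ + _ * bb y (io _) = _
  rw [bb_io, bb_io]

/-- The coboundary of the cup-one product. -/
theorem dT_bb (x y : TT B) : dT (bb y x) + bb y (dT x) + bb (dT y) x = x * y + y * x := by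
  refine der_ext (AlgHom.id _ _) (AlgHom.id _ _)
    { toFun := fun x => dT (bb y x) + bb y (dT x) + bb (dT y) x,
      map_add' := ?_, map_smul' := ?_ }
    { toFun := fun x => x * y + y * x, map_add' := ?_, map_smul' := ?_ } ?_ ?_ ?_ x
  · intro a b
    simp only [map_add]
    abel
  · intro r a
    simp only [map_smul, RingHom.id_apply, smul_add]
  · intro a b
    noncomm_ring
  · intro r a
    simp only [smul_mul_assoc, mul_smul_comm, RingHom.id_apply, smul_add]
  · intro a b
    simp only [LinearMap.coe_mk, AddHom.coe_mk, AlgHom.id_apply, bb_mul, dT_mul, map_add]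
    have h := add_self' (dT a * bb y b)
    have h2 := add_self' (bb y a * dT b)
    calc _ = (dT (bb y a) + bb y (dT a) + bb (dT y) a) * b
          + a * (dT (bb y b) + bb y (dT b) + bb (dT y) b)
          + (dT a * bb y b + dT a * bb y b) + (bb y a * dT b + bb y a * dT b) := by noncomm_ring
      _ = _ := by rw [h, h2, add_zero, add_zero]
  · intro a b
    simp only [LinearMap.coe_mk, AddHom.coe_mk, AlgHom.id_apply]
    have h := add_self' (a * y * b)
    calc _ = a * b * y + y * a * b + 0 := by rw [add_zero]; noncomm_ring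
      _ = _ := by rw [← h]; noncomm_ring
  · intro f
    simp only [LinearMap.coe_mk, AddHom.coe_mk]
    rw [bb_io, bb_io, dT_io, map_add, map_add, bb_mul, bb_mul, bb_ee, bb_io, bb_II]
    have h := dW_mu_apply y f
    have h2 : dT (mu y f) = mu (dT y) f +
        (ee * mu y f + (II * mu y : WW B) f + (mu y f * ee + (mu y * II : WW B) f)) := by
      rw [← h, add_comm (dT _), ← add_assoc, add_self', zero_add]
    rw [h2]
    have e1 := add_self' (mu (dT y) f)
    have e2 := add_self' (ee * mu y f)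
    have e3 := add_self' (mu y f * ee)
    have e4 := add_self' ((II * mu y : WW B) f)
    have e5 := add_self' ((mu y * II : WW B) f)
    calc _ = io f * y + y * io f + (mu (dT y) f + mu (dT y) f) + (ee * mu y f + ee * mu y f)
          + (mu y f * ee + mu y f * ee) + ((II * mu y : WW B) f + (II * mu y : WW B) f)
          + ((mu y * II : WW B) f + (mu y * II : WW B) f) := by abel
      _ = _ := by rw [e1, e2, e3, e4, e5]; simp

end

end Pool.Agent.Work.MP_701abf_gt
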